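import Pool.Agent.Helper60.TCT.StB

/-!
# T9, CRS: double counting of the edges which leave a near-clique
-/

set_option autoImplicit false

namespace Pool.TCT

open Pool.TC Pool.TCM Pool.TCS Finset
open scoped Classical

private theorem Crs_swap {α β : Type} (s : Finset α) (t : Finset β) (r : α → β → Prop) :
    ∑ a ∈ s, (t.filter (fun b => r a b)).card = ∑ b ∈ t, (s.filter (fun a => r a b)).card := by
  simp only [Finset.card_filter]
  exact Finset.sum_comm

private theorem Crs_mem {V : Type} [Fintype V] (G : SimpleGraph V) (u v : V) :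
    v ∈ nb G u ↔ G.Adj u v := by
  simp [nb]

private theorem Crs_one {V κ ι : Type} [Fintype V] [Fintype κ] (G : SimpleGraph V) (D B : ℕ)
    (N : κ → V → V) (K : ι → Finset V) (_ : Lat G D N) (hK : Dec G B K) (i : ι) :
    ∑ x ∈ univ.filter (fun x => x ∉ K i), ((nb G x).filter (fun w => w ∈ K i)).card ≤
      (K i).card * B := by
  have h1 : ∀ x ∈ univ.filter (fun x => x ∉ K i), ((nb G x).filter (fun w => w ∈ K i)).card =
      ((K i).filter (fun w => G.Adj x w)).card := by
    intro x _
    congr 1
    ext w
    rw [Finset.mem_filter, Finset.mem_filter, Crs_mem]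
    exact and_comm
  rw [Finset.sum_congr rfl h1, Crs_swap]
  have h2 : ∀ w ∈ K i, ((univ.filter (fun x => x ∉ K i)).filter (fun x => G.Adj x w)).card ≤ B := by
    intro w hw
    refine le_trans (Finset.card_le_card ?_) (hK.out i w hw)
    intro x hx
    rw [Finset.mem_filter, Finset.mem_filter] at hx
    rw [Finset.mem_sdiff, Crs_mem]
    exact ⟨hx.2.symm, hx.1.2⟩
  calc _ ≤ ∑ _w ∈ K i, B := Finset.sum_le_sum h2
    _ = (K i).card * B := by rw [Finset.sum_const, smul_eq_mul]

theorem thm_Crs : St_Crs := by
  intro V κ ι _ _ G D B N K hL hK i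
  refine ⟨Crs_one G D B N K hL hK i, ?_, ?_⟩
  · refine le_trans (Finset.sum_le_sum ?_) (Crs_one G D B N K hL hK i)
    intro x hx
    rw [Finset.mem_filter] at hx
    apply Finset.card_le_card_of_injOn (fun a => N a x)
    · intro a ha
      have ha' := (Finset.mem_filter.1 (Finset.mem_coe.1 ha)).2
      apply Finset.mem_coe.2
      rw [Finset.mem_filter, Crs_mem]
      refine ⟨hL.sub a x ?_, ha'⟩
      intro he
      rw [he] at ha'
      exact hx.2 ha'
    · intro a _ b _ hab
      exact hL.inj x a b hab
  · intro j x hx hxi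
    refine le_trans (Finset.card_le_card ?_) (hK.out j x hx)
    intro w hw
    rw [Finset.mem_filter] at hw
    rw [Finset.mem_sdiff]
    refine ⟨hw.1, fun hwj => ?_⟩
    have hij := hK.disj i j w hw.2 hwj
    rw [hij] at hxi
    exact hxi hx

end Pool.TCT
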