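import Pool.Agent.Helper60.TCT.StB

/-!
# T9, DCX: the decoder exists
-/

set_option autoImplicit false

namespace Pool.TCT

open Pool.TC Pool.TCM Pool.TCS Finset
open scoped Classical

private theorem Dcx_aux {κ : Type} (P : Finset κ) (n : ℕ) (h : P.card ≤ n) :
    ∃ d : Fin n → Option κ, ∀ a, (univ.filter (fun b => d b = some a)).card =
      if a ∈ P then 1 else 0 := by
  have he : Nonempty ({a // a ∈ P} ↪ Fin n) := by
    apply Function.Embedding.nonempty_of_card_le
    rw [Fintype.card_coe, Fintype.card_fin]
    exact h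
  obtain ⟨e⟩ := he
  refine ⟨fun b => if hb : ∃ a : {a // a ∈ P}, e a = b then some (Classical.choose hb).1
    else none, ?_⟩
  intro a
  have key : ∀ b, (if hb : ∃ a : {a // a ∈ P}, e a = b then some (Classical.choose hb).1
      else none) = some a ↔ ∃ ha : a ∈ P, e ⟨a, ha⟩ = b := by
    intro b
    by_cases hb : ∃ a : {a // a ∈ P}, e a = b
    · rw [dif_pos hb]
      have hs := Classical.choose_spec hb
      constructor
      · intro h1
        have h2 : (Classical.choose hb).1 = a := Option.some.inj h1
        have h3 : a ∈ P := by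
          rw [← h2]
          exact (Classical.choose hb).2
        refine ⟨h3, ?_⟩
        have h4 : (⟨a, h3⟩ : {a // a ∈ P}) = Classical.choose hb := Subtype.ext h2.symm
        rw [h4]
        exact hs
      · rintro ⟨ha, h1⟩
        have h2 : Classical.choose hb = ⟨a, ha⟩ := e.injective (hs.trans h1.symm)
        rw [h2]
    · rw [dif_neg hb]
      constructor
      · intro h1
        exact absurd h1 (by simp)
      · rintro ⟨ha, h1⟩
        exact absurd ⟨_, h1⟩ hb
  by_cases ha : a ∈ P
  · rw [if_pos ha, Finset.card_eq_one]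
    refine ⟨e ⟨a, ha⟩, ?_⟩
    ext b
    rw [Finset.mem_filter, Finset.mem_singleton, key]
    constructor
    · rintro ⟨_, _, h1⟩
      exact h1.symm
    · intro h1
      exact ⟨Finset.mem_univ _, ha, h1.symm⟩
  · rw [if_neg ha, Finset.card_eq_zero, Finset.filter_eq_empty_iff]
    intro b _ hb
    rw [key] at hb
    obtain ⟨h1, _⟩ := hb
    exact ha h1

theorem thm_Dcx (hPbC : St_PbC) : St_Dcx := by
  intro V κ ι _ _ G D B N K Q c Pv lam hL hK hS hB hD
  have hcard : ∀ w, (PP G D N K Pv c w).card ≤ 10000 * B := by
    intro w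
    by_cases hne : (PP G D N K Pv c w).Nonempty
    · obtain ⟨a, ha⟩ := hne
      unfold PP at ha
      rw [Finset.mem_filter] at ha
      obtain ⟨_, i, hi, _, _⟩ := ha
      have hsub : PP G D N K Pv c w ⊆ Pb G D N K Pv c i := by
        intro b hb
        unfold PP at hb
        rw [Finset.mem_filter] at hb
        obtain ⟨_, j, hj, _, hbj⟩ := hb
        have hji := hK.disj j i w hj hi
        rw [hji] at hbj
        exact hbj
      have h1 := (hPbC V κ ι G D B N K Q c Pv lam hL hK hS hB hD i).2.2.1
      have h2 := Finset.card_le_card hsub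
      omega
    · rw [Finset.not_nonempty_iff_eq_empty] at hne
      rw [hne, Finset.card_empty]
      exact Nat.zero_le _
  choose dec hdec using fun w => Dcx_aux (PP G D N K Pv c w) (10000 * B) (hcard w)
  exact ⟨dec, fun w a => hdec w a⟩

end Pool.TCT
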