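import Pool.Agent.Helper60.TCT.StB

/-!
# T9: the arithmetic of the dummies (DUM)
-/

set_option autoImplicit false

namespace Pool.TCT

open Pool.TC Pool.TCM Pool.TCS Finset
open scoped Classical

private theorem Dum_real {κ : Type} (P : Finset κ) (w x : κ → ℝ) (small : κ → Prop)
    [DecidablePred small] (n D lam : ℝ)
    (hD : 0 < D) (hn : 0 < n) (h1 : 999 * D ≤ 1000 * n) (h2 : 1000 * n ≤ 1001 * D)
    (hs : ∀ a, small a ↔ 4 * w a < n) (hw0 : ∀ a, 0 ≤ w a) (hx0 : ∀ a, 0 ≤ x a)
    (hw : ∀ a ∈ P, w a ≤ n)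
    (hbig : ∀ a ∈ P, ¬ small a → 99 / 80 * w a ≤ x a * D)
    (hsm : n ≤ 50 * ∑ a ∈ P.filter small, w a →
      99 / 80 * (∑ a ∈ P.filter small, w a) ≤ (∑ a ∈ P.filter small, x a) * D)
    (hup : ∀ a ∈ P, x a * D ≤ 5 / 4 * (w a + D / 10))
    (htot : n * (P.card : ℝ) ≤ n * lam + ∑ a ∈ P, w a)
    (hint : ∀ l : Finset κ, l ⊆ P → (P.card : ℝ) < lam + l.card + 1 →
      (P.card : ℝ) ≤ lam + l.card) :
    ∑ a ∈ P, (1 - min 1 (x a)) ≤ lam := by
  set s := P.filter small with hsdef
  set l := P.filter (fun a => ¬ small a) with hldef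
  have split : ∀ f : κ → ℝ, ∑ a ∈ P, f a = ∑ a ∈ s, f a + ∑ a ∈ l, f a := fun f =>
    (Finset.sum_filter_add_sum_filter_not P small f).symm
  have hgoal : (P.card : ℝ) - ∑ a ∈ P, min 1 (x a) ≤ lam →
      ∑ a ∈ P, (1 - min 1 (x a)) ≤ lam := by
    intro h
    rw [Finset.sum_sub_distrib, Finset.sum_const, nsmul_eq_mul, mul_one]
    exact h
  apply hgoal
  -- big elements
  have hb : ∀ a ∈ l, 1236 / 1000 * (w a / n) ≤ x a := by
    intro a ha
    rw [hldef, Finset.mem_filter] at ha
    have h3 := hbig a ha.1 ha.2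
    have h4 : 999 / 1000 * (w a / n) ≤ w a / D := by
      rw [le_div_iff₀ hD]
      have h5 : 999 / 1000 * (w a / n) * D = (w a / n) * (999 * D) / 1000 := by ring
      have h6 : (w a / n) * (999 * D) ≤ (w a / n) * (1000 * n) :=
        mul_le_mul_of_nonneg_left h1 (div_nonneg (hw0 a) hn.le)
      have h7 : (w a / n) * (1000 * n) = 1000 * w a := by
        field_simp
      rw [h5]
      linarith
    have h8 : 99 / 80 * (w a / D) ≤ x a := by
      rw [← mul_div_assoc, div_le_iff₀ hD]
      exact h3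
    have h9 : 0 ≤ w a / n := div_nonneg (hw0 a) hn.le
    linarith
  have hz1 : ∀ a ∈ P, w a / n ≤ 1 := fun a ha => (div_le_one hn).2 (hw a ha)
  have hbz : ∀ a ∈ l, w a / n ≤ min 1 (x a) := by
    intro a ha
    have h3 := hb a ha
    rw [hldef, Finset.mem_filter] at ha
    have h9 : 0 ≤ w a / n := div_nonneg (hw0 a) hn.le
    exact le_min (hz1 a ha.1) (by linarith)
  -- small elements
  have hsv : ∀ a ∈ s, min 1 (x a) = x a := by
    intro a ha
    rw [hsdef, Finset.mem_filter] at ha
    apply min_eq_right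
    have h3 := hup a ha.1
    have h4 := (hs a).1 ha.2
    by_contra hc
    rw [not_le] at hc
    have h5 : D < x a * D := by nlinarith
    linarith
  have htot' : (P.card : ℝ) - lam ≤ ∑ a ∈ P, w a / n := by
    rw [← Finset.sum_div, le_div_iff₀ hn]
    linarith
  by_cases c1 : n ≤ 50 * ∑ a ∈ s, w a
  · have h3 := hsm c1
    have h4 : ∑ a ∈ s, w a / n ≤ ∑ a ∈ s, min 1 (x a) := by
      rw [Finset.sum_congr rfl hsv, ← Finset.sum_div]
      set Ws := ∑ a ∈ s, w a with hWs
      have hWs0 : 0 ≤ Ws := Finset.sum_nonneg fun a _ => hw0 a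
      have h5 : 99 / 80 * Ws / D ≤ ∑ a ∈ s, x a := by
        rw [div_le_iff₀ hD]
        exact h3
      refine le_trans ?_ h5
      rw [div_le_div_iff₀ hn hD]
      nlinarith
    have h5 : ∑ a ∈ l, w a / n ≤ ∑ a ∈ l, min 1 (x a) := Finset.sum_le_sum hbz
    have h6 := split (fun a => w a / n)
    have h7 := split (fun a => min 1 (x a))
    linarith
  · rw [not_le] at c1
    have hsz : ∑ a ∈ s, w a / n < 1 / 50 := by
      rw [← Finset.sum_div, div_lt_iff₀ hn]
      linarith
    have hsv0 : 0 ≤ ∑ a ∈ s, min 1 (x a) :=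
      Finset.sum_nonneg fun a _ => le_min zero_le_one (hx0 a)
    by_cases c2 : ∃ a0 ∈ l, min 1 (x a0) < 1
    · obtain ⟨a0, ha0, hlt⟩ := c2
      have h3 : ∑ a ∈ l, w a / n + 1 / 50 ≤ ∑ a ∈ l, min 1 (x a) := by
        rw [← Finset.add_sum_erase l _ ha0, ← Finset.add_sum_erase l (fun a => min 1 (x a)) ha0]
        have h4 : ∑ a ∈ l.erase a0, w a / n ≤ ∑ a ∈ l.erase a0, min 1 (x a) :=
          Finset.sum_le_sum fun a ha => hbz a (Finset.mem_of_mem_erase ha)
        have h5 : w a0 / n + 1 / 50 ≤ min 1 (x a0) := by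
          have h6 := hb a0 ha0
          have h7 : min 1 (x a0) = x a0 := by
            rcases min_choice 1 (x a0) with h8 | h8
            · rw [h8] at hlt
              exact absurd hlt (lt_irrefl _)
            · exact h8
          rw [hldef, Finset.mem_filter, hs, not_lt] at ha0
          have h8 : 1 / 4 ≤ w a0 / n := by
            rw [le_div_iff₀ hn]
            linarith [ha0.2]
          rw [h7]
          linarith
        linarith
      have h6 := split (fun a => w a / n)
      have h7 := split (fun a => min 1 (x a))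
      linarith
    · push Not at c2
      have h3 : (l.card : ℝ) ≤ ∑ a ∈ l, min 1 (x a) := by
        have h4 : ∑ _a ∈ l, (1 : ℝ) ≤ ∑ a ∈ l, min 1 (x a) := Finset.sum_le_sum c2
        rwa [Finset.sum_const, nsmul_eq_mul, mul_one] at h4
      have h5 : ∑ a ∈ l, w a ≤ l.card * n := by
        have h6 : ∑ a ∈ l, w a ≤ ∑ _a ∈ l, n := Finset.sum_le_sum fun a ha => by
          rw [hldef, Finset.mem_filter] at ha
          exact hw a ha.1
        rwa [Finset.sum_const, nsmul_eq_mul] at h6
      have h6 := split w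
      have hWs0 : 0 ≤ ∑ a ∈ s, w a := Finset.sum_nonneg fun a _ => hw0 a
      have h7 : (P.card : ℝ) < lam + l.card + 1 := by
        have h8 : n * (P.card : ℝ) < n * (lam + l.card + 1) := by linarith
        exact lt_of_mul_lt_mul_left h8 hn.le
      have h9 := hint l (Finset.filter_subset _ _) h7
      have h10 := split (fun a => min 1 (x a))
      linarith

theorem thm_Dum : St_Dum := by
  intro κ P w t n D B lam hD hB h1 h2 hw hbig hsm hup htot
  have hDr : (0 : ℝ) < D := by exact_mod_cast hD
  have hn : 0 < n := by omega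
  have hnr : (0 : ℝ) < n := by exact_mod_cast hn
  have key := Dum_real P (fun a => (w a : ℝ)) (fun a => 12500 * (B : ℝ) * t a / D)
    (fun a => 4 * w a < n) (n : ℝ) (D : ℝ) (lam : ℝ) hDr hnr (by exact_mod_cast h1)
    (by exact_mod_cast h2)
    (fun a => by
      constructor
      · intro h
        exact_mod_cast h
      · intro h
        exact_mod_cast h)
    (fun a => Nat.cast_nonneg _) (fun a => by positivity)
    (fun a ha => by exact_mod_cast hw a ha)
    (fun a ha hna => by
      have h3 := hbig a ha (not_lt.1 hna)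
      rw [div_mul_cancel₀ _ hDr.ne']
      linarith)
    (fun h => by
      have h3 : n ≤ 50 * ∑ a ∈ P.filter (fun a => 4 * w a < n), w a := by
        exact_mod_cast h
      have h4 := hsm h3
      have h5 : (∑ a ∈ P.filter (fun a => 4 * w a < n), 12500 * (B : ℝ) * t a / D) * D =
          12500 * (B : ℝ) * ∑ a ∈ P.filter (fun a => 4 * w a < n), (t a : ℝ) := by
        rw [Finset.sum_mul, Finset.mul_sum]
        apply Finset.sum_congr rfl
        intro a _
        rw [div_mul_cancel₀ _ hDr.ne']
      rw [h5]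
      linarith)
    (fun a ha => by
      have h3 := hup a ha
      rw [div_mul_cancel₀ _ hDr.ne']
      linarith)
    (by exact_mod_cast htot)
    (fun l _ h => by
      have h3 : P.card < lam + l.card + 1 := by exact_mod_cast h
      have h4 : P.card ≤ lam + l.card := by omega
      exact_mod_cast h4)
  exact key

end Pool.TCT
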