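import Pool.Agent.Helper60.TCT.StD

/-!
# T9, block FIN9: the final loads (helper76)
-/

set_option autoImplicit false

namespace Pool.TCT

open Pool.TC Pool.TCM Pool.TCS Finset
open scoped Classical

theorem FLd_KU {V ι : Type} [Fintype V] (K : ι → Finset V) (v : V) :
    v ∈ KU K ↔ ∃ i, v ∈ K i := by
  unfold KU
  rw [mem_filter]
  simp

theorem thm_FLd : St_FLd := by
  intro V κ ι _ _ _ G D B N K Q C Y Ld Qa c α g h9 hp hop hcf
  have hgC : ∀ u, u ∉ C → g u ∈ C := fun u hu => by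
    obtain ⟨i, h⟩ := hop u hu
    exact (h9.yC _ h.wY).1
  have hginj : ∀ u u', u ∉ C → u' ∉ C → g u = g u' → u = u' := by
    intro u u' hu hu' h
    by_contra hne
    exact hcf u u' hu hu' hne ⟨hne, Or.inl h⟩
  have hc1 : ∀ u, u ∉ C → cF C c α g u = c (g u) := by
    intro u hu
    unfold cF
    rw [if_pos hu]
  have hc2 : ∀ u, u ∉ C → cF C c α g (g u) = α u := by
    intro u hu
    have hex : ∃ u', u' ∉ C ∧ g u' = g u := ⟨u, hu, rfl⟩
    unfold cF
    rw [if_neg (not_not.2 (hgC u hu)), dif_pos hex]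
    rw [hginj _ _ hex.choose_spec.1 hu hex.choose_spec.2]
  have hc3 : ∀ v, v ∈ C → (¬ ∃ u, u ∉ C ∧ g u = v) → cF C c α g v = c v := by
    intro v hv h
    unfold cF
    rw [if_neg (not_not.2 hv), dif_neg h]
  -- the new ones
  set nw : V → Finset V := fun v => (KU K).filter (fun x => N (cF C c α g x) x = v ∧
    (x ∉ C ∨ ∃ u, u ∉ C ∧ g u = x)) with hnw
  have hsplit : ∀ v, load N (KU K) (cF C c α g) v ≤ load N (KU K ∩ C) c v + (nw v).card := by
    intro v
    unfold load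
    refine le_trans (card_le_card ?_) (card_union_le _ _)
    intro x hx
    rw [mem_filter] at hx
    rw [mem_union, mem_filter, hnw, mem_filter, mem_inter]
    by_cases hxC : x ∈ C
    · by_cases hex : ∃ u, u ∉ C ∧ g u = x
      · exact Or.inr ⟨hx.1, hx.2, Or.inr hex⟩
      · left
        refine ⟨⟨hx.1, hxC⟩, ?_⟩
        rw [← hc3 x hxC hex]
        exact hx.2
    · exact Or.inr ⟨hx.1, hx.2, Or.inl hxC⟩
  have hone : ∀ v, (nw v).card ≤ 1 := by
    intro v
    rw [card_le_one]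
    intro x hx y hy
    rw [hnw, mem_filter] at hx hy
    obtain ⟨-, hxv, hx⟩ := hx
    obtain ⟨-, hyv, hy⟩ := hy
    have hmix : ∀ x u', x ∉ C → u' ∉ C → N (cF C c α g x) x = v →
        N (cF C c α g (g u')) (g u') = v → False := by
      intro x u' hx hu' h1 h2
      rw [hc1 x hx] at h1
      rw [hc2 u' hu'] at h2
      by_cases hxu : x = u'
      · subst hxu
        obtain ⟨i, hi⟩ := hop x hx
        exact hi.o5 (h1.trans h2.symm)
      · exact hcf x u' hx hu' hxu ⟨hxu, Or.inr (Or.inr (Or.inr (Or.inl (h1.trans h2.symm))))⟩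
    rcases hx with hx | ⟨u, hu, rfl⟩
    · rcases hy with hy | ⟨u', hu', rfl⟩
      · by_contra hne
        rw [hc1 x hx] at hxv
        rw [hc1 y hy] at hyv
        exact hcf x y hx hy hne ⟨hne, Or.inr (Or.inl (hxv.trans hyv.symm))⟩
      · exact (hmix x u' hx hu' hxv hyv).elim
    · rcases hy with hy | ⟨u', hu', rfl⟩
      · exact (hmix y u hy hu hyv hxv).elim
      · by_cases huu : u = u'
        · rw [huu]
        · rw [hc2 u hu] at hxv
          rw [hc2 u' hu'] at hyv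
          exact (hcf u u' hu hu' huu ⟨huu, Or.inr (Or.inr (Or.inl (hxv.trans hyv.symm)))⟩).elim
  have hin : ∀ v, ∀ x ∈ nw v, v ∈ KU K ∧ v ∉ Ld := by
    intro v x hx
    rw [hnw, mem_filter] at hx
    obtain ⟨-, hxv, hx⟩ := hx
    rcases hx with hx | ⟨u, hu, rfl⟩
    · rw [hc1 x hx] at hxv
      obtain ⟨i, hi⟩ := hop x hx
      rw [← hxv]
      refine ⟨?_, hi.o2.2⟩
      exact (FLd_KU K _).2 ⟨i, hi.o2.1⟩
    · rw [hc2 u hu] at hxv
      obtain ⟨i, hi⟩ := hop u hu
      rw [← hxv]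
      refine ⟨?_, hi.o4.2⟩
      exact (FLd_KU K _).2 ⟨i, hi.o4.1⟩
  refine ⟨fun v => (hsplit v).trans (Nat.add_le_add_left (hone v) _), fun v hv => ?_⟩
  have h0 : nw v = ∅ := by
    rw [eq_empty_iff_forall_notMem]
    intro x hx
    obtain ⟨h1, h2⟩ := hin v x hx
    exact hv.elim (fun h => h h1) h2
  have h1 := hsplit v
  rw [h0, card_empty] at h1
  exact h1

end Pool.TCT
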