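import Pool.Agent.Helper60.TCT.StD

/-!
# FPR: the final colouring is proper
-/

set_option autoImplicit false

namespace Pool.TCT

open Pool.TC Pool.TCM Pool.TCS Finset
open scoped Classical

theorem thm_FPr : St_FPr := by
  intro V κ ι _ _ _ G D B N K Q C Y Ld Qa c α g h hp hop hcf
  have ginj : ∀ u u', u ∉ C → u' ∉ C → g u = g u' → u = u' := by
    intro u u' hu hu' he
    by_contra hne
    exact hcf u u' hu hu' hne ⟨hne, Or.inl he⟩
  have gC : ∀ u, u ∉ C → g u ∈ C := by
    intro u hu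
    obtain ⟨i, o⟩ := hop u hu
    exact (h.yC _ o.wY).1
  have fU : ∀ u, u ∉ C → cF C c α g u = c (g u) := by
    intro u hu
    unfold cF
    rw [if_pos hu]
  have fW : ∀ u, u ∉ C → cF C c α g (g u) = α u := by
    intro u hu
    have h1 : ∃ u', u' ∉ C ∧ g u' = g u := ⟨u, hu, rfl⟩
    unfold cF
    rw [if_neg (fun hh => hh (gC u hu)), dif_pos h1]
    congr 1
    exact ginj _ _ h1.choose_spec.1 hu h1.choose_spec.2
  have fO : ∀ v, v ∈ C → (¬ ∃ u, u ∉ C ∧ g u = v) → cF C c α g v = c v := by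
    intro v hv hn
    unfold cF
    rw [if_neg (fun hh => hh hv), dif_neg hn]
  refine ⟨?_, ?_⟩
  · intro v hv
    refine fO v ?_ ?_
    · by_contra hvC
      obtain ⟨i, hi⟩ := h.cov v hvC
      exact hv i hi
    · rintro ⟨u, hu, rfl⟩
      obtain ⟨i, o⟩ := hop u hu
      exact hv i o.wK
  have UO : ∀ x y, G.Adj x y → x ∉ C → y ∈ C → (¬ ∃ u, u ∉ C ∧ g u = y) → c y ≠ c (g x) := by
    intro x y hxy hx hy hn
    obtain ⟨i, o⟩ := hop x hx
    by_cases hyK : y ∈ K i
    · exact h.yne i (g x) o.wY o.wK y hyK hy (fun he => hn ⟨x, hx, he.symm⟩)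
    · exact o.o1 y hy hxy hyK
  have WO : ∀ u y, G.Adj (g u) y → u ∉ C → y ∈ C → c y ≠ α u := by
    intro u y hxy hu hy
    obtain ⟨i, o⟩ := hop u hu
    by_cases hyK : y ∈ K i
    · exact (h.qne i (α u) (hp.mem i u o.uK hu)).2 y hyK hy
    · exact o.o3 y hy hxy hyK
  have UW : ∀ x u, x ∉ C → u ∉ C → c (g x) ≠ α u := by
    intro x u hx hu he
    obtain ⟨i, o⟩ := hop x hx
    obtain ⟨j, o'⟩ := hop u hu
    refine (h.yC _ o.wY).2.1 ?_
    rw [he]
    exact (h.qne j (α u) (hp.mem j u o'.uK hu)).1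
  have UU : ∀ x y, G.Adj x y → x ∉ C → y ∉ C → c (g x) ≠ c (g y) := by
    intro x y hxy hx hy he
    obtain ⟨i, o⟩ := hop x hx
    obtain ⟨j, o'⟩ := hop y hy
    by_cases hyK : y ∈ K i
    · have hij : j = i := h.kdec.disj j i y o'.uK hyK
      subst hij
      exact h.yne j (g y) o'.wY o'.wK (g x) o.wK (gC x hx)
        (fun hh => hxy.ne (ginj x y hx hy hh)) he
    · refine hcf x y hx hy hxy.ne ⟨hxy.ne, ?_⟩
      refine Or.inr (Or.inr (Or.inr (Or.inr (Or.inr (Or.inl ⟨hxy, ?_, he⟩)))))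
      intro i' hi'
      have hii : i' = i := h.kdec.disj i' i x hi' o.uK
      subst hii
      exact hyK
  have WW : ∀ u u', G.Adj (g u) (g u') → u ∉ C → u' ∉ C → α u ≠ α u' := by
    intro u u' hxy hu hu' he
    obtain ⟨i, o⟩ := hop u hu
    obtain ⟨j, o'⟩ := hop u' hu'
    have hne : u ≠ u' := by
      rintro rfl
      exact hxy.ne rfl
    by_cases hyK : g u' ∈ K i
    · have hij : j = i := h.kdec.disj j i (g u') o'.wK hyK
      subst hij
      exact hne (hp.inj j u o.uK u' o'.uK hu hu' he)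
    · refine hcf u u' hu hu' hne ⟨hne, ?_⟩
      refine Or.inr (Or.inr (Or.inr (Or.inr (Or.inr (Or.inr ⟨hxy, ?_, he⟩)))))
      intro i' hi'
      have hii : i' = i := h.kdec.disj i' i (g u) hi' o.wK
      subst hii
      exact hyK
  intro x y hxy
  by_cases hx : x ∈ C
  · by_cases hx2 : ∃ u, u ∉ C ∧ g u = x
    · obtain ⟨u, hu, rfl⟩ := hx2
      rw [fW u hu]
      by_cases hy : y ∈ C
      · by_cases hy2 : ∃ u, u ∉ C ∧ g u = y
        · obtain ⟨u', hu', rfl⟩ := hy2
          rw [fW u' hu']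
          exact WW u u' hxy hu hu'
        · rw [fO y hy hy2]
          exact (WO u y hxy hu hy).symm
      · rw [fU y hy]
        exact (UW y u hy hu).symm
    · rw [fO x hx hx2]
      by_cases hy : y ∈ C
      · by_cases hy2 : ∃ u, u ∉ C ∧ g u = y
        · obtain ⟨u', hu', rfl⟩ := hy2
          rw [fW u' hu']
          exact WO u' x hxy.symm hu' hx
        · rw [fO y hy hy2]
          exact h.prp x hx y hy hxy
      · rw [fU y hy]
        exact UO y x hxy.symm hy hx hx2
  · rw [fU x hx]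
    by_cases hy : y ∈ C
    · by_cases hy2 : ∃ u, u ∉ C ∧ g u = y
      · obtain ⟨u', hu', rfl⟩ := hy2
        rw [fW u' hu']
        exact UW x u' hx hu'
      · rw [fO y hy hy2]
        exact (UO x y hxy hx hy hy2).symm
    · rw [fU y hy]
      exact UU x y hxy hx hy

end Pool.TCT
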