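import Pool.Agent.Helper60.TCT.StD

set_option autoImplicit false

namespace Pool.TCT

open Pool.TC Pool.TCM Pool.TCS Finset
open scoped Classical

theorem thm_Fin9 (hPaiF : St_PaiF) (hTrF : St_TrF) (hFPr : St_FPr) (hFLd : St_FLd) : St_Fin9 := by
  intro V κ ι _ _ _ G D B N K Q C Y Ld Qa c h1 h2 h3 h4 h5 h6 h7 h8 h9 h10 h11 h12 h13
  have H : H9 G D B N K Q C Y Ld Qa c := ⟨h1, h2, h3, h4, h5, h6, h7, h8, h9, h10, h11, h12, h13⟩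
  obtain ⟨α, hα⟩ := hPaiF V κ ι G D B N K Q C Y Ld Qa c H
  obtain ⟨g, hg, hg'⟩ := hTrF V κ ι G D B N K Q C Y Ld Qa c α H hα
  obtain ⟨a1, a2⟩ := hFPr V κ ι G D B N K Q C Y Ld Qa c α g H hα hg hg'
  obtain ⟨b1, b2⟩ := hFLd V κ ι G D B N K Q C Y Ld Qa c α g H hα hg hg'
  exact ⟨cF C c α g, a1, a2, b1, b2⟩

end Pool.TCT
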