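import Pool.Agent.Helper60.TCT.StB

/-!
# FRC: the integral matching of the problem colours to right vertices and dummies
-/

set_option autoImplicit false

namespace Pool.TCT

open Pool.TC Pool.TCM Pool.TCS Finset
open scoped Classical

theorem Frc_sum_inv {V κ : Type} [Fintype V] (N : κ → V → V)
    (inv : ∀ a u, N a (N a u) = u) (a : κ) (T : Finset V) (x : ℝ) :
    ∑ v, (if N a v ∈ T then x else 0) = T.card * x := by
  have h := Equiv.sum_comp (Function.Involutive.toPerm (N a) (inv a))
    (fun v => if v ∈ T then x else 0)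
  have h2 : ∑ v, (if v ∈ T then x else 0) = T.card * x := by
    rw [← Finset.sum_filter, Finset.sum_const, nsmul_eq_mul]
    simp
  rw [← h2, ← h]
  rfl

theorem thm_Frc (hPbC : St_PbC) (hHallB : St_HallB) (hDum : St_Dum) (hLoa : St_Loa) : St_Frc := by
  intro V κ ι _ _ _ G D B N K Q c Pv lam On lb hN hK hS hB hBD hL
  have hD : 0 < D := by omega
  have hDr : (0 : ℝ) < D := by exact_mod_cast hD
  rcases isEmpty_or_nonempty ι with hι | hι
  · refine ⟨fun i => isEmptyElim i, fun i => isEmptyElim i, fun v => ?_, fun v _ => ?_,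
      fun i => isEmptyElim i⟩ <;> simp
  let P : ι → Finset κ := fun i => Pb G D N K Pv c i
  let T : ι → κ → Finset V := fun i a => On.filter (fun w => w ∈ K i ∧ lb w = a)
  let va : ι → κ → ℝ := fun i a => min 1 (12500 * (B : ℝ) * (T i a).card / D)
  have hva0 : ∀ i a, 0 ≤ va i a := fun i a => le_min zero_le_one (by positivity)
  have hva1 : ∀ i a, va i a ≤ 1 := fun i a => min_le_left _ _
  let y : ι × κ → V ⊕ ι → ℝ := fun p r => Sum.elim
    (fun v => if N p.2 v ∈ T p.1 p.2 then va p.1 p.2 / (T p.1 p.2).card else 0)
    (fun j => if j = p.1 then 1 - va p.1 p.2 else 0) r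
  let cap : V ⊕ ι → ℕ := Sum.elim (fun v => if (∃ i, v ∈ K i) ∨
    D < 2 * ((nb G v).filter (fun u => ∀ i, u ∉ K i)).card then 1 else 2) lam
  let A : Finset (ι × κ) := univ.filter (fun p => p.2 ∈ P p.1)
  have hy0 : ∀ l r, 0 ≤ y l r := by
    intro l r
    rcases r with v | j
    · show 0 ≤ (if N l.2 v ∈ T l.1 l.2 then va l.1 l.2 / (T l.1 l.2).card else 0)
      split_ifs
      · exact div_nonneg (hva0 _ _) (Nat.cast_nonneg _)
      · exact le_rfl
    · show 0 ≤ (if j = l.1 then 1 - va l.1 l.2 else 0)
      split_ifs
      · linarith [hva1 l.1 l.2]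
      · exact le_rfl
  have hy1 : ∀ l ∈ A, ∑ r, y l r = 1 := by
    intro l _
    rw [Fintype.sum_sum_type]
    have h1 : ∑ v, y l (Sum.inl v) = va l.1 l.2 := by
      show ∑ v, (if N l.2 v ∈ T l.1 l.2 then va l.1 l.2 / (T l.1 l.2).card else 0) = _
      rw [Frc_sum_inv N hN.inv]
      by_cases h0 : (T l.1 l.2).card = 0
      · have h2 : va l.1 l.2 = 0 := by
          show min 1 (12500 * (B : ℝ) * (T l.1 l.2).card / D) = 0
          rw [h0]
          simp
        rw [h0, h2]
        simp
      · have h2 : ((T l.1 l.2).card : ℝ) ≠ 0 := by exact_mod_cast h0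
        field_simp
    have h2 : ∑ j, y l (Sum.inr j) = 1 - va l.1 l.2 := by
      show ∑ j, (if j = l.1 then 1 - va l.1 l.2 else 0) = _
      rw [Finset.sum_ite_eq']
      simp
    rw [h1, h2]
    ring
  have hcap : ∀ r, ∑ l ∈ A, y l r ≤ cap r := by
    intro r
    rcases r with v | j
    · -- a right vertex
      have h1 : ∑ l ∈ A, y l (Sum.inl v) ≤
          12500 * (B : ℝ) / D * (On.filter (fun w => N (lb w) w = v)).card := by
        calc ∑ l ∈ A, y l (Sum.inl v) ≤
              ∑ l ∈ A, (if N l.2 v ∈ T l.1 l.2 then 12500 * (B : ℝ) / D else 0) := by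
              refine Finset.sum_le_sum fun l _ => ?_
              show (if N l.2 v ∈ T l.1 l.2 then va l.1 l.2 / (T l.1 l.2).card else 0) ≤ _
              split_ifs with h
              · have h2 : 0 < ((T l.1 l.2).card : ℝ) := by
                  exact_mod_cast Finset.card_pos.2 ⟨_, h⟩
                rw [div_le_iff₀ h2]
                refine (min_le_right _ _).trans (le_of_eq ?_)
                ring
              · exact le_rfl
          _ = 12500 * (B : ℝ) / D * (A.filter (fun l => N l.2 v ∈ T l.1 l.2)).card := by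
              rw [← Finset.sum_filter, Finset.sum_const, nsmul_eq_mul]
              ring
          _ ≤ _ := by
              refine mul_le_mul_of_nonneg_left ?_ (by positivity)
              refine Nat.cast_le.2 (Finset.card_le_card_of_injOn (fun l => N l.2 v) ?_ ?_)
              · intro l hl
                have hl2 := (Finset.mem_filter.1 (Finset.mem_coe.1 hl)).2
                have hl3 := Finset.mem_filter.1 hl2
                refine Finset.mem_coe.2 (Finset.mem_filter.2 ⟨hl3.1, ?_⟩)
                rw [hl3.2.2]
                exact hN.inv _ _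
              · intro l hl l' hl' he
                have he' : N l.2 v = N l'.2 v := he
                have hl3 := Finset.mem_filter.1 (Finset.mem_filter.1 (Finset.mem_coe.1 hl)).2
                have hl3' := Finset.mem_filter.1 (Finset.mem_filter.1 (Finset.mem_coe.1 hl')).2
                have e1 : l.1 = l'.1 := by
                  refine hK.disj _ _ _ hl3.2.1 ?_
                  rw [he']
                  exact hl3'.2.1
                have e2 : l.2 = l'.2 := by
                  rw [← hl3.2.2, ← hl3'.2.2, he']
                exact Prod.ext e1 e2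
      obtain ⟨h2, h3⟩ := hLoa V κ ι G D B N K Q c Pv lam On lb hN hK hS hB hBD hL v
      show _ ≤ (((if (∃ i, v ∈ K i) ∨
        D < 2 * ((nb G v).filter (fun u => ∀ i, u ∉ K i)).card then 1 else 2 : ℕ)) : ℝ)
      refine h1.trans ?_
      rw [div_mul_eq_mul_div, div_le_iff₀ hDr]
      split_ifs with h
      · have h4 : ((12500 * B * (On.filter (fun w => N (lb w) w = v)).card : ℕ) : ℝ) ≤ D := by
          exact_mod_cast h3 h
        push_cast at h4 ⊢
        linarith
      · have h4 : ((12500 * B * (On.filter (fun w => N (lb w) w = v)).card : ℕ) : ℝ) ≤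
            ((2 * D : ℕ) : ℝ) := by
          exact_mod_cast h2
        push_cast at h4 ⊢
        linarith
    · -- a dummy
      have h1 : ∑ l ∈ A, y l (Sum.inr j) = ∑ a ∈ P j, (1 - va j a) := by
        show ∑ l ∈ univ.filter (fun p : ι × κ => p.2 ∈ P p.1),
          (if j = l.1 then 1 - va l.1 l.2 else 0) = _
        rw [Finset.sum_filter, Fintype.sum_prod_type, Finset.sum_eq_single j]
        · show ∑ a, (if a ∈ P j then (if j = j then 1 - va j a else 0) else 0) = _
          simp
        · intro i _ hi
          refine Finset.sum_eq_zero fun a _ => ?_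
          show (if a ∈ P i then (if j = i then 1 - va i a else 0) else 0) = 0
          have h2 : ¬ j = i := fun h => hi h.symm
          simp [h2]
        · intro h
          exact absurd (Finset.mem_univ j) h
      rw [h1]
      obtain ⟨-, -, h2, h3, h4, h5⟩ := hPbC V κ ι G D B N K Q c Pv lam hN hK hS hB hBD j
      refine hDum κ (P j) (fun a => (Wa G K Pv c j a).card) (fun a => (T j a).card)
        (K j \ Pv).card D B (lam j) hD hB (by omega) (by omega) ?_ (hL.t1 j) (hL.t2 j)
        (hL.t3 j) h3
      intro a _
      exact Finset.card_le_card (Finset.filter_subset _ _)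
  obtain ⟨f, hf1, hf2'⟩ := hHallB (ι × κ) (V ⊕ ι) A y cap hy0 hy1 hcap
  have hf2 : ∀ r, (A.filter (fun l => f l = r)).card ≤ cap r := by
    intro r
    refine le_trans (le_of_eq ?_) (hf2' r)
    congr 1
    ext p
    simp only [Finset.mem_filter]
  have hA : ∀ v, ((univ : Finset (ι × κ)).filter (fun p => p.2 ∈ Pb G D N K Pv c p.1 ∧
      f (p.1, p.2) = Sum.inl v)).card ≤ cap (Sum.inl v) := by
    intro v
    refine le_trans (le_of_eq ?_) (hf2 (Sum.inl v))
    congr 1
    ext p
    simp only [Finset.mem_filter, Finset.mem_univ, true_and, A, P]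
  refine ⟨fun i a => f (i, a), ?_, ?_, ?_, ?_⟩
  · intro i a ha
    have h1 := hf1 (i, a) (Finset.mem_filter.2 ⟨Finset.mem_univ _, ha⟩)
    rcases hf : f (i, a) with v | j
    · left
      rw [hf] at h1
      have h2 : N a v ∈ T i a := by
        by_contra h
        have h3 : y (i, a) (Sum.inl v) = 0 := if_neg h
        rw [h3] at h1
        exact lt_irrefl _ h1
      have h3 := Finset.mem_filter.1 h2
      exact ⟨v, hf, h3.1, h3.2.1, h3.2.2⟩
    · right
      rw [hf] at h1
      have h2 : j = i := by
        by_contra h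
        have h3 : y (i, a) (Sum.inr j) = 0 := if_neg h
        rw [h3] at h1
        exact lt_irrefl _ h1
      exact hf.trans (by rw [h2])
  · intro v
    refine (hA v).trans ?_
    show (if (∃ i, v ∈ K i) ∨
      D < 2 * ((nb G v).filter (fun u => ∀ i, u ∉ K i)).card then 1 else 2) ≤ 2
    split_ifs
    · exact one_le_two
    · exact le_rfl
  · intro v hv
    refine (hA v).trans (le_of_eq ?_)
    exact if_pos hv
  · intro i
    refine le_trans ?_ (hf2 (Sum.inr i))
    refine Finset.card_le_card_of_injOn (fun a => (i, a)) ?_ ?_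
    · intro a ha
      have ha' := Finset.mem_filter.1 (Finset.mem_coe.1 ha)
      refine Finset.mem_coe.2 (Finset.mem_filter.2 ⟨Finset.mem_filter.2
        ⟨Finset.mem_univ _, ha'.1⟩, ha'.2⟩)
    · intro a _ b _ h
      exact (Prod.ext_iff.1 h).2

end Pool.TCT
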