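import Pool.Agent.Helper60.TCT.StB

/-!
# T9, block PRB: Hall's theorem with capacities from a fractional matching (helper9)
-/

set_option autoImplicit false

namespace Pool.TCT

open Pool.TC Pool.TCM Pool.TCS Finset
open scoped Classical

theorem thm_HallB : St_HallB := by
  intro L R _ _ _ A y cap hy hsum hcap
  let O : {l // l ∈ A} → Finset (R × ℕ) := fun l =>
    (univ.filter (fun r => 0 < y l.1 r)).biUnion (fun r => ({r} : Finset R) ×ˢ range (cap r))
  have hO : ∀ l p, p ∈ O l ↔ 0 < y l.1 p.1 ∧ p.2 < cap p.1 := by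
    intro l p
    constructor
    · intro h
      obtain ⟨r, hr, hp⟩ := mem_biUnion.1 h
      obtain ⟨h1, h2⟩ := mem_product.1 hp
      have h3 : p.1 = r := mem_singleton.1 h1
      rw [h3]
      exact ⟨(mem_filter.1 hr).2, mem_range.1 h2⟩
    · rintro ⟨h1, h2⟩
      exact mem_biUnion.2 ⟨p.1, mem_filter.2 ⟨mem_univ _, h1⟩,
        mem_product.2 ⟨mem_singleton_self _, mem_range.2 h2⟩⟩
  have hall : ∀ s : Finset {l // l ∈ A}, s.card ≤ (s.biUnion O).card := by
    intro s
    let R' : Finset R := univ.filter (fun r => ∃ l ∈ s, 0 < y l.1 r)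
    have h1 : s.biUnion O = R'.biUnion (fun r => ({r} : Finset R) ×ˢ range (cap r)) := by
      ext p
      constructor
      · intro h
        obtain ⟨l, hl, hp⟩ := mem_biUnion.1 h
        obtain ⟨h2, h3⟩ := (hO l p).1 hp
        exact mem_biUnion.2 ⟨p.1, mem_filter.2 ⟨mem_univ _, l, hl, h2⟩,
          mem_product.2 ⟨mem_singleton_self _, mem_range.2 h3⟩⟩
      · intro h
        obtain ⟨r, hr, hp⟩ := mem_biUnion.1 h
        obtain ⟨h2, h3⟩ := mem_product.1 hp
        have h4 : p.1 = r := mem_singleton.1 h2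
        subst h4
        obtain ⟨-, l, hl, h5⟩ := mem_filter.1 hr
        exact mem_biUnion.2 ⟨l, hl, (hO l p).2 ⟨h5, mem_range.1 h3⟩⟩
    have h2 : (s.biUnion O).card = ∑ r ∈ R', cap r := by
      rw [h1, card_biUnion]
      · refine sum_congr rfl fun r _ => ?_
        rw [card_product, card_singleton, card_range, one_mul]
      · intro a _ b _ hab
        refine disjoint_left.2 fun p hp hq => hab ?_
        rw [← mem_singleton.1 (mem_product.1 hp).1, ← mem_singleton.1 (mem_product.1 hq).1]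
    have h3 : (s.card : ℝ) ≤ ∑ r ∈ R', (cap r : ℝ) := by
      calc (s.card : ℝ) = ∑ l ∈ s, ∑ r, y l.1 r := by
            rw [sum_congr rfl (fun l _ => hsum l.1 l.2)]
            simp
        _ = ∑ r, ∑ l ∈ s, y l.1 r := sum_comm
        _ = ∑ r ∈ R', ∑ l ∈ s, y l.1 r := by
            symm
            refine sum_subset (subset_univ _) fun r _ hr => sum_eq_zero fun l hl => ?_
            have h4 : ¬ 0 < y l.1 r := fun h => hr (mem_filter.2 ⟨mem_univ _, l, hl, h⟩)
            exact le_antisymm (not_lt.1 h4) (hy _ _)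
        _ ≤ ∑ r ∈ R', ∑ l ∈ A, y l r := by
            refine sum_le_sum fun r _ => ?_
            have h5 : ∑ l ∈ s, y l.1 r = ∑ l ∈ s.map (Function.Embedding.subtype _), y l r := by
              rw [sum_map]
              rfl
            rw [h5]
            refine sum_le_sum_of_subset_of_nonneg (fun l hl => ?_) (fun _ _ _ => hy _ _)
            obtain ⟨l', -, rfl⟩ := mem_map.1 hl
            exact l'.2
        _ ≤ _ := sum_le_sum fun r _ => hcap r
    rw [h2]
    exact_mod_cast h3
  obtain ⟨g, hg, hgO⟩ := (all_card_le_biUnion_card_iff_exists_injective O).1 hall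
  have hg' : ∀ l, 0 < y l.1 (g l).1 ∧ (g l).2 < cap (g l).1 := fun l => (hO l (g l)).1 (hgO l)
  let f : L → R := fun l => if h : l ∈ A then (g ⟨l, h⟩).1 else Classical.arbitrary R
  have hf : ∀ l (h : l ∈ A), f l = (g ⟨l, h⟩).1 := fun l h => dif_pos h
  refine ⟨f, fun l hl => ?_, fun r => ?_⟩
  · rw [hf l hl]
    exact (hg' ⟨l, hl⟩).1
  · let k : L → ℕ := fun l => if h : l ∈ A then (g ⟨l, h⟩).2 else 0
    have hk : ∀ l (h : l ∈ A), k l = (g ⟨l, h⟩).2 := fun l h => dif_pos h
    have h6 : (A.filter (fun l => f l = r)).card ≤ (range (cap r)).card := by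
      refine card_le_card_of_injOn k (fun l hl => ?_) ?_
      · obtain ⟨hl1, hl2⟩ := mem_filter.1 (mem_coe.1 hl)
        rw [hf l hl1] at hl2
        refine mem_coe.2 (mem_range.2 ?_)
        rw [hk l hl1, ← hl2]
        exact (hg' ⟨l, hl1⟩).2
      · intro l hl l' hl' hll
        obtain ⟨hl1, hl2⟩ := mem_filter.1 (mem_coe.1 hl)
        obtain ⟨hl3, hl4⟩ := mem_filter.1 (mem_coe.1 hl')
        rw [hf l hl1] at hl2
        rw [hf l' hl3] at hl4
        have h7 : (g ⟨l, hl1⟩).2 = (g ⟨l', hl3⟩).2 := by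
          have h8 : k l = k l' := hll
          rwa [hk l hl1, hk l' hl3] at h8
        have h9 : g ⟨l, hl1⟩ = g ⟨l', hl3⟩ := Prod.ext (hl2.trans hl4.symm) h7
        exact congrArg Subtype.val (hg h9)
    rwa [card_range] at h6

end Pool.TCT
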