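import Pool.Agent.Helper60.TCT.StB

/-!
# T9, KSZ: sizes of the near-cliques
-/

set_option autoImplicit false

namespace Pool.TCT

open Pool.TC Pool.TCM Pool.TCS Finset
open scoped Classical

theorem KSz_cnb {V κ : Type} [Fintype V] [Fintype κ] {G : SimpleGraph V} {D : ℕ}
    {N : κ → V → V} (hL : Lat G D N) (w : V) : (insert w (nb G w)).card = D + 1 := by
  rw [Finset.card_insert_of_notMem, hL.deg w]
  intro hu
  simp [nb] at hu

theorem thm_KSz : St_KSz := by
  intro V κ ι _ _ G D B N K hL hK i
  obtain ⟨w, hw⟩ := hK.ne i
  have h1 := KSz_cnb hL w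
  constructor
  · have h2 : K i ⊆ insert w (nb G w) ∪ (K i \ insert w (nb G w)) := by
      intro x hx
      by_cases h : x ∈ insert w (nb G w)
      · exact Finset.mem_union_left _ h
      · exact Finset.mem_union_right _ (Finset.mem_sdiff.2 ⟨hx, h⟩)
    have h3 := (Finset.card_le_card h2).trans (Finset.card_union_le _ _)
    have h4 := hK.inn i w hw
    omega
  · have h2 : insert w (nb G w) ⊆ K i ∪ (nb G w \ K i) := by
      intro x hx
      by_cases h : x ∈ K i
      · exact Finset.mem_union_left _ h
      · rcases Finset.mem_insert.1 hx with h' | h'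
        · rw [h'] at h
          exact absurd hw h
        · exact Finset.mem_union_right _ (Finset.mem_sdiff.2 ⟨h', h⟩)
    have h3 := (Finset.card_le_card h2).trans (Finset.card_union_le _ _)
    have h4 := hK.out i w hw
    omega

end Pool.TCT
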