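import Pool.Agent.Helper60.TCT.StB

/-!
# T9, LLK: the local lemma for events attached to near-cliques and to vertices
-/

set_option autoImplicit false

namespace Pool.TCT

open Pool.TC Pool.TCM Pool.TCS Finset
open scoped Classical

section LLK

variable {V ι : Type} [Fintype V]

/-- the coordinates on which an event depends -/
private noncomputable def LLK_S {κ : Type} (G : SimpleGraph V) (K : ι → Finset V) :
    (ι × κ × Fin 5) ⊕ V → Finset V
  | Sum.inl t => (K t.1).biUnion (fun w => insert w (nb G w))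
  | Sum.inr v => insert v (nb G v)

private theorem LLK_mem_nb (G : SimpleGraph V) (u v : V) : v ∈ nb G u ↔ G.Adj u v := by
  simp [nb]

private theorem LLK_ins (G : SimpleGraph V) {D : ℕ} (hdeg : ∀ u, (nb G u).card = D) (v : V) :
    (insert v (nb G v)).card ≤ D + 1 := by
  refine (Finset.card_insert_le _ _).trans ?_
  rw [hdeg]

private theorem LLK_idx [Fintype ι] (G : SimpleGraph V) {D B : ℕ} {K : ι → Finset V}
    (hdeg : ∀ u, (nb G u).card = D) (hK : Dec G B K) (x : V) :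
    ((univ : Finset ι).filter (fun i => x ∈ (K i).biUnion (fun w => insert w (nb G w)))).card ≤
      D + 1 := by
  refine le_trans ?_ (LLK_ins G hdeg x)
  have h : ∀ i ∈ (univ : Finset ι).filter
      (fun i => x ∈ (K i).biUnion (fun w => insert w (nb G w))),
      ∃ w, w ∈ K i ∧ w ∈ insert x (nb G x) := by
    intro i hi
    obtain ⟨w, hw, hx⟩ := Finset.mem_biUnion.1 (Finset.mem_filter.1 hi).2
    refine ⟨w, hw, ?_⟩
    rcases Finset.mem_insert.1 hx with h | h
    · rw [h]; exact Finset.mem_insert_self _ _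
    · exact Finset.mem_insert_of_mem ((LLK_mem_nb G x w).2 ((LLK_mem_nb G w x).1 h).symm)
  have : Nonempty V := ⟨x⟩
  choose! f hf1 hf2 using h
  refine Finset.card_le_card_of_injOn f (fun i hi => hf2 i hi) ?_
  intro i hi j hj hij
  have h1 := hf1 i hi
  have h2 := hf1 j hj
  rw [← hij] at h2
  exact hK.disj i j _ h1 h2

private theorem LLK_cov {κ : Type} [Fintype κ] [Fintype ι] (G : SimpleGraph V) {D B : ℕ}
    {K : ι → Finset V} (hdeg : ∀ u, (nb G u).card = D) (hcard : Fintype.card κ = D + 1)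
    (hK : Dec G B K) (x : V) :
    ((univ : Finset ((ι × κ × Fin 5) ⊕ V)).filter (fun j => x ∈ LLK_S G K j)).card ≤
      6 * (D + 1) ^ 2 := by
  have hsub : (univ : Finset ((ι × κ × Fin 5) ⊕ V)).filter (fun j => x ∈ LLK_S G K j) ⊆
      ((((univ : Finset ι).filter
        (fun i => x ∈ (K i).biUnion (fun w => insert w (nb G w)))) ×ˢ
        ((univ : Finset κ) ×ˢ (univ : Finset (Fin 5)))).image Sum.inl) ∪
      ((insert x (nb G x)).image Sum.inr) := by
    intro j hj
    have hj' := (Finset.mem_filter.1 hj).2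
    rcases j with ⟨i, a, k⟩ | v
    · refine Finset.mem_union_left _ (Finset.mem_image.2 ⟨(i, a, k), ?_, rfl⟩)
      refine Finset.mem_product.2 ⟨Finset.mem_filter.2 ⟨Finset.mem_univ _, hj'⟩, ?_⟩
      exact Finset.mem_product.2 ⟨Finset.mem_univ _, Finset.mem_univ _⟩
    · refine Finset.mem_union_right _ (Finset.mem_image.2 ⟨v, ?_, rfl⟩)
      have hj'' : x ∈ insert v (nb G v) := hj'
      rcases Finset.mem_insert.1 hj'' with h | h
      · rw [h]; exact Finset.mem_insert_self _ _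
      · exact Finset.mem_insert_of_mem ((LLK_mem_nb G x v).2 ((LLK_mem_nb G v x).1 h).symm)
  refine (Finset.card_le_card hsub).trans ((Finset.card_union_le _ _).trans ?_)
  have h1 := Finset.card_image_le (s := (((univ : Finset ι).filter
        (fun i => x ∈ (K i).biUnion (fun w => insert w (nb G w)))) ×ˢ
        ((univ : Finset κ) ×ˢ (univ : Finset (Fin 5))))) (f := (Sum.inl : _ → (ι × κ × Fin 5) ⊕ V))
  have h2 := Finset.card_image_le (s := insert x (nb G x)) (f := (Sum.inr : _ → (ι × κ × Fin 5) ⊕ V))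
  have h3 := LLK_idx G hdeg hK x
  have h4 := LLK_ins G hdeg x
  rw [Finset.card_product, Finset.card_product, Finset.card_univ, Finset.card_univ, hcard,
    Fintype.card_fin] at h1
  have h5 := Nat.mul_le_mul_right ((D + 1) * 5) h3
  have h6 : D + 1 ≤ (D + 1) ^ 2 := by nlinarith
  nlinarith

private theorem LLK_sz {κ : Type} (G : SimpleGraph V) {D B : ℕ}
    {K : ι → Finset V} (hdeg : ∀ u, (nb G u).card = D) (hBD : B ≤ D)
    (hsz : ∀ i, (K i).card ≤ D + 1 + B) (j : (ι × κ × Fin 5) ⊕ V) :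
    (LLK_S G K j).card ≤ 2 * (D + 1) ^ 2 := by
  rcases j with ⟨i, a, k⟩ | v
  · have h1 : ((K i).biUnion (fun w => insert w (nb G w))).card ≤ (K i).card * (D + 1) :=
      Finset.card_biUnion_le_card_mul _ _ _ (fun w _ => LLK_ins G hdeg w)
    have h2 := Nat.mul_le_mul_right (D + 1) (hsz i)
    have h3 : (D + 1 + B) * (D + 1) ≤ (2 * (D + 1)) * (D + 1) :=
      Nat.mul_le_mul_right _ (by omega)
    have h4 : LLK_S G K (Sum.inl (i, a, k)) = (K i).biUnion (fun w => insert w (nb G w)) := rfl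
    rw [h4]
    calc _ ≤ _ := h1
      _ ≤ _ := h2
      _ ≤ _ := h3
      _ = 2 * (D + 1) ^ 2 := by ring
  · have h1 := LLK_ins G hdeg v
    have h4 : LLK_S G K (Sum.inr v : (ι × κ × Fin 5) ⊕ V) = insert v (nb G v) := rfl
    rw [h4]
    nlinarith

private theorem LLK_nbh {κ : Type} [Fintype κ] [Fintype ι] (G : SimpleGraph V) {D B : ℕ}
    {K : ι → Finset V} (hdeg : ∀ u, (nb G u).card = D) (hcard : Fintype.card κ = D + 1)
    (hK : Dec G B K) (hBD : B ≤ D) (hsz : ∀ i, (K i).card ≤ D + 1 + B)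
    (j : (ι × κ × Fin 5) ⊕ V) :
    ((univ : Finset ((ι × κ × Fin 5) ⊕ V)).filter
      (fun j' => ∃ t, t ∈ LLK_S G K j ∧ t ∈ LLK_S G K j')).card ≤ 12 * (D + 1) ^ 4 := by
  have hsub : (univ : Finset ((ι × κ × Fin 5) ⊕ V)).filter
      (fun j' => ∃ t, t ∈ LLK_S G K j ∧ t ∈ LLK_S G K j') ⊆
      (LLK_S G K j).biUnion (fun t => (univ : Finset ((ι × κ × Fin 5) ⊕ V)).filter
        (fun j' => t ∈ LLK_S G K j')) := by
    intro j' hj'
    obtain ⟨t, ht, ht'⟩ := (Finset.mem_filter.1 hj').2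
    exact Finset.mem_biUnion.2 ⟨t, ht, Finset.mem_filter.2 ⟨Finset.mem_univ _, ht'⟩⟩
  refine (Finset.card_le_card hsub).trans ?_
  refine (Finset.card_biUnion_le_card_mul _ _ _
    (fun t _ => LLK_cov G hdeg hcard hK t)).trans ?_
  refine (Nat.mul_le_mul_right _ (LLK_sz G hdeg hBD hsz j)).trans (le_of_eq ?_)
  ring

end LLK

theorem thm_LLK (hLLL : Pool.TCS.St_LLL0) (hKSz : St_KSz) : St_LLK := by
  intro V κ ι A _ _ _ _ _ G D B N K Lam Ev Ev' hLat hDec hBD hexp hloc hloc' hpr hpr'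
  have hsz : ∀ i, (K i).card ≤ D + 1 + B := fun i => (hKSz V κ ι G D B N K hLat hDec i).1
  have key := hLLL V A ((ι × κ × Fin 5) ⊕ V)
    (fun j ω => match j with
      | Sum.inl t => Ev t.1 t.2.1 t.2.2 ω
      | Sum.inr v => Ev' v ω)
    (LLK_S G K) (2 * Real.exp (-Lam)) (12 * (D + 1) ^ 4) ?_ ?_ ?_ ?_ ?_
  · obtain ⟨ω, hω⟩ := key
    exact ⟨ω, fun i a k => hω (Sum.inl (i, a, k)), fun v => hω (Sum.inr v)⟩
  · intro j ω ω' h
    rcases j with ⟨i, a, k⟩ | v
    · refine hloc i a k ω ω' ?_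
      intro w hw x hx
      refine h x (Finset.mem_biUnion.2 ⟨w, hw, ?_⟩)
      rcases hx with hx | hx
      · rw [hx]; exact Finset.mem_insert_self _ _
      · exact Finset.mem_insert_of_mem ((LLK_mem_nb G w x).2 hx)
    · refine hloc' v ω ω' ?_
      intro x hx
      refine h x ?_
      have : x ∈ insert v (nb G v) := by
        rcases hx with hx | hx
        · rw [hx]; exact Finset.mem_insert_self _ _
        · exact Finset.mem_insert_of_mem ((LLK_mem_nb G v x).2 hx)
      exact this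
  · intro j
    rcases j with ⟨i, a, k⟩ | v
    · exact hpr i a k
    · exact hpr' v
  · intro j
    exact LLK_nbh G hLat.deg hLat.card hDec hBD hsz j
  · positivity
  · have h1 : ((12 * (D + 1) ^ 4 : ℕ) : ℝ) ≤ ((D : ℝ) + 2) ^ 20 := by
      have hD : (0 : ℝ) ≤ D := Nat.cast_nonneg D
      have h2 : ((D : ℝ) + 1) ^ 4 ≤ ((D : ℝ) + 2) ^ 4 :=
        pow_le_pow_left₀ (by linarith) (by linarith) 4
      have h3 : (12 : ℝ) ≤ ((D : ℝ) + 2) ^ 16 := by
        have : (2 : ℝ) ^ 16 ≤ ((D : ℝ) + 2) ^ 16 := pow_le_pow_left₀ (by norm_num) (by linarith) 16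
        have h5 : (12 : ℝ) ≤ 2 ^ 16 := by norm_num
        linarith
      push_cast
      calc 12 * ((D : ℝ) + 1) ^ 4 ≤ ((D : ℝ) + 2) ^ 16 * ((D : ℝ) + 2) ^ 4 :=
            mul_le_mul h3 h2 (by positivity) (by positivity)
        _ = ((D : ℝ) + 2) ^ 20 := by ring
    have h4 : 8 * Real.exp (-Lam) * (((12 * (D + 1) ^ 4 : ℕ) : ℝ) + 1) ≤
        8 * Real.exp (-Lam) * (((D : ℝ) + 2) ^ 20 + 1) :=
      mul_le_mul_of_nonneg_left (by linarith) (by positivity)
    calc 4 * (2 * Real.exp (-Lam)) * (((12 * (D + 1) ^ 4 : ℕ) : ℝ) + 1)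
        = 8 * Real.exp (-Lam) * (((12 * (D + 1) ^ 4 : ℕ) : ℝ) + 1) := by ring
      _ ≤ _ := h4
      _ ≤ 1 := hexp

end Pool.TCT
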