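import Pool.Agent.Helper60.TCT.StB

/-!
# T9, block LAB: assembly of the random labels (helper31)
-/

set_option autoImplicit false
set_option linter.unusedSectionVars false

namespace Pool.TCT

open Pool.TC Pool.TCM Pool.TCS Finset
open scoped Classical

section aux

variable {V κ ι A : Type} [Fintype V] [Fintype κ]

theorem Lab_mem_PP [Fintype A] {G : SimpleGraph V} {D : ℕ} {N : κ → V → V} {K : ι → Finset V}
    {Pv : Finset V} {c : V → κ} {dec : V → A → Option κ} (h : Dcd G D N K Pv c dec) {w : V}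
    {b : A} {a : κ} (hb : dec w b = some a) :
    ∃ i, w ∈ K i ∧ w ∉ Pv ∧ a ∈ Pb G D N K Pv c i := by
  have h1 := h w a
  have h2 : a ∈ PP G D N K Pv c w := by
    by_contra h3
    rw [if_neg h3, card_eq_zero] at h1
    have h4 : b ∈ (univ.filter (fun b => dec w b = some a)) := mem_filter.2 ⟨mem_univ _, hb⟩
    rw [h1] at h4
    exact notMem_empty _ h4
  unfold PP at h2
  exact (mem_filter.1 h2).2

theorem Lab_mem_On {G : SimpleGraph V} {K : ι → Finset V} {Pv : Finset V} {c : V → κ}
    {dec : V → A → Option κ} {ω : V → A} {w : V} : w ∈ On G K Pv c dec ω ↔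
      ∃ a, dec w (ω w) = some a ∧ ¬ blk G K Pv c a w ∧
        ∀ x, G.Adj w x → (∀ i, w ∈ K i → x ∉ K i) → dec x (ω x) ≠ some a := by
  unfold On
  rw [mem_filter]
  exact ⟨fun h => h.2, fun h => ⟨mem_univ _, h⟩⟩

theorem Lab_On {G : SimpleGraph V} {K : ι → Finset V} {Pv : Finset V} {c : V → κ}
    {dec : V → A → Option κ} {ω : V → A} {w : V} (h : w ∈ On G K Pv c dec ω) :
    dec w (ω w) = some (Lb c dec ω w) ∧ ¬ blk G K Pv c (Lb c dec ω w) w ∧
      ∀ x, G.Adj w x → (∀ i, w ∈ K i → x ∉ K i) → dec x (ω x) ≠ some (Lb c dec ω w) := by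
  obtain ⟨a, h1, h2, h3⟩ := Lab_mem_On.1 h
  have h4 : Lb c dec ω w = a := by
    unfold Lb
    rw [h1]
    rfl
  rw [h4]
  exact ⟨h1, h2, h3⟩

/-- locality of the labels -/
theorem Lab_loc {G : SimpleGraph V} {K : ι → Finset V} {Pv : Finset V} {c : V → κ}
    {dec : V → A → Option κ} {ω ω' : V → A} {w : V}
    (h : ∀ x, (x = w ∨ G.Adj w x) → ω x = ω' x) :
    (w ∈ On G K Pv c dec ω → w ∈ On G K Pv c dec ω') ∧ Lb c dec ω w = Lb c dec ω' w := by
  have hw := h w (Or.inl rfl)
  constructor
  · intro h1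
    obtain ⟨a, h2, h3, h4⟩ := Lab_mem_On.1 h1
    refine Lab_mem_On.2 ⟨a, by rw [← hw]; exact h2, h3, fun x hx hK => ?_⟩
    rw [← h x (Or.inr hx)]
    exact h4 x hx hK
  · unfold Lb
    rw [hw]

theorem Lab_filter {G : SimpleGraph V} {K : ι → Finset V} {Pv : Finset V} {c : V → κ}
    {dec : V → A → Option κ} {ω ω' : V → A} {i : ι}
    (h : ∀ w ∈ K i, ∀ x, (x = w ∨ G.Adj w x) → ω x = ω' x) (a : κ) :
    ((On G K Pv c dec ω).filter (fun w => w ∈ K i ∧ Lb c dec ω w = a)) =
      ((On G K Pv c dec ω').filter (fun w => w ∈ K i ∧ Lb c dec ω' w = a)) := by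
  ext w
  rw [mem_filter, mem_filter]
  constructor
  · rintro ⟨h1, h2, h3⟩
    have h4 := Lab_loc (K := K) (Pv := Pv) (c := c) (dec := dec) (h w h2)
    exact ⟨h4.1 h1, h2, h4.2.symm.trans h3⟩
  · rintro ⟨h1, h2, h3⟩
    have h4 := Lab_loc (K := K) (Pv := Pv) (c := c) (dec := dec)
      (fun x hx => (h w h2 x hx).symm)
    exact ⟨h4.1 h1, h2, h4.2.symm.trans h3⟩

/-- the events -/
def Lab_Ev (G : SimpleGraph V) (D B : ℕ) (N : κ → V → V) (K : ι → Finset V) (Pv : Finset V)
    (c : V → κ) (dec : V → A → Option κ) (i : ι) (a : κ) (k : Fin 5) (ω : V → A) : Prop :=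
  match k with
  | 0 => a ∈ Pb G D N K Pv c i ∧ (K i \ Pv).card ≤ 4 * (Wa G K Pv c i a).card ∧
      10000 * (B : ℝ) * ∑ a' ∈ ({a} : Finset κ),
        (((On G K Pv c dec ω).filter (fun w => w ∈ K i ∧ Lb c dec ω w = a')).card : ℝ) <
      99 / 100 * ∑ a' ∈ ({a} : Finset κ), ((Wa G K Pv c i a').card : ℝ)
  | 1 => (K i \ Pv).card ≤ 50 * ∑ a ∈ (Pb G D N K Pv c i).filter (fun a =>
      4 * (Wa G K Pv c i a).card < (K i \ Pv).card), (Wa G K Pv c i a).card ∧
      10000 * (B : ℝ) * ∑ a' ∈ (Pb G D N K Pv c i).filter (fun a =>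
          4 * (Wa G K Pv c i a).card < (K i \ Pv).card),
        (((On G K Pv c dec ω).filter (fun w => w ∈ K i ∧ Lb c dec ω w = a')).card : ℝ) <
      99 / 100 * ∑ a' ∈ (Pb G D N K Pv c i).filter (fun a =>
          4 * (Wa G K Pv c i a).card < (K i \ Pv).card), ((Wa G K Pv c i a').card : ℝ)
  | 2 => ((Wa G K Pv c i a).card : ℝ) + (D : ℝ) / 10 <
      10000 * (B : ℝ) * ((Wa G K Pv c i a).filter (fun w => dec w (ω w) = some a)).card
  | 3 => D < 2000 * ((K i).filter (fun w => ∃ x, x ∉ K i ∧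
      G.Adj w x ∧ dec x (ω x) = some a)).card
  | 4 => D < 2000 * ((K i).filter (fun v => ∃ x a, x ∉ K i ∧
      dec x (ω x) = some a ∧ N a x = v)).card

end aux

/-- LAB. The random labels. -/
theorem thm_Lab (hPbC : St_PbC) (hDcx : St_Dcx) (hLowP : St_LowP) (hUpp3 : St_Upp3)
    (hUpp4 : St_Upp4) (hUpp5 : St_Upp5) (hUpp6 : St_Upp6) (hLLK : St_LLK) : St_Lab := by
  intro V κ ι _ _ _ G D B N K Q c Pv lam Lam hLat hDec hSta hB hL1 hBD hExp
  have hB1 : (1 : ℝ) ≤ B := by exact_mod_cast hB
  have hB6 : 10 ^ 6 * B ≤ D := by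
    have h1 : (10 : ℝ) ^ 6 * B ≤ D := by
      have h2 : (B : ℝ) * 1 ≤ B * Lam := mul_le_mul_of_nonneg_left hL1 (by linarith)
      nlinarith
    exact_mod_cast h1
  obtain ⟨dec, hdec⟩ := hDcx V κ ι G D B N K Q c Pv lam hLat hDec hSta hB hB6
  have hne : Nonempty (Fin (10000 * B)) := ⟨⟨0, by omega⟩⟩
  have hLt : Ltt G D B N K Q c Pv lam Lam dec :=
    { lat := hLat
      kdec := hDec
      sta := hSta
      B0 := hB
      L1 := hL1
      BD := hBD
      cA := Fintype.card_fin _
      dcd := hdec }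
  have hPb := hPbC V κ ι G D B N K Q c Pv lam hLat hDec hSta hB hB6
  have hpos : (0 : ℝ) ≤ Real.exp (-Lam) * Fintype.card (V → Fin (10000 * B)) := by positivity
  have hadjN : ∀ a x v, N a x = v → x ≠ v → G.Adj v x := by
    intro a x v h1 h2
    have h3 := hLat.sub a x (by rw [h1]; exact fun h => h2 h.symm)
    rw [h1] at h3
    exact h3.symm
  obtain ⟨ω, hω, hω'⟩ := hLLK V κ ι (Fin (10000 * B)) G D B N K Lam
    (Lab_Ev G D B N K Pv c dec)
    (fun v ω => ((univ.filter (fun w => ∃ i, w ∈ K i ∧ w ∉ Pv ∧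
      ∃ a ∈ Pb G D N K Pv c i, N a w = v)).card : ℝ) + (D : ℝ) / 10 <
        10000 * (B : ℝ) * (univ.filter (fun w => ∃ a, dec w (ω w) = some a ∧ N a w = v)).card)
    hLat hDec (by omega) hExp
    (by
      intro i a k ω ω' h
      match k with
      | 0 =>
        rintro ⟨h1, h2, h3⟩
        refine ⟨h1, h2, ?_⟩
        refine lt_of_le_of_lt (le_of_eq ?_) h3
        refine congrArg _ (sum_congr rfl fun a' _ => ?_)
        rw [Lab_filter h a']
      | 1 =>
        rintro ⟨h1, h2⟩
        refine ⟨h1, ?_⟩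
        refine lt_of_le_of_lt (le_of_eq ?_) h2
        refine congrArg _ (sum_congr rfl fun a' _ => ?_)
        rw [Lab_filter h a']
      | 2 =>
        intro h1
        have h2 : (Wa G K Pv c i a).filter (fun w => dec w (ω' w) = some a) =
            (Wa G K Pv c i a).filter (fun w => dec w (ω w) = some a) := by
          refine filter_congr fun w hw => ?_
          have h3 : w ∈ K i := by
            unfold Wa at hw
            exact (mem_sdiff.1 (mem_filter.1 hw).1).1
          rw [h w h3 w (Or.inl rfl)]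
        show _ < _
        rw [h2]
        exact h1
      | 3 =>
        intro h1
        have h2 : (K i).filter (fun w => ∃ x, x ∉ K i ∧ G.Adj w x ∧ dec x (ω' x) = some a) =
            (K i).filter (fun w => ∃ x, x ∉ K i ∧ G.Adj w x ∧ dec x (ω x) = some a) := by
          refine filter_congr fun w hw => ?_
          refine exists_congr fun x => and_congr_right fun _ => and_congr_right fun h4 => ?_
          rw [h w hw x (Or.inr h4)]
        show _ < _
        rw [h2]
        exact h1
      | 4 =>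
        intro h1
        have h2 : (K i).filter (fun v => ∃ x a, x ∉ K i ∧ dec x (ω' x) = some a ∧ N a x = v) =
            (K i).filter (fun v => ∃ x a, x ∉ K i ∧ dec x (ω x) = some a ∧ N a x = v) := by
          refine filter_congr fun v hv => ?_
          refine exists_congr fun x => exists_congr fun a => and_congr_right fun hx => ?_
          constructor
          · rintro ⟨h3, h4⟩
            have h5 := hadjN a x v h4 (fun h6 => hx (h6 ▸ hv))
            exact ⟨by rw [h v hv x (Or.inr h5)]; exact h3, h4⟩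
          · rintro ⟨h3, h4⟩
            have h5 := hadjN a x v h4 (fun h6 => hx (h6 ▸ hv))
            exact ⟨by rw [← h v hv x (Or.inr h5)]; exact h3, h4⟩
        show _ < _
        rw [h2]
        exact h1)
    (by
      intro v ω ω' h h1
      have h2 : (univ.filter (fun w => ∃ a, dec w (ω' w) = some a ∧ N a w = v)) =
          (univ.filter (fun w => ∃ a, dec w (ω w) = some a ∧ N a w = v)) := by
        refine filter_congr fun w _ => ?_
        refine exists_congr fun a => ?_
        have h3 : N a w = v → ω w = ω' w := by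
          intro h4
          by_cases h5 : w = v
          · exact h w (Or.inl h5)
          · exact h w (Or.inr (hadjN a w v h4 h5))
        constructor
        · rintro ⟨h4, h5⟩
          exact ⟨by rw [h3 h5]; exact h4, h5⟩
        · rintro ⟨h4, h5⟩
          exact ⟨by rw [← h3 h5]; exact h4, h5⟩
      show _ < _
      rw [h2]
      exact h1)
    (by
      intro i a k
      have hmain : ∀ (E : (V → Fin (10000 * B)) → Prop) [DecidablePred E] (c1 : Prop),
          (c1 → ((univ.filter E).card : ℝ) ≤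
            2 * Real.exp (-Lam) * Fintype.card (V → Fin (10000 * B))) →
          (∀ ω, Lab_Ev G D B N K Pv c dec i a k ω → c1 ∧ E ω) →
          ((univ.filter (fun ω => Lab_Ev G D B N K Pv c dec i a k ω)).card : ℝ) ≤
            2 * Real.exp (-Lam) * Fintype.card (V → Fin (10000 * B)) := by
        intro E _ c1 h1 h2
        by_cases h3 : c1
        · refine le_trans ?_ (h1 h3)
          exact_mod_cast card_le_card fun ω hω =>
            mem_filter.2 ⟨mem_univ _, (h2 ω (mem_filter.1 hω).2).2⟩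
        · have h4 : (univ.filter (fun ω => Lab_Ev G D B N K Pv c dec i a k ω)) = ∅ := by
            rw [filter_eq_empty_iff]
            exact fun ω _ h5 => h3 (h2 ω h5).1
          rw [h4, card_empty, Nat.cast_zero]
          linarith
      match k with
      | 0 =>
        refine hmain _ (a ∈ Pb G D N K Pv c i ∧
          (K i \ Pv).card ≤ 4 * (Wa G K Pv c i a).card) (fun h1 => ?_)
          (fun ω hω => ⟨⟨hω.1, hω.2.1⟩, hω.2.2⟩)
        refine hLowP V κ ι (Fin (10000 * B)) G D B N K Q c Pv lam Lam dec hLt i {a}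
          (singleton_subset_iff.2 h1.1) ?_
        rw [sum_singleton]
        have h2 := (hPb i).2.2.2.2.1
        have h3 := h1.2
        omega
      | 1 =>
        refine hmain _ ((K i \ Pv).card ≤ 50 * ∑ a ∈ (Pb G D N K Pv c i).filter (fun a =>
          4 * (Wa G K Pv c i a).card < (K i \ Pv).card), (Wa G K Pv c i a).card)
          (fun h1 => ?_) (fun ω hω => ⟨hω.1, hω.2⟩)
        refine hLowP V κ ι (Fin (10000 * B)) G D B N K Q c Pv lam Lam dec hLt i _
          (filter_subset _ _) ?_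
        have h2 := (hPb i).2.2.2.2.1
        omega
      | 2 =>
        refine hmain _ True (fun _ => ?_) (fun ω hω => ⟨trivial, hω⟩)
        refine (hUpp3 V κ ι (Fin (10000 * B)) G D B N K Q c Pv lam Lam dec hLt i a).trans ?_
        linarith
      | 3 =>
        refine hmain (fun ω => D < 2000 * ((K i).filter (fun w => ∃ x, x ∉ K i ∧
          G.Adj w x ∧ dec x (ω x) = some a)).card) True (fun _ => ?_) (fun ω hω => ⟨trivial, hω⟩)
        refine (hUpp5 V κ ι (Fin (10000 * B)) G D B N K Q c Pv lam Lam dec hLt i a).trans ?_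
        linarith
      | 4 =>
        refine hmain (fun ω => D < 2000 * ((K i).filter (fun v => ∃ x a, x ∉ K i ∧
          dec x (ω x) = some a ∧ N a x = v)).card) True (fun _ => ?_)
          (fun ω hω => ⟨trivial, hω⟩)
        refine (hUpp6 V κ ι (Fin (10000 * B)) G D B N K Q c Pv lam Lam dec hLt i).trans ?_
        linarith)
    (by
      intro v
      refine (hUpp4 V κ ι (Fin (10000 * B)) G D B N K Q c Pv lam Lam dec hLt v).trans ?_
      linarith)
  have hκ : Nonempty κ := by
    rw [← Fintype.card_pos_iff, hLat.card]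
    omega
  obtain ⟨a0⟩ := hκ
  -- the properties of the labelled vertices
  have hlab : ∀ w ∈ On G K Pv c dec ω, w ∉ Pv ∧ (∃ i, w ∈ K i) ∧
      ∀ i, w ∈ K i → Lb c dec ω w ∈ Pb G D N K Pv c i := by
    intro w hw
    obtain ⟨j, h1, h2, h3⟩ := Lab_mem_PP hdec (Lab_On hw).1
    refine ⟨h2, ⟨j, h1⟩, fun i hi => ?_⟩
    rw [hDec.disj i j w hi h1]
    exact h3
  refine ⟨On G K Pv c dec ω, Lb c dec ω,
    { row := fun w hw => ⟨(hlab w hw).1, (hlab w hw).2.1⟩
      lab := fun w hw => (hlab w hw).2.2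
      unb := fun w hw => (Lab_On hw).2.1
      cross := ?_
      t1 := ?_
      t2 := ?_
      t3 := ?_
      t4 := ?_
      t5 := ?_
      t6 := ?_ }⟩
  · intro w hw x hx i hwi hxi hwx h
    have h1 := (Lab_On hw).2.2 x hwx (fun j hj => by rw [hDec.disj j i w hj hwi]; exact hxi)
    rw [h] at h1
    exact h1 (Lab_On hx).1
  · intro i a ha hn
    have h1 : ¬ _ := hω i a 0
    by_contra h2
    refine h1 ⟨ha, hn, ?_⟩
    rw [sum_singleton, sum_singleton]
    exact not_le.1 h2
  · intro i hn
    have h1 : ¬ _ := hω i a0 1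
    by_contra h2
    exact h1 ⟨hn, not_le.1 h2⟩
  · intro i a ha
    have h1 : ¬ _ := hω i a 2
    have h2 : 10000 * (B : ℝ) * ((Wa G K Pv c i a).filter
        (fun w => dec w (ω w) = some a)).card ≤ ((Wa G K Pv c i a).card : ℝ) + (D : ℝ) / 10 :=
      not_lt.1 h1
    refine le_trans (mul_le_mul_of_nonneg_left ?_ (by positivity)) h2
    have h3 : (On G K Pv c dec ω).filter (fun w => w ∈ K i ∧ Lb c dec ω w = a) ⊆
        (Wa G K Pv c i a).filter (fun w => dec w (ω w) = some a) := by
      intro w hw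
      obtain ⟨h4, h5, h6⟩ := mem_filter.1 hw
      have h7 := Lab_On h4
      rw [h6] at h7
      rw [mem_filter]
      refine ⟨?_, h7.1⟩
      unfold Wa
      rw [mem_filter, mem_sdiff]
      exact ⟨⟨h5, (hlab w h4).1⟩, h7.2.1⟩
    exact_mod_cast card_le_card h3
  · intro v
    have h1 : ¬ _ := hω' v
    have h2 := not_lt.1 h1
    refine le_trans (le_trans (mul_le_mul_of_nonneg_left ?_ (by positivity)) h2)
      (add_le_add ?_ le_rfl)
    · refine Nat.cast_le.2 (card_le_card ?_)
      intro w hw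
      obtain ⟨h4, h5⟩ := mem_filter.1 hw
      exact mem_filter.2 ⟨mem_univ _, _, (Lab_On h4).1, h5⟩
    · refine Nat.cast_le.2 (card_le_card ?_)
      intro w hw
      exact (@mem_filter _ _ (_) _ _).2 ((@mem_filter _ _ (_) _ _).1 hw)
  · intro i a
    have h1 : ¬ _ := hω i a 3
    have h2 := not_lt.1 h1
    refine le_trans (Nat.mul_le_mul_left _ (card_le_card ?_)) h2
    intro w hw
    obtain ⟨h4, x, hx, h5, h6, h7⟩ := mem_filter.1 hw
    refine mem_filter.2 ⟨h4, x, h5, h6, ?_⟩
    rw [← h7]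
    exact (Lab_On hx).1
  · intro i
    have h1 : ¬ _ := hω i a0 4
    have h2 := not_lt.1 h1
    refine le_trans (Nat.mul_le_mul_left _ (card_le_card ?_)) h2
    intro v hv
    obtain ⟨h4, x, hx, h5, h6⟩ := mem_filter.1 hv
    exact mem_filter.2 ⟨h4, x, Lb c dec ω x, h5, (Lab_On hx).1, h6⟩

end Pool.TCT
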