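import Pool.Agent.Helper60.TCT.StB

/-!
# T9, LOA: the loads of the right vertices
-/

set_option autoImplicit false

namespace Pool.TCT

open Pool.TC Pool.TCM Pool.TCS Finset
open scoped Classical

private theorem Loa_mem {V : Type} [Fintype V] (G : SimpleGraph V) (u v : V) :
    v ∈ nb G u ↔ G.Adj u v := by
  simp [nb]

private theorem Loa_t4 {V κ ι : Type} [Fintype V] [Fintype κ] {G : SimpleGraph V} {D B : ℕ}
    {N : κ → V → V} {K : ι → Finset V} {c : V → κ} {Pv On : Finset V} {lb : V → κ}
    (h : Labl G D B N K c Pv On lb) (v : V) : ∃ M : Finset V,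
    (∀ w, w ∈ M ↔ ∃ i, w ∈ K i ∧ w ∉ Pv ∧ ∃ a ∈ Pb G D N K Pv c i, N a w = v) ∧
    10000 * (B : ℝ) * ((On.filter (fun w => N (lb w) w = v)).card : ℝ) ≤
      (M.card : ℝ) + (D : ℝ) / 10 := by
  refine ⟨_, ?_, h.t4 v⟩
  intro w
  rw [Finset.mem_filter]
  exact ⟨fun h => h.2, fun h => ⟨Finset.mem_univ _, h⟩⟩

theorem thm_Loa (hPbC : St_PbC) : St_Loa := by
  intro V κ ι _ _ _ G D B N K Q c Pv lam On lb hL hK hS hB hD hLb v
  obtain ⟨M, hM, ht4⟩ := Loa_t4 hLb v
  set n := (On.filter (fun w => N (lb w) w = v)).card with hn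
  have hnat : 100000 * (B * n) ≤ 10 * M.card + D := by
    have h1 : (100000 * ((B : ℝ) * n)) ≤ 10 * M.card + D := by
      have h2 : 10000 * (B : ℝ) * (n : ℝ) ≤ (M.card : ℝ) + (D : ℝ) / 10 := ht4
      linarith
    exact_mod_cast h1
  have hMv : ∀ w ∈ M, w = v ∨ w ∈ nb G v := by
    intro w hw
    rw [hM] at hw
    obtain ⟨i, _, _, a, _, ha⟩ := hw
    by_cases hwv : w = v
    · exact Or.inl hwv
    · right
      have h1 : N a v = w := by
        rw [← ha]
        exact hL.inv a w
      rw [Loa_mem, ← h1]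
      apply hL.sub
      rw [h1]
      exact hwv
  have hms : ∀ S : Finset V, S ⊆ nb G v → (∀ w ∈ M, w ∉ S) → M.card + S.card ≤ D + 1 := by
    intro S hSn hMS
    have h1 : M ∪ S ⊆ insert v (nb G v) := by
      intro w hw
      rcases Finset.mem_union.1 hw with h | h
      · exact Finset.mem_insert.2 (hMv w h)
      · exact Finset.mem_insert_of_mem (hSn h)
    have h2 : Disjoint M S := Finset.disjoint_left.2 hMS
    have h3 := Finset.card_le_card h1
    rw [Finset.card_union_of_disjoint h2] at h3
    have h4 := Finset.card_insert_le v (nb G v)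
    rw [hL.deg v] at h4
    omega
  have hm0 : M.card ≤ D + 1 := by
    have h1 := hms ∅ (Finset.empty_subset _) (fun w _ => Finset.notMem_empty w)
    rw [Finset.card_empty] at h1
    omega
  have e1 : 12500 * B * n = 12500 * (B * n) := by ring
  rw [e1]
  refine ⟨by omega, ?_⟩
  rintro (⟨j, hj⟩ | hs)
  · have h1 : M ⊆ (Pb G D N K Pv c j).image (fun a => N a v) ∪ (nb G v \ K j) := by
      intro w hw
      have hwv := hMv w hw
      rw [hM] at hw
      obtain ⟨i, hi, _, a, ha, hav⟩ := hw
      rw [Finset.mem_union]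
      by_cases hwj : w ∈ K j
      · left
        have hij := hK.disj i j w hi hwj
        rw [Finset.mem_image]
        refine ⟨a, ?_, ?_⟩
        · rw [hij] at ha
          exact ha
        · rw [← hav]
          exact hL.inv a w
      · right
        rw [Finset.mem_sdiff]
        refine ⟨?_, hwj⟩
        rcases hwv with h | h
        · rw [h] at hwj
          exact absurd hj hwj
        · exact h
    have h2 := (Finset.card_le_card h1).trans (Finset.card_union_le _ _)
    have h3 := (hPbC V κ ι G D B N K Q c Pv lam hL hK hS hB hD j).2.2.1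
    have h4 := hK.out j v hj
    have h5 := Finset.card_image_le (s := Pb G D N K Pv c j) (f := fun a => N a v)
    omega
  · have h1 := hms ((nb G v).filter (fun u => ∀ i, u ∉ K i)) (Finset.filter_subset _ _) (by
      intro w hw hw2
      rw [hM] at hw
      obtain ⟨i, hi, _⟩ := hw
      exact (Finset.mem_filter.1 hw2).2 i hi)
    omega

end Pool.TCT
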