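import Pool.Agent.Helper60.TCT.StB

/-!
# LOWP: the lower bounds (t1), (t2)
-/

set_option autoImplicit false

namespace Pool.TCT

open Pool.TC Pool.TCM Pool.TCS Finset
open scoped Classical

section

variable {V κ ι A : Type} [Fintype V] [Fintype κ] [Fintype A] {G : SimpleGraph V} {D : ℕ}
  {N : κ → V → V} {K : ι → Finset V} {Pv : Finset V} {c : V → κ} {dec : V → A → Option κ}

theorem LowP_memPP {w : V} {a : κ} : a ∈ PP G D N K Pv c w ↔
    ∃ i, w ∈ K i ∧ w ∉ Pv ∧ a ∈ Pb G D N K Pv c i := by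
  unfold PP
  rw [Finset.mem_filter]
  exact ⟨fun h => h.2, fun h => ⟨Finset.mem_univ _, h⟩⟩

omit [Fintype A] [Fintype κ] in
theorem LowP_memOn {ω : V → A} {w : V} : w ∈ On G K Pv c dec ω ↔
    ∃ a, dec w (ω w) = some a ∧ ¬ blk G K Pv c a w ∧
      ∀ x, G.Adj w x → (∀ i, w ∈ K i → x ∉ K i) → dec x (ω x) ≠ some a := by
  unfold On
  rw [Finset.mem_filter]
  exact ⟨fun h => h.2, fun h => ⟨Finset.mem_univ _, h⟩⟩

/-- a letter which means a colour means a possible label -/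
theorem LowP_pp (h : Dcd G D N K Pv c dec) {w : V} {a : κ} {b : A} (hb : dec w b = some a) :
    a ∈ PP G D N K Pv c w := by
  by_contra hcon
  have h1 := h w a
  rw [if_neg hcon, Finset.card_eq_zero, Finset.filter_eq_empty_iff] at h1
  exact h1 (Finset.mem_univ b) hb

theorem LowP_uniq (h : Dcd G D N K Pv c dec) {w : V} {a : κ} {b b' : A}
    (hb : dec w b = some a) (hb' : dec w b' = some a) : b = b' := by
  have h1 := h w a
  rw [if_pos (LowP_pp h hb)] at h1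
  exact Finset.card_le_one.1 h1.le b (Finset.mem_filter.2 ⟨Finset.mem_univ _, hb⟩) b'
    (Finset.mem_filter.2 ⟨Finset.mem_univ _, hb'⟩)

theorem LowP_ex (h : Dcd G D N K Pv c dec) {w : V} {a : κ} (ha : a ∈ PP G D N K Pv c w) :
    ∃ b, dec w b = some a := by
  have h1 := h w a
  rw [if_pos ha] at h1
  obtain ⟨b, hb⟩ := Finset.card_pos.1 (Nat.lt_of_lt_of_eq Nat.one_pos h1.symm)
  exact ⟨b, (Finset.mem_filter.1 hb).2⟩

end

theorem thm_LowP (hThin : St_Thin) : St_LowP := by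
  intro V κ ι A _ _ _ _ _ G D B N K Q c Pv lam Lam dec H i F hF hD
  have hdcd := H.dcd
  have hWaK : ∀ a w, w ∈ Wa G K Pv c i a → w ∈ K i ∧ w ∉ Pv ∧ ¬ blk G K Pv c a w := by
    intro a w hw
    unfold Wa at hw
    rw [Finset.mem_filter, Finset.mem_sdiff] at hw
    exact ⟨hw.1.1, hw.1.2, hw.2⟩
  have hPP : ∀ a ∈ F, ∀ w ∈ Wa G K Pv c i a, a ∈ PP G D N K Pv c w := by
    intro a ha w hw
    obtain ⟨h1, h2, -⟩ := hWaK a w hw
    exact LowP_memPP.2 ⟨i, h1, h2, hF ha⟩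
  obtain ⟨W, hW⟩ : ∃ W : Finset (V × A), ∀ p, p ∈ W ↔
      ∃ a ∈ F, dec p.1 p.2 = some a ∧ p.1 ∈ Wa G K Pv c i a :=
    ⟨univ.filter (fun p => ∃ a ∈ F, dec p.1 p.2 = some a ∧ p.1 ∈ Wa G K Pv c i a), fun p => by
      rw [Finset.mem_filter]
      exact ⟨fun h => h.2, fun h => ⟨Finset.mem_univ _, h⟩⟩⟩
  obtain ⟨gd, hgd⟩ : ∃ gd : V × A → V × A → Prop, ∀ p q, gd p q ↔
      ∃ a, dec p.1 p.2 = some a ∧ dec q.1 q.2 = some a ∧ G.Adj p.1 q.1 ∧
        ∀ j, p.1 ∈ K j → q.1 ∉ K j :=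
    ⟨fun p q => ∃ a, dec p.1 p.2 = some a ∧ dec q.1 q.2 = some a ∧ G.Adj p.1 q.1 ∧
        ∀ j, p.1 ∈ K j → q.1 ∉ K j, fun p q => Iff.rfl⟩
  have hWcard : W.card = ∑ a ∈ F, (Wa G K Pv c i a).card := by
    rw [← Finset.card_sigma]
    symm
    have hch : ∀ x : (Σ _ : κ, V), ∃ b : A, x ∈ F.sigma (fun a => Wa G K Pv c i a) →
        dec x.2 b = some x.1 := by
      intro x
      by_cases hx : x ∈ F.sigma (fun a => Wa G K Pv c i a)
      · have hx' := Finset.mem_sigma.1 hx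
        obtain ⟨b, hb⟩ := LowP_ex hdcd (hPP x.1 hx'.1 x.2 hx'.2)
        exact ⟨b, fun _ => hb⟩
      · exact ⟨Classical.arbitrary A, fun h => absurd h hx⟩
    choose bb hbb using hch
    refine Finset.card_bij (fun x _ => (x.2, bb x)) ?_ ?_ ?_
    · intro x hx
      rw [hW]
      have hx' := Finset.mem_sigma.1 hx
      exact ⟨x.1, hx'.1, hbb x hx, hx'.2⟩
    · intro x hx y hy hxy
      have h1 : x.2 = y.2 := congrArg Prod.fst hxy
      have h2 : bb x = bb y := congrArg Prod.snd hxy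
      have h3 := hbb x hx
      have h4 := hbb y hy
      rw [h1, h2, h4] at h3
      exact Sigma.ext (Option.some.inj h3).symm (heq_of_eq h1)
    · intro p hp
      rw [hW] at hp
      obtain ⟨a, ha, h1, h2⟩ := hp
      have h0 : (⟨a, p.1⟩ : (Σ _ : κ, V)) ∈ F.sigma (fun a => Wa G K Pv c i a) :=
        Finset.mem_sigma.2 ⟨ha, h2⟩
      exact ⟨⟨a, p.1⟩, h0, Prod.ext rfl (LowP_uniq hdcd (hbb ⟨a, p.1⟩ h0) h1)⟩
  have hb : ∀ w ∈ W, ∀ j, gd w j → ∀ w' ∈ W, Prod.fst w' ≠ Prod.fst j := by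
    intro p hp q hg p' hp' he
    obtain ⟨a, -, -, h2⟩ := (hW p).1 hp
    obtain ⟨a', -, -, h3⟩ := (hW p').1 hp'
    obtain ⟨-, -, -, -, h6⟩ := (hgd p q).1 hg
    exact h6 i (hWaK _ _ h2).1 (by rw [← he]; exact (hWaK _ _ h3).1)
  have hc : ∀ w ∈ W, (univ.filter (fun j => gd w j)).card ≤ B := by
    intro p hp
    obtain ⟨a, ha, h1, h2⟩ := (hW p).1 hp
    refine le_trans (Finset.card_le_card_of_injOn (t := nb G p.1 \ K i) Prod.fst ?_ ?_)
      (H.kdec.out i p.1 (hWaK a _ h2).1)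
    · intro q hq
      obtain ⟨a', -, -, h5, h6⟩ := (hgd p q).1 (Finset.mem_filter.1 (Finset.mem_coe.1 hq)).2
      refine Finset.mem_coe.2 (Finset.mem_sdiff.2 ⟨?_, h6 i (hWaK a _ h2).1⟩)
      unfold nb
      rw [Finset.mem_filter]
      exact ⟨Finset.mem_univ _, h5⟩
    · intro q hq q' hq' hqq
      obtain ⟨a1, h3, h4, -, -⟩ := (hgd p q).1 (Finset.mem_filter.1 (Finset.mem_coe.1 hq)).2
      obtain ⟨a2, h5, h6, -, -⟩ := (hgd p q').1 (Finset.mem_filter.1 (Finset.mem_coe.1 hq')).2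
      rw [h3] at h5
      have h7 := Option.some.inj h5
      subst h7
      have hqq' : q.1 = q'.1 := hqq
      rw [← hqq'] at h6
      exact Prod.ext hqq' (LowP_uniq hdcd h4 h6)
  have hd : ∀ q, (W.filter (fun p => gd p q)).card ≤ B := by
    intro q
    by_cases hne : ∃ p ∈ W, gd p q
    · obtain ⟨p0, hp0, hg0⟩ := hne
      obtain ⟨a0, ha0, h1, h2⟩ := (hW p0).1 hp0
      obtain ⟨a, h3, h4, h5, h6⟩ := (hgd p0 q).1 hg0
      have hqi : q.1 ∉ K i := h6 i (hWaK _ _ h2).1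
      obtain ⟨j', hj1, -, -⟩ := LowP_memPP.1 (LowP_pp hdcd h4)
      refine le_trans (Finset.card_le_card_of_injOn (t := nb G q.1 \ K j') Prod.fst ?_ ?_)
        (H.kdec.out j' q.1 hj1)
      · intro p hp
        have hp' := Finset.mem_filter.1 (Finset.mem_coe.1 hp)
        obtain ⟨a1, -, -, h8⟩ := (hW p).1 hp'.1
        obtain ⟨a2, -, -, h9, -⟩ := (hgd p q).1 hp'.2
        refine Finset.mem_coe.2 (Finset.mem_sdiff.2 ⟨?_, ?_⟩)
        · unfold nb
          rw [Finset.mem_filter]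
          exact ⟨Finset.mem_univ _, h9.symm⟩
        · intro hcon
          have h10 := H.kdec.disj i j' p.1 (hWaK _ _ h8).1 hcon
          rw [← h10] at hj1
          exact hqi hj1
      · intro p hp p' hp' hpp'
        obtain ⟨a1, h8, h9, -, -⟩ := (hgd p q).1 (Finset.mem_filter.1 (Finset.mem_coe.1 hp)).2
        obtain ⟨a2, h10, h11, -, -⟩ := (hgd p' q).1 (Finset.mem_filter.1 (Finset.mem_coe.1 hp')).2
        rw [h9] at h11
        have h12 := Option.some.inj h11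
        subst h12
        have e : p.1 = p'.1 := hpp'
        rw [← e] at h10
        exact Prod.ext e (LowP_uniq hdcd h8 h10)
    · rw [Finset.filter_eq_empty_iff.2 (fun p hp hg => hne ⟨p, hp, hg⟩), Finset.card_empty]
      exact Nat.zero_le _
  have hx : (0 : ℝ) ≤ (B : ℝ) * Lam := mul_nonneg (Nat.cast_nonneg _) (zero_le_one.trans H.L1)
  have hWD : (D : ℝ) ≤ 60 * (W.card : ℝ) := by
    rw [hWcard]
    exact_mod_cast hD
  have hBD := H.BD
  have hf : 10 ^ 8 * (B : ℝ) * Lam ≤ (W.card : ℝ) := by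
    rw [mul_assoc] at hBD ⊢
    generalize (B : ℝ) * Lam = x at *
    norm_num at hBD ⊢
    linarith
  have hg : 10 ^ 8 * (Fintype.card A : ℝ) * Lam ≤ (W.card : ℝ) := by
    rw [H.cA]
    push_cast
    rw [mul_assoc] at hBD
    rw [show (10 : ℝ) ^ 8 * (10000 * (B : ℝ)) * Lam = 10 ^ 12 * ((B : ℝ) * Lam) by ring]
    generalize (B : ℝ) * Lam = x at *
    norm_num at hBD ⊢
    linarith
  have hcount : ∀ (ω : V → A) (S : Finset (V × A)),
      (∀ p ∈ S, p ∈ W ∧ ω p.1 = p.2 ∧ ∀ j, gd p j → ω j.1 ≠ j.2) →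
      S.card ≤ ∑ a ∈ F,
        ((On G K Pv c dec ω).filter (fun w => w ∈ K i ∧ Lb c dec ω w = a)).card := by
    intro ω S hS
    rw [← Finset.card_sigma]
    refine Finset.card_le_card_of_injOn (fun p => (⟨Lb c dec ω p.1, p.1⟩ : (Σ _ : κ, V))) ?_ ?_
    · intro p hp
      obtain ⟨h1, h2, h3⟩ := hS p (Finset.mem_coe.1 hp)
      obtain ⟨a, ha, h4, h5⟩ := (hW p).1 h1
      have h6 : dec p.1 (ω p.1) = some a := by rw [h2]; exact h4
      have h7 : Lb c dec ω p.1 = a := by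
        unfold Lb
        rw [h6]
        rfl
      obtain ⟨h8, h9, h10⟩ := hWaK a _ h5
      refine Finset.mem_coe.2 (Finset.mem_sigma.2 ⟨?_, Finset.mem_filter.2 ⟨?_, h8, rfl⟩⟩)
      · change Lb c dec ω p.1 ∈ F
        rw [h7]
        exact ha
      · refine LowP_memOn.2 ⟨a, h6, h10, ?_⟩
        intro x hx1 hx2 hx3
        exact h3 (x, ω x) ((hgd p (x, ω x)).2 ⟨a, h4, hx3, hx1, hx2⟩) rfl
    · intro p hp p' hp' hpp
      have h1 : p.1 = p'.1 := by
        have h := congrArg (fun s : (Σ _ : κ, V) => s.2) hpp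
        exact h
      have h2 := (hS p (Finset.mem_coe.1 hp)).2.1
      have h3 := (hS p' (Finset.mem_coe.1 hp')).2.1
      exact Prod.ext h1 (by rw [← h2, ← h3, h1])
  have key := hThin V A (V × A) Prod.fst Prod.snd W gd B B Lam
    (fun j j' h1 h2 => Prod.ext h1 h2) hb hc hd H.B0 (lt_of_lt_of_le one_pos H.L1)
    (by rw [H.cA]; omega) hf hg
  refine le_trans (Nat.cast_le.2 (Finset.card_le_card ?_)) key
  intro ω hω
  rw [Finset.mem_filter] at hω ⊢
  refine ⟨Finset.mem_univ _, ?_⟩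
  refine lt_of_le_of_lt (mul_le_mul_of_nonneg_left (Nat.cast_le.2 (hcount ω _ ?_))
    (Nat.cast_nonneg _)) ?_
  · intro p hp
    rw [Finset.mem_filter] at hp
    exact ⟨hp.1, hp.2.1, hp.2.2⟩
  · have h1 := hω.2
    rw [hWcard, H.cA]
    push_cast
    exact h1

end Pool.TCT
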