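import Pool.Agent.Helper60.TCT.StD

/-!
# T9, block FIN9: module OPF, counting of the options
-/

set_option autoImplicit false

namespace Pool.TCT

open Pool.TC Pool.TCM Pool.TCS Finset
open scoped Classical

private theorem OpF_inj {V κ ι : Type} [Fintype V] [Fintype κ] {G : SimpleGraph V}
    {D B : ℕ} {N : κ → V → V} {K : ι → Finset V} {Q : Finset κ} {C Y Ld : Finset V}
    {Qa : ι → Finset κ} {c : V → κ} (h : H9 G D B N K Q C Y Ld Qa c) {i : ι} {w w' : V}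
    (hw : w ∈ K i ∩ Y) (hw' : w' ∈ K i ∩ Y) (he : c w = c w') : w = w' := by
  rw [mem_inter] at hw hw'
  by_contra hne
  exact h.yne i w hw.2 hw.1 w' hw'.1 (h.yC w' hw'.2).1 (fun e => hne e.symm) he.symm

theorem thm_OpF : St_OpF := by
  intro V κ ι _ _ _ G D B N K Q C Y Ld Qa c α h hP i u hu huC
  have hαu : α u ∈ Qa i := hP.mem i u hu huC
  -- the six bad sets
  have e1 : ((K i ∩ Y).filter (fun w => ∃ x ∈ C, G.Adj u x ∧ x ∉ K i ∧ c x = c w)).card ≤ B := by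
    have h1 : ((K i ∩ Y).filter (fun w => ∃ x ∈ C, G.Adj u x ∧ x ∉ K i ∧ c x = c w)).card =
        (((K i ∩ Y).filter (fun w => ∃ x ∈ C, G.Adj u x ∧ x ∉ K i ∧ c x = c w)).image c).card := by
      refine (card_image_of_injOn ?_).symm
      intro w hw w' hw' he
      rw [mem_coe, mem_filter] at hw hw'
      exact OpF_inj h hw.1 hw'.1 he
    rw [h1]
    refine (card_le_card (t := (nb G u \ K i).image c) ?_).trans
      (card_image_le.trans (h.kdec.out i u hu))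
    intro a ha
    rw [mem_image] at ha
    obtain ⟨w, hw, rfl⟩ := ha
    rw [mem_filter] at hw
    obtain ⟨x, hxC, hux, hxK, hcx⟩ := hw.2
    rw [mem_image]
    refine ⟨x, ?_, hcx⟩
    rw [mem_sdiff]
    exact ⟨by simp [nb, hux], hxK⟩
  have hinj2 : ∀ w ∈ K i ∩ Y, ∀ w' ∈ K i ∩ Y, N (c w) u = N (c w') u → w = w' :=
    fun w hw w' hw' he => OpF_inj h hw hw' (h.lat.inj u _ _ he)
  have e2 : ((K i ∩ Y).filter (fun w => N (c w) u ∉ K i)).card ≤ B := by
    have h1 : ((K i ∩ Y).filter (fun w => N (c w) u ∉ K i)).card =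
        (((K i ∩ Y).filter (fun w => N (c w) u ∉ K i)).image (fun w => N (c w) u)).card := by
      refine (card_image_of_injOn ?_).symm
      intro w hw w' hw' he
      rw [mem_coe, mem_filter] at hw hw'
      exact hinj2 w hw.1 w' hw'.1 he
    rw [h1]
    refine (card_le_card (t := nb G u \ K i) ?_).trans (h.kdec.out i u hu)
    intro a ha
    rw [mem_image] at ha
    obtain ⟨w, hw, rfl⟩ := ha
    rw [mem_filter] at hw
    have h2 : N (c w) u ≠ u := fun e => hw.2 (by rw [e]; exact hu)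
    rw [mem_sdiff]
    exact ⟨by simp [nb, h.lat.sub _ _ h2], hw.2⟩
  have e3 : ((K i ∩ Y).filter (fun w => N (c w) u ∈ K i ∩ Ld)).card ≤ (K i ∩ Ld).card := by
    refine card_le_card_of_injOn (fun w => N (c w) u) ?_ ?_
    · intro w hw
      rw [mem_coe, mem_filter] at hw
      exact hw.2
    · intro w hw w' hw' he
      rw [mem_coe, mem_filter] at hw hw'
      exact hinj2 w hw.1 w' hw'.1 he
  have e3' := h.ldk i
  have e4 : ((K i ∩ Y).filter (fun w => (∃ x ∈ C, G.Adj w x ∧ x ∉ K i ∧ c x = α u) ∨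
      N (α u) w ∉ K i)).card ≤ ((K i).filter (fun w => (∃ x ∈ C, G.Adj w x ∧ x ∉ K i ∧ c x = α u) ∨
      N (α u) w ∉ K i)).card := by
    refine card_le_card ?_
    intro w hw
    rw [mem_filter, mem_inter] at hw
    rw [mem_filter]
    exact ⟨hw.1.1, hw.2⟩
  have e4' := h.blo i (α u) hαu
  have e5 : ((K i ∩ Y).filter (fun w => N (α u) w ∈ K i ∩ Ld)).card ≤ (K i ∩ Ld).card := by
    refine card_le_card_of_injOn (fun w => N (α u) w) ?_ ?_
    · intro w hw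
      rw [mem_coe, mem_filter] at hw
      exact hw.2
    · intro w _ w' _ he
      have he' : N (α u) w = N (α u) w' := he
      rw [← h.lat.inv (α u) w, he', h.lat.inv]
  have e6 := hP.bad i u hu huC
  have hS : K i ∩ Y ⊆ (univ.filter (fun w => IsOp G N K C Y Ld c α i u w)) ∪
      ((K i ∩ Y).filter (fun w => ∃ x ∈ C, G.Adj u x ∧ x ∉ K i ∧ c x = c w) ∪
      ((K i ∩ Y).filter (fun w => N (c w) u ∉ K i) ∪
      ((K i ∩ Y).filter (fun w => N (c w) u ∈ K i ∩ Ld) ∪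
      ((K i ∩ Y).filter (fun w => (∃ x ∈ C, G.Adj w x ∧ x ∉ K i ∧ c x = α u) ∨ N (α u) w ∉ K i) ∪
      ((K i ∩ Y).filter (fun w => N (α u) w ∈ K i ∩ Ld) ∪
      (K i ∩ Y).filter (fun w => N (α u) w = N (c w) u)))))) := by
    intro w hw
    by_contra hcon
    simp only [mem_union, mem_filter, mem_univ, true_and, hw, not_or] at hcon
    obtain ⟨h0, h1, h2, h3, ⟨h4, h4'⟩, h5, h6⟩ := hcon
    rw [mem_inter] at hw
    rw [not_not] at h2 h4'
    refine h0 ⟨hu, huC, hw.1, hw.2, ?_, ⟨h2, ?_⟩, ?_, ⟨h4', ?_⟩, fun e => h6 e.symm⟩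
    · intro x hx hux hxK hcx
      exact h1 ⟨x, hx, hux, hxK, hcx⟩
    · intro hL
      exact h3 (mem_inter.2 ⟨h2, hL⟩)
    · intro x hx hwx hxK hcx
      exact h4 ⟨x, hx, hwx, hxK, hcx⟩
    · intro hL
      exact h5 (mem_inter.2 ⟨h4', hL⟩)
  have hcard := card_le_card hS
  have u1 := card_union_le (univ.filter (fun w => IsOp G N K C Y Ld c α i u w))
    ((K i ∩ Y).filter (fun w => ∃ x ∈ C, G.Adj u x ∧ x ∉ K i ∧ c x = c w) ∪
      ((K i ∩ Y).filter (fun w => N (c w) u ∉ K i) ∪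
      ((K i ∩ Y).filter (fun w => N (c w) u ∈ K i ∩ Ld) ∪
      ((K i ∩ Y).filter (fun w => (∃ x ∈ C, G.Adj w x ∧ x ∉ K i ∧ c x = α u) ∨ N (α u) w ∉ K i) ∪
      ((K i ∩ Y).filter (fun w => N (α u) w ∈ K i ∩ Ld) ∪
      (K i ∩ Y).filter (fun w => N (α u) w = N (c w) u))))))
  have u2 := card_union_le ((K i ∩ Y).filter (fun w => ∃ x ∈ C, G.Adj u x ∧ x ∉ K i ∧ c x = c w))
      ((K i ∩ Y).filter (fun w => N (c w) u ∉ K i) ∪
      ((K i ∩ Y).filter (fun w => N (c w) u ∈ K i ∩ Ld) ∪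
      ((K i ∩ Y).filter (fun w => (∃ x ∈ C, G.Adj w x ∧ x ∉ K i ∧ c x = α u) ∨ N (α u) w ∉ K i) ∪
      ((K i ∩ Y).filter (fun w => N (α u) w ∈ K i ∩ Ld) ∪
      (K i ∩ Y).filter (fun w => N (α u) w = N (c w) u)))))
  have u3 := card_union_le ((K i ∩ Y).filter (fun w => N (c w) u ∉ K i))
      ((K i ∩ Y).filter (fun w => N (c w) u ∈ K i ∩ Ld) ∪
      ((K i ∩ Y).filter (fun w => (∃ x ∈ C, G.Adj w x ∧ x ∉ K i ∧ c x = α u) ∨ N (α u) w ∉ K i) ∪
      ((K i ∩ Y).filter (fun w => N (α u) w ∈ K i ∩ Ld) ∪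
      (K i ∩ Y).filter (fun w => N (α u) w = N (c w) u))))
  have u4 := card_union_le ((K i ∩ Y).filter (fun w => N (c w) u ∈ K i ∩ Ld))
      ((K i ∩ Y).filter (fun w => (∃ x ∈ C, G.Adj w x ∧ x ∉ K i ∧ c x = α u) ∨ N (α u) w ∉ K i) ∪
      ((K i ∩ Y).filter (fun w => N (α u) w ∈ K i ∩ Ld) ∪
      (K i ∩ Y).filter (fun w => N (α u) w = N (c w) u)))
  have u5 := card_union_le
      ((K i ∩ Y).filter (fun w => (∃ x ∈ C, G.Adj w x ∧ x ∉ K i ∧ c x = α u) ∨ N (α u) w ∉ K i))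
      ((K i ∩ Y).filter (fun w => N (α u) w ∈ K i ∩ Ld) ∪
      (K i ∩ Y).filter (fun w => N (α u) w = N (c w) u))
  have u6 := card_union_le ((K i ∩ Y).filter (fun w => N (α u) w ∈ K i ∩ Ld))
      ((K i ∩ Y).filter (fun w => N (α u) w = N (c w) u))
  have y95 := h.y95 i
  have hBD := h.BD
  norm_num at hBD
  omega

end Pool.TCT
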