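import Pool.Agent.Helper60.TCT.StD

/-!
# T9, PAIF: the pairing
-/

set_option autoImplicit false

namespace Pool.TCT

open Pool.TC Pool.TCM Pool.TCS Finset
open scoped Classical

private theorem PaiF_cnt {α β : Type} (S : Finset α) (W : Finset β) (r : α → β → Prop)
    (D B : ℕ) (hW : W.card ≤ D + 1 + B) (h1 : ∀ w ∈ W, (S.filter (fun a => r a w)).card ≤ 1)
    (hB : 50 * B < D + 1) (p : α → Prop)
    (hp : ∀ a, p a ↔ D < 50 * (W.filter (fun w => r a w)).card) :
    (S.filter (fun a => p a)).card ≤ 50 := by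
  set T := S.filter (fun a => p a) with hT
  have h2 : T.card * (D + 1) ≤ 50 * ∑ a ∈ T, (W.filter (fun w => r a w)).card := by
    rw [Finset.mul_sum, ← smul_eq_mul (Finset.card _) (D + 1), ← Finset.sum_const]
    apply Finset.sum_le_sum
    intro a ha
    rw [hT, Finset.mem_filter, hp] at ha
    exact ha.2
  have h3 : ∑ a ∈ T, (W.filter (fun w => r a w)).card =
      ∑ w ∈ W, (T.filter (fun a => r a w)).card := by
    simp only [Finset.card_filter]
    exact Finset.sum_comm
  have h4 : ∑ w ∈ W, (T.filter (fun a => r a w)).card ≤ W.card := by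
    rw [Finset.card_eq_sum_ones]
    apply Finset.sum_le_sum
    intro w hw
    refine le_trans (Finset.card_le_card ?_) (h1 w hw)
    intro a ha
    rw [Finset.mem_filter] at ha ⊢
    refine ⟨?_, ha.2⟩
    have h5 := ha.1
    rw [hT] at h5
    exact (Finset.mem_filter.1 h5).1
  by_contra hcon
  push Not at hcon
  have h6 : 51 * (D + 1) ≤ T.card * (D + 1) := Nat.mul_le_mul_right _ hcon
  omega

theorem thm_PaiF (hPai : St_Pai) : St_PaiF := by
  intro V κ ι _ _ _ G D B N K Q C Y Ld Qa c hH
  have hne : Nonempty κ := by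
    rw [← Fintype.card_pos_iff, hH.lat.card]
    exact Nat.succ_pos _
  have hBD := hH.BD
  have hB0 := hH.B0
  have hKc : ∀ i, (K i).card ≤ D + 1 + B := by
    intro i
    obtain ⟨w, hw⟩ := hH.kdec.ne i
    have h2 : K i ⊆ insert w (nb G w) ∪ (K i \ insert w (nb G w)) := by
      intro x hx
      by_cases h : x ∈ insert w (nb G w)
      · exact Finset.mem_union_left _ h
      · exact Finset.mem_union_right _ (Finset.mem_sdiff.2 ⟨hx, h⟩)
    have h3 := (Finset.card_le_card h2).trans (Finset.card_union_le _ _)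
    have h4 := hH.kdec.inn i w hw
    have h5 := Finset.card_insert_le w (nb G w)
    rw [hH.lat.deg w] at h5
    omega
  have key : ∀ i, ∃ f : V → κ, (∀ u ∈ K i \ C, f u ∈ Qa i ∧
      ¬ (D < 50 * ((K i ∩ Y).filter (fun w => N (f u) w = N (c w) u)).card)) ∧
      (∀ u ∈ K i \ C, ∀ v ∈ K i \ C, f u = f v → u = v) := by
    intro i
    have hWc : (K i ∩ Y).card ≤ D + 1 + B :=
      (Finset.card_le_card Finset.inter_subset_left).trans (hKc i)
    obtain ⟨hc1, hc2, hc3⟩ := hH.crd i
    apply hPai V κ (K i \ C) (Qa i)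
      (fun u a => D < 50 * ((K i ∩ Y).filter (fun w => N a w = N (c w) u)).card) 50
    · intro u _
      apply PaiF_cnt (Qa i) (K i ∩ Y) (fun a w => N a w = N (c w) u) D B hWc
      · intro w _
        rw [Finset.card_le_one]
        intro a ha b hb
        rw [Finset.mem_filter] at ha hb
        exact hH.lat.inj w a b (ha.2.trans hb.2.symm)
      · omega
      · exact fun a => Iff.rfl
    · intro a _
      apply PaiF_cnt (K i \ C) (K i ∩ Y) (fun u w => N a w = N (c w) u) D B hWc
      · intro w _
        rw [Finset.card_le_one]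
        intro u hu v hv
        rw [Finset.mem_filter] at hu hv
        have h1 : N (c w) u = N (c w) v := hu.2.symm.trans hv.2
        have h2 := congrArg (N (c w)) h1
        rw [hH.lat.inv, hH.lat.inv] at h2
        exact h2
      · omega
      · exact fun a => Iff.rfl
    · exact hc1
    · omega
  choose f hf1 hf2 using key
  have hα : ∀ i, ∀ u ∈ K i,
      (if h : ∃ i, u ∈ K i then f (Classical.choose h) u else Classical.arbitrary κ) = f i u := by
    intro i u hu
    have h : ∃ i, u ∈ K i := ⟨i, hu⟩
    rw [dif_pos h]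
    have h1 := hH.kdec.disj _ i u (Classical.choose_spec h) hu
    rw [h1]
  refine ⟨fun u => if h : ∃ i, u ∈ K i then f (Classical.choose h) u else Classical.arbitrary κ,
    ?_, ?_, ?_⟩
  · intro i u hu huC
    show (if h : ∃ i, u ∈ K i then f (Classical.choose h) u else Classical.arbitrary κ) ∈ Qa i
    rw [hα i u hu]
    exact (hf1 i u (Finset.mem_sdiff.2 ⟨hu, huC⟩)).1
  · intro i u hu huC
    show 50 * ((K i ∩ Y).filter (fun w => N (if h : ∃ i, u ∈ K i then f (Classical.choose h) u
      else Classical.arbitrary κ) w = N (c w) u)).card ≤ D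
    rw [hα i u hu]
    have h1 := (hf1 i u (Finset.mem_sdiff.2 ⟨hu, huC⟩)).2
    omega
  · intro i u hu v hv huC hvC he
    have he' : (if h : ∃ i, u ∈ K i then f (Classical.choose h) u else Classical.arbitrary κ) =
        (if h : ∃ i, v ∈ K i then f (Classical.choose h) v else Classical.arbitrary κ) := he
    rw [hα i u hu, hα i v hv] at he'
    exact hf2 i u (Finset.mem_sdiff.2 ⟨hu, huC⟩) v (Finset.mem_sdiff.2 ⟨hv, hvC⟩) he'

end Pool.TCT
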