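import Pool.Agent.Helper60.TCT.StB

/-!
# T9, PBC: few problem colours
-/

set_option autoImplicit false

namespace Pool.TCT

open Pool.TC Pool.TCM Pool.TCS Finset
open scoped Classical

private theorem PbC_swap {α β : Type} (s : Finset α) (t : Finset β) (r : α → β → Prop)
    [∀ a b, Decidable (r a b)] :
    ∑ a ∈ s, (t.filter (fun b => r a b)).card = ∑ b ∈ t, (s.filter (fun a => r a b)).card := by
  simp only [Finset.card_filter]
  exact Finset.sum_comm

private theorem PbC_mem {V : Type} [Fintype V] (G : SimpleGraph V) (u v : V) :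
    v ∈ nb G u ↔ G.Adj u v := by
  simp [nb]

private theorem PbC_one {V κ ι : Type} [Fintype V] [Fintype κ] (G : SimpleGraph V)
    (K : ι → Finset V) (c : V → κ) (Pv : Finset V) (i : ι) (w : V) :
    ((av K Pv c i).filter (fun a => blk G K Pv c a w)).card ≤ (nb G w \ K i).card := by
  have h : (av K Pv c i).filter (fun a => blk G K Pv c a w) ⊆ (nb G w \ K i).image c := by
    intro a ha
    rw [Finset.mem_filter] at ha
    obtain ⟨ha1, x, hx, hC, hc⟩ := ha
    unfold av at ha1
    rw [Finset.mem_filter] at ha1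
    rw [Finset.mem_image]
    refine ⟨x, ?_, hc⟩
    rw [Finset.mem_sdiff, PbC_mem]
    refine ⟨hx, fun hxi => ?_⟩
    rcases hC with h1 | h1
    · exact h1 i hxi
    · exact ha1.2 x hxi h1 hc
  exact (Finset.card_le_card h).trans Finset.card_image_le

private theorem PbC_two {V κ ι : Type} [Fintype V] [Fintype κ] (G : SimpleGraph V) (D B : ℕ)
    (N : κ → V → V) (K : ι → Finset V) (hL : Lat G D N) (hK : Dec G B K) (i : ι) (w : V)
    (hw : w ∈ K i) : (univ.filter (fun a => N a w ∉ K i)).card ≤ B := by
  refine le_trans ?_ (hK.out i w hw)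
  apply Finset.card_le_card_of_injOn (fun a => N a w)
  · intro a ha
    have ha' := (Finset.mem_filter.1 (Finset.mem_coe.1 ha)).2
    apply Finset.mem_coe.2
    rw [Finset.mem_sdiff, PbC_mem]
    refine ⟨hL.sub a w ?_, ha'⟩
    intro he
    rw [he] at ha'
    exact ha' hw
  · intro a _ b _ hab
    exact hL.inj w a b hab

theorem thm_PbC (hKSz : St_KSz) : St_PbC := by
  intro V κ ι _ _ G D B N K Q c Pv lam hL hK hS hB hD i
  obtain ⟨hk1, hk2⟩ := hKSz V κ ι G D B N K hL hK i
  have hcard : (K i \ Pv).card + (K i ∩ Pv).card = (K i).card :=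
    Finset.card_sdiff_add_card_inter _ _
  have hfew := hS.few i
  have hn : (K i \ Pv).card ≤ D + 1 + B := by omega
  refine ⟨fun w _ => PbC_one G K c Pv i w, fun w hw => PbC_two G D B N K hL hK i w hw, ?_, ?_,
    by omega, hn⟩
  · have h1 : D * (Pb G D N K Pv c i).card ≤ 2000 * ∑ a ∈ Pb G D N K Pv c i,
        ((K i \ Pv).filter (fun w => blk G K Pv c a w ∨ N a w ∉ K i)).card := by
      rw [Finset.mul_sum, mul_comm D, ← smul_eq_mul (Finset.card _) D, ← Finset.sum_const]
      apply Finset.sum_le_sum
      intro a ha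
      unfold Pb at ha
      rw [Finset.mem_filter] at ha
      exact ha.2.le
    have h2 : ∑ a ∈ Pb G D N K Pv c i,
        ((K i \ Pv).filter (fun w => blk G K Pv c a w ∨ N a w ∉ K i)).card ≤
        (K i \ Pv).card * (2 * B) := by
      rw [PbC_swap, ← smul_eq_mul (Finset.card _) (2 * B), ← Finset.sum_const]
      apply Finset.sum_le_sum
      intro w hw
      have hwK : w ∈ K i := (Finset.mem_sdiff.1 hw).1
      have h3 : (Pb G D N K Pv c i).filter (fun a => blk G K Pv c a w ∨ N a w ∉ K i) ⊆
          ((av K Pv c i).filter (fun a => blk G K Pv c a w)) ∪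
            (univ.filter (fun a => N a w ∉ K i)) := by
        intro a ha
        rw [Finset.mem_filter] at ha
        rw [Finset.mem_union, Finset.mem_filter, Finset.mem_filter]
        rcases ha.2 with h | h
        · left
          have ha1 := ha.1
          unfold Pb at ha1
          exact ⟨(Finset.mem_filter.1 ha1).1, h⟩
        · right
          exact ⟨Finset.mem_univ _, h⟩
      have h4 := (Finset.card_le_card h3).trans (Finset.card_union_le _ _)
      have h5 := PbC_one G K c Pv i w
      have h6 := PbC_two G D B N K hL hK i w hwK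
      have h7 := hK.out i w hwK
      omega
    have h3 : (K i \ Pv).card * (2 * B) ≤ (D + 1 + B) * (2 * B) := Nat.mul_le_mul_right _ hn
    have h4 : D * (Pb G D N K Pv c i).card ≤ 2000 * ((D + 1 + B) * (2 * B)) :=
      h1.trans (Nat.mul_le_mul_left _ (h2.trans h3))
    have h5 : 2000 * ((D + 1 + B) * (2 * B)) ≤ D * (4400 * B) := by
      have h6 : 10 * (1 + B) ≤ D := by omega
      have h7 : 10 * (1 + B) * (400 * B) ≤ D * (400 * B) := Nat.mul_le_mul_right _ h6
      nlinarith
    exact Nat.le_of_mul_le_mul_left (h4.trans h5) (by omega)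
  · have h1 : ∀ a ∈ Pb G D N K Pv c i, (K i \ Pv).card =
        ((K i \ Pv).filter (fun w => blk G K Pv c a w)).card + (Wa G K Pv c i a).card := by
      intro a _
      unfold Wa
      exact (Finset.card_filter_add_card_filter_not _).symm
    have h2 : (K i \ Pv).card * (Pb G D N K Pv c i).card =
        ∑ a ∈ Pb G D N K Pv c i, (K i \ Pv).card := by
      rw [Finset.sum_const, smul_eq_mul, mul_comm]
    rw [h2, Finset.sum_congr rfl h1, Finset.sum_add_distrib]
    apply Nat.add_le_add_right
    rw [PbC_swap]
    refine le_trans (Finset.sum_le_sum ?_) (hS.spare i)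
    intro w _
    refine le_trans (Finset.card_le_card ?_) (PbC_one G K c Pv i w)
    intro a ha
    rw [Finset.mem_filter] at ha ⊢
    have ha1 := ha.1
    unfold Pb at ha1
    exact ⟨(Finset.mem_filter.1 ha1).1, ha.2⟩

end Pool.TCT
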