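import Pool.Agent.Helper60.TCT.StB

/-!
# T9, block PRB: assembly (`St_Prb` from `St_Frc`)
-/

set_option autoImplicit false

namespace Pool.TCT

open Pool.TC Pool.TCM Pool.TCS Finset
open scoped Classical

theorem thm_Prb (hFrc : St_Frc) : St_Prb := by
  intro V κ ι _ _ _ G D B N K Q c Pv lam On lb hLat hDec hSta hB hBD hLab
  obtain ⟨f, hf1, hf2, hf3, hf4⟩ := hFrc V κ ι G D B N K Q c Pv lam On lb hLat hDec hSta hB hBD
    hLab
  obtain ⟨X, hX⟩ : ∃ X : Finset V, ∀ w, w ∈ X ↔ w ∈ On ∧ ∃ i, w ∈ K i ∧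
      f i (lb w) = Sum.inl (N (lb w) w) :=
    ⟨On.filter (fun w => ∃ i, w ∈ K i ∧ f i (lb w) = Sum.inl (N (lb w) w)), fun w => by
      rw [mem_filter]⟩
  obtain ⟨c', hc1, hc2⟩ : ∃ c' : V → κ, (∀ w ∈ X, c' w = lb w) ∧ ∀ w, w ∉ X → c' w = c w :=
    ⟨fun w => if w ∈ X then lb w else c w, fun w hw => if_pos hw, fun w hw => if_neg hw⟩
  have hXOn : ∀ w ∈ X, w ∈ On := fun w hw => ((hX w).1 hw).1
  have hXf : ∀ w ∈ X, ∀ i, w ∈ K i → f i (lb w) = Sum.inl (N (lb w) w) := by
    intro w hw i hi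
    obtain ⟨-, j, hj, hjf⟩ := (hX w).1 hw
    rw [hDec.disj i j w hi hj]
    exact hjf
  have hinj : ∀ i, ∀ w ∈ X, ∀ x ∈ X, w ∈ K i → x ∈ K i → lb w = lb x → w = x := by
    intro i w hw x hx hwi hxi h
    have h1 := hXf w hw i hwi
    have h2 := hXf x hx i hxi
    rw [h] at h1
    rw [h1] at h2
    have h3 := congrArg (N (lb x)) (Sum.inl.inj h2)
    rw [hLat.inv, hLat.inv] at h3
    exact h3
  -- the loads
  have hload : ∀ v, load N X c' v ≤ ((univ : Finset (ι × κ)).filter (fun p =>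
      p.2 ∈ Pb G D N K Pv c p.1 ∧ f p.1 p.2 = Sum.inl v)).card := by
    intro v
    unfold load
    rcases X.eq_empty_or_nonempty with he | ⟨u0, hu0⟩
    · rw [he, filter_empty, card_empty]
      exact Nat.zero_le _
    · obtain ⟨-, i0, -, -⟩ := (hX u0).1 hu0
      obtain ⟨idx, hidx⟩ : ∃ idx : V → ι, ∀ u ∈ X, u ∈ K (idx u) := by
        refine ⟨fun u => if h : ∃ i, u ∈ K i then h.choose else i0, fun u hu => ?_⟩
        obtain ⟨-, i, hi, -⟩ := (hX u).1 hu
        have h : ∃ i, u ∈ K i := ⟨i, hi⟩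
        beta_reduce
        rw [dif_pos h]
        exact h.choose_spec
      refine card_le_card_of_injOn (fun u => (idx u, lb u)) ?_ ?_
      · intro u hu
        obtain ⟨hu1, hu2⟩ := mem_filter.1 (mem_coe.1 hu)
        rw [hc1 u hu1] at hu2
        rw [mem_coe, mem_filter]
        refine ⟨mem_univ _, hLab.lab u (hXOn u hu1) (idx u) (hidx u hu1), ?_⟩
        show f (idx u) (lb u) = Sum.inl v
        rw [hXf u hu1 (idx u) (hidx u hu1), hu2]
      · intro u hu u' hu' h
        obtain ⟨hu1, hu2⟩ := mem_filter.1 (mem_coe.1 hu)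
        obtain ⟨hu1', hu2'⟩ := mem_filter.1 (mem_coe.1 hu')
        have h1 : idx u = idx u' := (Prod.mk.inj h).1
        have h2 : lb u = lb u' := (Prod.mk.inj h).2
        refine hinj (idx u) u hu1 u' hu1' (hidx u hu1) ?_ h2
        rw [h1]
        exact hidx u' hu1'
  refine ⟨X, c', ?_⟩
  refine { eq := hc2, row := fun w hw => hLab.row w (hXOn w hw), proper := ?_, prb := ?_,
           inj := ?_, cnt := ?_, ld2 := fun v => (hload v).trans (hf2 v), ldK := ?_, ldS := ?_,
           x6 := ?_, x7 := ?_ }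
  · -- proper
    have hCs : ∀ u ∈ X, ¬ Cs K Pv u := by
      intro u hu h
      obtain ⟨h1, i, hi⟩ := hLab.row u (hXOn u hu)
      rcases h with h | h
      · exact h i hi
      · exact h1 h
    have key : ∀ u v, u ∈ X → v ∉ X → Cs K Pv v → G.Adj u v → c' u ≠ c' v := by
      intro u v hu hv hvC huv h
      rw [hc1 u hu, hc2 v hv] at h
      exact hLab.unb u (hXOn u hu) ⟨v, huv, hvC, h.symm⟩
    intro u v hu hv huv
    by_cases huX : u ∈ X
    · by_cases hvX : v ∈ X
      · rw [hc1 u huX, hc1 v hvX]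
        obtain ⟨-, i, hi⟩ := hLab.row u (hXOn u huX)
        by_cases hvi : v ∈ K i
        · intro h
          have := hinj i u huX v hvX hi hvi h
          rw [this] at huv
          exact G.irrefl huv
        · exact hLab.cross u (hXOn u huX) v (hXOn v hvX) i hi hvi huv
      · exact key u v huX hvX (hv.resolve_right hvX) huv
    · by_cases hvX : v ∈ X
      · exact (key v u hvX huX (hu.resolve_right huX) huv.symm).symm
      · rw [hc2 u huX, hc2 v hvX]
        exact hSta.proper u v (hu.resolve_right huX) (hv.resolve_right hvX) huv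
  · intro w hw i hi
    rw [hc1 w hw]
    exact hLab.lab w (hXOn w hw) i hi
  · intro i w hw x hx hwi hxi h
    rw [hc1 w hw, hc1 x hx] at h
    exact hinj i w hw x hx hwi hxi h
  · -- cnt
    intro i
    have hsub : Pb G D N K Pv c i ⊆ (K i ∩ X).image lb ∪
        (Pb G D N K Pv c i).filter (fun a => f i a = Sum.inr i) := by
      intro a ha
      rw [mem_union]
      rcases hf1 i a ha with ⟨v, hv1, hv2, hv3, hv4⟩ | h
      · left
        refine mem_image.2 ⟨N a v, ?_, hv4⟩
        rw [mem_inter]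
        refine ⟨hv3, (hX _).2 ⟨hv2, i, hv3, ?_⟩⟩
        rw [hv4, hv1, hLat.inv]
      · right
        exact mem_filter.2 ⟨ha, h⟩
    have h1 := (card_le_card hsub).trans (card_union_le _ _)
    have h2 : ((K i ∩ X).image lb).card ≤ (K i ∩ X).card := card_image_le
    have h3 := hf4 i
    omega
  · intro i v hv
    exact (hload v).trans (hf3 v (Or.inl ⟨i, hv⟩))
  · intro v _ hv
    refine (hload v).trans (hf3 v (Or.inr (lt_of_lt_of_eq hv ?_)))
    refine congrArg (fun s : Finset V => 2 * s.card) ?_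
    ext x
    simp only [mem_filter]
  · intro i a
    refine le_trans ?_ (hLab.t5 i a)
    refine Nat.mul_le_mul_left _ (card_le_card ?_)
    intro w hw
    obtain ⟨hw1, x, hx, hx2, hx3, hx4⟩ := mem_filter.1 hw
    rw [hc1 x hx] at hx4
    exact mem_filter.2 ⟨hw1, x, hXOn x hx, hx2, hx3, hx4⟩
  · intro i
    refine le_trans ?_ (hLab.t6 i)
    refine Nat.mul_le_mul_left _ (card_le_card ?_)
    intro w hw
    obtain ⟨hw1, x, hx, hx2, hx3⟩ := mem_filter.1 hw
    rw [hc1 x hx] at hx3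
    exact mem_filter.2 ⟨hw1, x, hXOn x hx, hx2, hx3⟩

end Pool.TCT
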