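import Pool.Agent.Helper60.TCT.StD
import Pool.Agent.Helper45.Vu.IT

/-!
# T9, block FIN9, part TRF: the choice of the options
-/

set_option autoImplicit false

namespace Pool.TCT

open Pool.TC Pool.TCM Pool.TCS Finset
open scoped Classical

/-- conflicts are symmetric -/
theorem TrF_symm {V κ ι : Type} (G : SimpleGraph V) (N : κ → V → V) (K : ι → Finset V)
    (c α : V → κ) {u w u' w' : V} (h : CF G N K c α u' w' u w) : CF G N K c α u w u' w' := by
  obtain ⟨h0, h⟩ := h
  refine ⟨fun e => h0 e.symm, ?_⟩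
  rcases h with h | h | h | h | h | ⟨h1, h2, h3⟩ | ⟨h1, h2, h3⟩
  · exact Or.inl h.symm
  · exact Or.inr (Or.inl h.symm)
  · exact Or.inr (Or.inr (Or.inl h.symm))
  · exact Or.inr (Or.inr (Or.inr (Or.inr (Or.inl h.symm))))
  · exact Or.inr (Or.inr (Or.inr (Or.inl h.symm)))
  · exact Or.inr (Or.inr (Or.inr (Or.inr (Or.inr (Or.inl
      ⟨h1.symm, fun i hi hi' => h2 i hi' hi, h3.symm⟩)))))
  · exact Or.inr (Or.inr (Or.inr (Or.inr (Or.inr (Or.inr
      ⟨h1.symm, fun i hi hi' => h2 i hi' hi, h3.symm⟩)))))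

/-- TRF. The choice of the options. -/
theorem thm_TrF (hOpF : St_OpF) (hCnF : St_CnF) : St_TrF := by
  intro V κ ι _ _ _ G D B N K Q C Y Ld Qa c α h hp
  by_cases hV : Nonempty V
  swap
  · exact ⟨id, fun u => absurd ⟨u⟩ hV, fun u => absurd ⟨u⟩ hV⟩
  obtain ⟨v0⟩ := hV
  have hB := h.B0
  have hBD := h.BD
  set d : ℕ := (5 * D + 50 * B) / 25 with hd
  have hd1 : 25 * d ≤ 5 * D + 50 * B := by omega
  have hd2 : 5 * D + 50 * B < 25 * d + 25 := by omega
  have hd0 : 0 < d := by omega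
  set Gc : SimpleGraph (V × V) :=
    SimpleGraph.fromRel (fun p q : V × V => CF G N K c α p.1 p.2 q.1 q.2) with hGc
  set P : V → Finset (V × V) :=
    fun u => univ.filter (fun p : V × V => p.1 = u ∧ ∃ i, IsOp G N K C Y Ld c α i p.1 p.2) with hP
  set S : Finset V := univ.filter (fun u => u ∉ C) with hS
  have hmS : ∀ u, u ∈ S ↔ u ∉ C := fun u => by rw [hS, mem_filter]; simp
  have hmP : ∀ u p, p ∈ P u ↔ p.1 = u ∧ ∃ i, IsOp G N K C Y Ld c α i p.1 p.2 := fun u p => by
    rw [hP]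
    simp only [mem_filter, mem_univ, true_and]
  have key := Pool.Agent.Helper45.Vu.exists_transversal Gc P (v0, v0) d hd0 S
  obtain ⟨f, hf1, hf2⟩ := key (by
    intro u hu
    rw [hmS] at hu
    obtain ⟨i, hi⟩ := h.cov u hu
    have h1 := hOpF V κ ι G D B N K Q C Y Ld Qa c α h hp i u hi hu
    have h2 : (univ.filter (fun w => IsOp G N K C Y Ld c α i u w)).card ≤ (P u).card := by
      apply card_le_card_of_injOn (fun w => (u, w))
      · intro w hw
        rw [mem_coe, mem_filter] at hw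
        rw [mem_coe, hmP]
        exact ⟨rfl, i, hw.2⟩
      · intro w _ w' _ e
        exact (Prod.mk.inj e).2
    omega) (by
    intro u hu x hx
    rw [hmP] at hx
    obtain ⟨rfl, i, hi⟩ := hx
    have h1 := hCnF V κ ι G D B N K Q C Y Ld Qa c α h hp i x.1 x.2 hi
    have h2 : ∑ j ∈ S.erase x.1, ((P j).filter (fun y => Gc.Adj x y)).card ≤
        ((univ : Finset (V × V)).filter (fun p => (∃ j, IsOp G N K C Y Ld c α j p.1 p.2) ∧
          CF G N K c α x.1 x.2 p.1 p.2)).card := by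
      rw [← card_biUnion]
      · apply card_le_card
        intro p hpm
        rw [mem_biUnion] at hpm
        obtain ⟨j, -, hj⟩ := hpm
        rw [mem_filter, hmP] at hj
        obtain ⟨⟨-, hj1⟩, hj2⟩ := hj
        rw [hGc, SimpleGraph.fromRel_adj] at hj2
        rw [mem_filter]
        refine ⟨mem_univ _, hj1, ?_⟩
        rcases hj2.2 with hj3 | hj3
        · exact hj3
        · exact TrF_symm G N K c α hj3
      · intro j _ j' _ hjj
        rw [Function.onFun, Finset.disjoint_left]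
        intro p hp1 hp2
        rw [mem_filter, hmP] at hp1 hp2
        exact hjj (hp1.1.1.symm.trans hp2.1.1)
    omega)
  refine ⟨fun u => (f u).2, ?_, ?_⟩
  · intro u hu
    have h1 := hf1 u ((hmS u).2 hu)
    rw [hmP] at h1
    obtain ⟨h2, i, hi⟩ := h1
    rw [h2] at hi
    exact ⟨i, hi⟩
  · intro u u' hu hu' huu hc
    have h1 := (hmP _ _).1 (hf1 u ((hmS u).2 hu))
    have h2 := (hmP _ _).1 (hf1 u' ((hmS u').2 hu'))
    apply hf2 u ((hmS u).2 hu) u' ((hmS u').2 hu') huu
    rw [hGc, SimpleGraph.fromRel_adj]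
    refine ⟨fun e => ?_, Or.inl ?_⟩
    · rw [← h1.1, ← h2.1, e] at huu
      exact huu rfl
    · rw [h1.1, h2.1]
      exact hc

end Pool.TCT
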