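import Pool.Agent.Helper60.TCT.StB

/-!
# T9, module UPP4: the upper bound (t4)
-/

set_option autoImplicit false

namespace Pool.TCT

open Pool.TC Pool.TCM Pool.TCS Finset
open scoped Classical

section aux

variable {V κ ι A : Type} [Fintype V] [Fintype κ] [Fintype ι] [Fintype A]

private theorem Upp4_PP {G : SimpleGraph V} {D : ℕ} {N : κ → V → V} {K : ι → Finset V} {Pv : Finset V}
    {c : V → κ} {w : V} {a : κ} :
    a ∈ PP G D N K Pv c w ↔ ∃ i, w ∈ K i ∧ w ∉ Pv ∧ a ∈ Pb G D N K Pv c i := by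
  unfold PP
  simp

/-- the letters which are labels of edges to `v` -/
private theorem Upp4_row {G : SimpleGraph V} {D : ℕ} {N : κ → V → V} {K : ι → Finset V} {Pv : Finset V}
    {c : V → κ} {dec : V → A → Option κ} (hL : Lat G D N) (hd : Dcd G D N K Pv c dec) (v w : V) :
    (univ.filter (fun b : A => ∃ a, dec w b = some a ∧ N a w = v)).card =
      if ∃ i, w ∈ K i ∧ w ∉ Pv ∧ ∃ a ∈ Pb G D N K Pv c i, N a w = v then 1 else 0 := by
  by_cases h : ∃ a, N a w = v
  · obtain ⟨a, ha⟩ := h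
    have hu : ∀ a', N a' w = v → a' = a := fun a' ha' => hL.inj w a' a (ha'.trans ha.symm)
    have e1 : (univ.filter (fun b : A => ∃ a, dec w b = some a ∧ N a w = v)) =
        univ.filter (fun b : A => dec w b = some a) := by
      ext b
      simp only [mem_filter, mem_univ, true_and]
      constructor
      · rintro ⟨a', h1, h2⟩
        rw [h1, hu a' h2]
      · intro h1
        exact ⟨a, h1, ha⟩
    rw [e1, hd w a]
    by_cases hP : a ∈ PP G D N K Pv c w
    · rw [if_pos hP, if_pos]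
      obtain ⟨i, h1, h2, h3⟩ := Upp4_PP.1 hP
      exact ⟨i, h1, h2, a, h3, ha⟩
    · rw [if_neg hP, if_neg]
      rintro ⟨i, h1, h2, a', h3, h4⟩
      rw [hu a' h4] at h3
      exact hP (Upp4_PP.2 ⟨i, h1, h2, h3⟩)
  · rw [if_neg, card_eq_zero, filter_eq_empty_iff]
    · rintro b - ⟨a, -, h2⟩
      exact h ⟨a, h2⟩
    · rintro ⟨i, -, -, a, -, h2⟩
      exact h ⟨a, h2⟩

private theorem Upp4_size {G : SimpleGraph V} {D : ℕ} {N : κ → V → V} {K : ι → Finset V} {Pv : Finset V}
    {c : V → κ} (hL : Lat G D N) (v : V) :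
    (univ.filter (fun w => ∃ i, w ∈ K i ∧ w ∉ Pv ∧ ∃ a ∈ Pb G D N K Pv c i, N a w = v)).card ≤ D + 1 := by
  have h1 : (univ.filter (fun w => ∃ i, w ∈ K i ∧ w ∉ Pv ∧ ∃ a ∈ Pb G D N K Pv c i, N a w = v)) ⊆
      insert v (nb G v) := by
    intro w hw
    obtain ⟨-, i, -, -, a, -, h2⟩ := mem_filter.1 hw
    have h3 : N a v = w := by rw [← h2, hL.inv]
    rw [mem_insert]
    by_cases h4 : w = v
    · exact Or.inl h4
    · right
      have h5 : G.Adj v (N a v) := hL.sub a v (by rw [h3]; exact h4)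
      rw [h3] at h5
      simpa [nb] using h5
  calc _ ≤ (insert v (nb G v)).card := card_le_card h1
    _ ≤ (nb G v).card + 1 := card_insert_le _ _
    _ = D + 1 := by rw [hL.deg]

end aux

theorem thm_Upp4 (hBernL : St_BernL) : St_Upp4 := by
  intro V κ ι A _ _ _ _ _ G D B N K Q c Pv lam Lam dec hLtt v
  obtain ⟨hL, hK, hS, hB0, hL1, hBD, hcA, hdcd⟩ := hLtt
  set m : ℕ := (univ.filter (fun w => ∃ i, w ∈ K i ∧ w ∉ Pv ∧ ∃ a ∈ Pb G D N K Pv c i, N a w = v)).card with hm
  set f : V → A → ℝ := fun w b => if ∃ a, dec w b = some a ∧ N a w = v then 1 else 0 with hf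
  have hB1 : (1 : ℝ) ≤ B := by exact_mod_cast hB0
  have hBL : (1 : ℝ) ≤ B * Lam := by nlinarith
  have hD1 : (10 : ℝ) ^ 16 ≤ D := by nlinarith
  have hcA' : (Fintype.card A : ℝ) = 10000 * B := by rw [hcA]; push_cast; ring
  have hmD : (m : ℝ) ≤ 2 * D := by
    have h1 : m ≤ D + 1 := Upp4_size hL v
    have h2 : (m : ℝ) ≤ D + 1 := by exact_mod_cast h1
    have h3 : (1 : ℝ) ≤ D := le_trans (by norm_num) hD1
    linarith
  have hsum : ∑ w, ∑ b, f w b = m := by
    have h1 : ∀ w, ∑ b, f w b =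
        if ∃ i, w ∈ K i ∧ w ∉ Pv ∧ ∃ a ∈ Pb G D N K Pv c i, N a w = v then (1 : ℝ) else 0 := by
      intro w
      rw [hf]
      simp only [sum_boole]
      rw [Upp4_row hL hdcd v w]
      push_cast
      rfl
    rw [sum_congr rfl fun w _ => h1 w, sum_boole, hm]
  have hsq : ∑ w, ∑ b, f w b ^ 2 = m := by
    rw [← hsum]
    refine sum_congr rfl fun w _ => sum_congr rfl fun b _ => ?_
    rw [hf]
    simp only
    split_ifs <;> norm_num
  have hBp : (0 : ℝ) < 10000 * B := by linarith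
  have key := hBernL V A f 1 (2 * D / (10000 * B)) Lam one_pos (by linarith) ?_ ?_ ?_
  · refine le_trans ?_ key
    refine Nat.cast_le.2 (card_le_card fun ω hω => ?_)
    rw [mem_filter] at hω ⊢
    refine ⟨mem_univ _, ?_⟩
    have h1 := hω.2
    set M : ℕ := (univ.filter (fun w => ∃ a, dec w (ω w) = some a ∧ N a w = v)).card with hM
    have h2 : ∑ w, f w (ω w) = M := by
      rw [hf, hM]
      simp only [sum_boole]
    rw [h2, hsum, hcA']
    have h3 : Real.sqrt (2 * D / (10000 * B) * Lam) ≤ D / (30 * (10000 * B)) := by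
      refine Real.sqrt_le_iff.2 ⟨by positivity, ?_⟩
      rw [div_mul_eq_mul_div, div_pow, div_le_div_iff₀ hBp (by positivity)]
      have h4 : 1800 * (10000 * (B : ℝ) * Lam) ≤ D := by nlinarith
      have h5 : (0 : ℝ) ≤ D := Nat.cast_nonneg _
      have h6 : 0 ≤ (10000 * (B : ℝ)) * D := by positivity
      calc 2 * D * Lam * (30 * (10000 * B)) ^ 2 = (10000 * B * D) * (1800 * (10000 * B * Lam)) := by ring
        _ ≤ (10000 * B * D) * D := mul_le_mul_of_nonneg_left h4 h6
        _ = D ^ 2 * (10000 * B) := by ring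
    have h7 : (m : ℝ) / (10000 * B) + 3 * (D / (30 * (10000 * B))) ≤ M := by
      have e : (m : ℝ) / (10000 * B) + 3 * (D / (30 * (10000 * B))) = (m + D / 10) / (10000 * B) := by
        field_simp
        ring
      rw [e, div_le_iff₀ hBp]
      linarith
    linarith
  · rw [one_pow, mul_one, le_div_iff₀ hBp]
    nlinarith
  · intro w b
    rw [hf]
    simp only
    split_ifs <;> norm_num
  · rw [hsq, hcA']
    field_simp
    exact hmD

end Pool.TCT
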