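import Pool.Agent.Helper60.TCT.StB

/-! # T9, UPP5: the upper tail (t5) (helper51) -/

set_option autoImplicit false

namespace Pool.TCT

open Pool.TC Pool.TCM Pool.TCS Finset
open scoped Classical

theorem Upp5_mem_nb {V : Type} [Fintype V] (G : SimpleGraph V) (x y : V) :
    y ∈ nb G x ↔ G.Adj x y := by
  simp [nb]

/-- a letter that decodes to `a` is the only one, and `a` is a possible label -/
theorem Upp5_dec {V κ ι A : Type} [Fintype V] [Fintype κ] [Fintype A] {G : SimpleGraph V} {D : ℕ}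
    {N : κ → V → V} {K : ι → Finset V} {Pv : Finset V} {c : V → κ} {dec : V → A → Option κ}
    (h : Dcd G D N K Pv c dec) (x : V) (a : κ) :
    (univ.filter (fun b => dec x b = some a)).card ≤ 1 ∧
      ∀ b, dec x b = some a → ∃ j, x ∈ K j := by
  have h1 := h x a
  constructor
  · rw [h1]
    split_ifs <;> omega
  · intro b hb
    have h2 : 0 < (univ.filter (fun b => dec x b = some a)).card :=
      card_pos.2 ⟨b, mem_filter.2 ⟨mem_univ b, hb⟩⟩
    rw [h1] at h2
    by_cases h3 : a ∈ PP G D N K Pv c x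
    · obtain ⟨j, hj, -⟩ := (mem_filter.1 h3).2
      exact ⟨j, hj⟩
    · rw [if_neg h3] at h2
      omega

theorem Upp5_num {D B : ℕ} {Lam M S : ℝ} (hB : 0 < B) (hL : 1 ≤ Lam)
    (hBD : 10 ^ 16 * (B : ℝ) * Lam ≤ D) (hM : M = 10000 * (B : ℝ)) (hS : S ≤ 2 * D * B) :
    S / M + 3 * Real.sqrt ((D * B / 5000) * Lam) ≤ D / 2000 := by
  have hB' : (0 : ℝ) < B := by exact_mod_cast hB
  have hM0 : 0 < M := by rw [hM]; positivity
  have hD0 : (0 : ℝ) ≤ D := Nat.cast_nonneg D
  have h1 : S / M ≤ D / 5000 := by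
    rw [div_le_iff₀ hM0, hM]
    nlinarith
  have h2 : Real.sqrt ((D * B / 5000) * Lam) ≤ D / 10 ^ 4 := by
    apply Real.sqrt_le_iff.2
    constructor
    · positivity
    · have h3 : (B : ℝ) * Lam * 20000 ≤ D := by nlinarith [mul_pos hB' (lt_of_lt_of_le one_pos hL)]
      have h4 := mul_le_mul_of_nonneg_left h3 hD0
      nlinarith
  linarith

theorem thm_Upp5 (hBernL : St_BernL) (hKSz : St_KSz) (hCrs : St_Crs) : St_Upp5 := by
  intro V κ ι A _ _ _ _ _ G D B N K Q c Pv lam Lam dec hL i a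
  obtain ⟨hlat, hdec, hsta, hB0, hL1, hBD, hcA, hdcd⟩ := hL
  obtain ⟨hks1, -⟩ := hKSz V κ ι G D B N K hlat hdec i
  obtain ⟨hcr1, -, hcr3⟩ := hCrs V κ ι G D B N K hlat hdec i
  have hB' : (0 : ℝ) < B := by exact_mod_cast hB0
  have hB1 : (1 : ℝ) ≤ B := by exact_mod_cast hB0
  have hLB : 1 * (1 : ℝ) ≤ B * Lam := mul_le_mul hB1 hL1 zero_le_one hB'.le
  have hBL : (B : ℝ) ≤ B * Lam := by nlinarith
  have hD0 : (0 : ℝ) ≤ D := Nat.cast_nonneg D
  -- the weights
  set d : V → ℕ := fun x => ((nb G x).filter (fun w => w ∈ K i)).card with hd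
  set f : V → A → ℝ := fun x b => if x ∉ K i ∧ dec x b = some a then (d x : ℝ) else 0 with hf
  have hf0 : ∀ x b, 0 ≤ f x b := by
    intro x b
    simp only [hf]
    split_ifs
    · exact Nat.cast_nonneg _
    · exact le_rfl
  have hfB : ∀ x b, f x b ≤ B := by
    intro x b
    simp only [hf]
    split_ifs with h
    · obtain ⟨j, hj⟩ := (Upp5_dec hdcd x a).2 b h.2
      exact_mod_cast hcr3 j x hj h.1
    · exact hB'.le
  have hrow : ∀ x, ∑ b, f x b ≤ if x ∉ K i then (d x : ℝ) else 0 := by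
    intro x
    by_cases hx : x ∉ K i
    · rw [if_pos hx]
      have e1 : ∀ b, f x b = if dec x b = some a then (d x : ℝ) else 0 := by
        intro b
        simp only [hf]
        by_cases hb : dec x b = some a
        · rw [if_pos ⟨hx, hb⟩, if_pos hb]
        · rw [if_neg (fun h => hb h.2), if_neg hb]
      rw [sum_congr rfl fun b _ => e1 b, ← sum_filter, sum_const, nsmul_eq_mul]
      have h1 : ((univ.filter (fun b => dec x b = some a)).card : ℝ) ≤ 1 := by
        exact_mod_cast (Upp5_dec hdcd x a).1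
      have h2 : (0 : ℝ) ≤ d x := Nat.cast_nonneg _
      nlinarith
    · rw [if_neg hx]
      apply le_of_eq
      apply sum_eq_zero
      intro b _
      simp only [hf]
      rw [if_neg (fun h => hx h.1)]
  have hKc : ((K i).card : ℝ) ≤ 2 * D := by
    have h1 : ((K i).card : ℝ) ≤ D + 1 + B := by exact_mod_cast hks1
    nlinarith
  have hS : ∑ x, ∑ b, f x b ≤ 2 * D * B := by
    calc ∑ x, ∑ b, f x b ≤ ∑ x, (if x ∉ K i then (d x : ℝ) else 0) :=
          sum_le_sum fun x _ => hrow x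
      _ = ((∑ x ∈ univ.filter (fun x => x ∉ K i), d x : ℕ) : ℝ) := by
          rw [← sum_filter, Nat.cast_sum]
      _ ≤ ((K i).card * B : ℕ) := by exact_mod_cast hcr1
      _ ≤ 2 * D * B := by
          push_cast
          exact mul_le_mul_of_nonneg_right hKc hB'.le
  have hsq : ∑ x, ∑ b, f x b ^ 2 ≤ (D * B / 5000) * Fintype.card A := by
    calc ∑ x, ∑ b, f x b ^ 2 ≤ ∑ x, ∑ b, B * f x b := by
          refine sum_le_sum fun x _ => sum_le_sum fun b _ => ?_
          rw [pow_two]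
          exact mul_le_mul_of_nonneg_right (hfB x b) (hf0 x b)
      _ = B * ∑ x, ∑ b, f x b := by
          rw [mul_sum]
          exact sum_congr rfl fun x _ => by rw [mul_sum]
      _ ≤ B * (2 * D * B) := mul_le_mul_of_nonneg_left hS hB'.le
      _ = (D * B / 5000) * Fintype.card A := by
          rw [hcA]
          push_cast
          ring
  have hcA' : (Fintype.card A : ℝ) = 10000 * (B : ℝ) := by
    rw [hcA]
    push_cast
    ring
  have hnum := Upp5_num hB0 hL1 hBD hcA' hS
  have hLW : Lam * (B : ℝ) ^ 2 ≤ D * B / 5000 := by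
    have h3 : (B : ℝ) * Lam * 5000 ≤ D := by nlinarith
    have h4 := mul_le_mul_of_nonneg_right h3 hB'.le
    nlinarith
  have hbern := hBernL V A f B (D * B / 5000) Lam hB' (by linarith) hLW
    (fun x b => by rw [abs_of_nonneg (hf0 x b)]; exact hfB x b) hsq
  refine le_trans ?_ hbern
  have hsub : univ.filter (fun ω : V → A => D < 2000 * ((K i).filter (fun w => ∃ x, x ∉ K i ∧
      G.Adj w x ∧ dec x (ω x) = some a)).card) ⊆
      univ.filter (fun ω : V → A => (∑ t, ∑ a, f t a) / Fintype.card A +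
        3 * Real.sqrt ((D * B / 5000) * Lam) ≤ ∑ t, f t (ω t)) := by
    intro ω hω
    rw [mem_filter] at hω ⊢
    refine ⟨hω.1, hnum.trans ?_⟩
    have h1 : ((K i).filter (fun w => ∃ x, x ∉ K i ∧ G.Adj w x ∧ dec x (ω x) = some a)).card ≤
        ∑ x ∈ univ.filter (fun x => x ∉ K i ∧ dec x (ω x) = some a), d x := by
      refine le_trans (card_le_card ?_) card_biUnion_le
      intro w hw
      obtain ⟨hwK, x, hx, hadj, hdx⟩ := mem_filter.1 hw
      refine mem_biUnion.2 ⟨x, mem_filter.2 ⟨mem_univ x, hx, hdx⟩, mem_filter.2 ⟨?_, hwK⟩⟩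
      exact (Upp5_mem_nb G x w).2 hadj.symm
    have h2 : ((∑ x ∈ univ.filter (fun x => x ∉ K i ∧ dec x (ω x) = some a), d x : ℕ) : ℝ) =
        ∑ t, f t (ω t) := by
      rw [Nat.cast_sum, sum_filter]
    have h3 : (D : ℝ) < 2000 * (((K i).filter (fun w => ∃ x, x ∉ K i ∧ G.Adj w x ∧
        dec x (ω x) = some a)).card : ℝ) := by exact_mod_cast hω.2
    have h4 : (((K i).filter (fun w => ∃ x, x ∉ K i ∧ G.Adj w x ∧
        dec x (ω x) = some a)).card : ℝ) ≤ ∑ t, f t (ω t) := by
      rw [← h2]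
      exact_mod_cast h1
    linarith
  exact_mod_cast card_le_card hsub

end Pool.TCT
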