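import Pool.Agent.Helper60.TCT.StB

/-!
# T9, UPP6: upper tail (t6)
-/

set_option autoImplicit false

namespace Pool.TCT

open Pool.TC Pool.TCM Pool.TCS Finset
open scoped Classical

theorem thm_Upp6 (hBernL : St_BernL) (hKSz : St_KSz) (hCrs : St_Crs) : St_Upp6 := by
  intro V κ ι A _ _ _ _ _ G D B N K Q c Pv lam Lam dec H i
  have hKs := (hKSz V κ ι G D B N K H.lat H.kdec i).1
  have hC := (hCrs V κ ι G D B N K H.lat H.kdec i).2.1
  have hB1 : (1 : ℝ) ≤ B := by exact_mod_cast H.B0
  have hB0 : (0 : ℝ) < B := by linarith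
  have hL0 : 0 < Lam := by linarith [H.L1]
  have hBL : (10 : ℝ) ^ 16 * Lam ≤ D := by
    refine le_trans ?_ H.BD
    have : (10 : ℝ) ^ 16 * Lam * 1 ≤ 10 ^ 16 * Lam * B :=
      mul_le_mul_of_nonneg_left hB1 (by positivity)
    linarith
  have hBD : (10 : ℝ) ^ 16 * B ≤ D := by
    refine le_trans ?_ H.BD
    have : (10 : ℝ) ^ 16 * B * 1 ≤ 10 ^ 16 * B * Lam :=
      mul_le_mul_of_nonneg_left H.L1 (by positivity)
    linarith
  have hD0 : (0 : ℝ) < D := lt_of_lt_of_le (by positivity) hBL
  have hcA : (Fintype.card A : ℝ) = 10000 * B := by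
    rw [H.cA]
    push_cast
    rfl
  obtain ⟨f, hf⟩ : ∃ f : V → A → ℝ, f = fun x b =>
    if x ∉ K i ∧ ∃ a, dec x b = some a ∧ N a x ∈ K i then (1 : ℝ) else 0 := ⟨_, rfl⟩
  have hf01 : ∀ x b, f x b ^ 2 = f x b := by
    intro x b
    rw [hf]
    dsimp only
    split_ifs <;> norm_num
  have hfa : ∀ x b, |f x b| ≤ 1 := by
    intro x b
    rw [hf]
    dsimp only
    split_ifs <;> norm_num
  -- the letters at one vertex
  have hrow : ∀ x, ∑ b, f x b ≤ if x ∉ K i then
      ((univ.filter (fun a => N a x ∈ K i)).card : ℝ) else 0 := by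
    intro x
    by_cases hx : x ∈ K i
    · rw [if_neg (not_not.2 hx), hf]
      dsimp only
      rw [sum_eq_zero]
      intro b _
      rw [if_neg (fun h => h.1 hx)]
    · rw [if_pos hx, hf]
      dsimp only
      rw [← sum_filter, sum_const, nsmul_eq_mul, mul_one]
      have h1 : (univ.filter (fun b => x ∉ K i ∧ ∃ a, dec x b = some a ∧ N a x ∈ K i)).card ≤
          (univ.filter (fun a => N a x ∈ K i)).card := by
        apply card_le_card_of_injOn (fun b => (dec x b).getD (c x))
        · intro b hb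
          simp only [coe_filter, mem_univ, true_and, Set.mem_ofPred_eq] at hb ⊢
          obtain ⟨-, a, ha, hN⟩ := hb
          rw [ha, Option.getD_some]
          exact hN
        · intro b hb b' hb' hbb
          simp only [coe_filter, mem_univ, true_and, Set.mem_ofPred_eq] at hb hb'
          obtain ⟨-, a, ha, -⟩ := hb
          obtain ⟨-, a', ha', -⟩ := hb'
          simp only [ha, ha', Option.getD_some] at hbb
          subst hbb
          have h2 := H.dcd x a
          have h3 : (univ.filter (fun b => dec x b = some a)).card ≤ 1 := by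
            rw [h2]
            split_ifs <;> omega
          exact card_le_one.1 h3 b (by simp [ha]) b' (by simp [ha'])
      exact_mod_cast h1
  have hsum : ∑ x, ∑ b, f x b ≤ 2 * D * B := by
    calc ∑ x, ∑ b, f x b ≤ ∑ x, (if x ∉ K i then
          ((univ.filter (fun a => N a x ∈ K i)).card : ℝ) else 0) := sum_le_sum fun x _ => hrow x
      _ = ((∑ x ∈ univ.filter (fun x => x ∉ K i),
          (univ.filter (fun a => N a x ∈ K i)).card : ℕ) : ℝ) := by
          push_cast
          rw [sum_filter]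
      _ ≤ (((K i).card * B : ℕ) : ℝ) := by exact_mod_cast hC
      _ = ((K i).card : ℝ) * B := by push_cast; rfl
      _ ≤ (2 * D) * B := by
          apply mul_le_mul_of_nonneg_right _ hB0.le
          have h1 : ((K i).card : ℝ) ≤ D + 1 + B := by exact_mod_cast hKs
          linarith
  have hsum2 : ∑ x, ∑ b, f x b ^ 2 ≤ (D : ℝ) / 5000 * Fintype.card A := by
    have h1 : ∑ x, ∑ b, f x b ^ 2 = ∑ x, ∑ b, f x b :=
      sum_congr rfl fun x _ => sum_congr rfl fun b _ => hf01 x b
    rw [h1, hcA]
    refine hsum.trans (le_of_eq ?_)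
    ring
  have hW : Lam * 1 ^ 2 ≤ (D : ℝ) / 5000 := by
    rw [le_div_iff₀ (by norm_num)]
    linarith
  have hb := hBernL V A f 1 ((D : ℝ) / 5000) Lam one_pos hL0 hW hfa hsum2
  refine le_trans ?_ hb
  have hsub : (univ.filter (fun ω : V → A => D < 2000 * ((K i).filter (fun v => ∃ x a, x ∉ K i ∧
      dec x (ω x) = some a ∧ N a x = v)).card)) ⊆ univ.filter (fun ω : V → A =>
      (∑ t, ∑ a, f t a) / Fintype.card A + 3 * Real.sqrt ((D : ℝ) / 5000 * Lam) ≤
        ∑ t, f t (ω t)) := by
    intro ω hω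
    rw [mem_filter] at hω ⊢
    refine ⟨mem_univ _, ?_⟩
    have h1 : (∑ t, ∑ a, f t a) / Fintype.card A ≤ (D : ℝ) / 5000 := by
      rw [hcA, div_le_div_iff₀ (by positivity) (by norm_num)]
      linarith
    have h2 : Real.sqrt ((D : ℝ) / 5000 * Lam) ≤ D / 10 ^ 4 := by
      rw [Real.sqrt_le_left (by positivity)]
      have h3 : (20000 : ℝ) * Lam ≤ D := by linarith
      have h4 := mul_le_mul_of_nonneg_left h3 hD0.le
      have h5 : ((D : ℝ) / 10 ^ 4) ^ 2 = D * D / 10 ^ 8 := by ring
      rw [h5]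
      linarith
    have h3 : (D : ℝ) < 2000 * (((K i).filter (fun v => ∃ x a, x ∉ K i ∧
        dec x (ω x) = some a ∧ N a x = v)).card : ℝ) := by exact_mod_cast hω.2
    have h4 : (((K i).filter (fun v => ∃ x a, x ∉ K i ∧
        dec x (ω x) = some a ∧ N a x = v)).card : ℝ) ≤ ∑ t, f t (ω t) := by
      have h5 : ∑ t, f t (ω t) = ((univ.filter (fun x => x ∉ K i ∧
          ∃ a, dec x (ω x) = some a ∧ N a x ∈ K i)).card : ℝ) := by
        rw [hf]
        dsimp only
        rw [← sum_filter, sum_const, nsmul_eq_mul, mul_one]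
      rw [h5]
      have h6 : (K i).filter (fun v => ∃ x a, x ∉ K i ∧ dec x (ω x) = some a ∧ N a x = v) ⊆
          (univ.filter (fun x => x ∉ K i ∧ ∃ a, dec x (ω x) = some a ∧ N a x ∈ K i)).image
            (fun x => N ((dec x (ω x)).getD (c x)) x) := by
        intro v hv
        rw [mem_filter] at hv
        obtain ⟨hvK, x, a, hx, hd, hN⟩ := hv
        rw [mem_image]
        refine ⟨x, ?_, ?_⟩
        · rw [mem_filter]
          exact ⟨mem_univ _, hx, a, hd, by rw [hN]; exact hvK⟩
        · rw [hd, Option.getD_some, hN]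
      have h7 := (card_le_card h6).trans card_image_le
      exact_mod_cast h7
    linarith
  exact_mod_cast card_le_card hsub

end Pool.TCT
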