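import Pool.Agent.Helper60.TCT.StD

/-!
# T9, block FIN9: few conflicts (`St_CnF`)
-/

set_option autoImplicit false

namespace Pool.TCT

open Pool.TC Pool.TCM Pool.TCS Finset
open scoped Classical

section

variable {V κ ι : Type} [Fintype V] [Fintype κ] {G : SimpleGraph V} {D B : ℕ} {N : κ → V → V}
  {K : ι → Finset V} {Q : Finset κ} {C Y Ld : Finset V} {Qa : ι → Finset κ} {c α : V → κ}

/-- the options which are in conflict with a fixed option -/
noncomputable def CnF_set (G : SimpleGraph V) (N : κ → V → V) (K : ι → Finset V)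
    (C Y Ld : Finset V) (c α : V → κ) (P : V → V → Prop) : Finset (V × V) :=
  univ.filter fun p => (∃ j, IsOp G N K C Y Ld c α j p.1 p.2) ∧ P p.1 p.2

omit [Fintype κ] in
lemma CnF_mem (P : V → V → Prop) (p : V × V) : p ∈ CnF_set G N K C Y Ld c α P ↔
    (∃ j, IsOp G N K C Y Ld c α j p.1 p.2) ∧ P p.1 p.2 := by
  unfold CnF_set
  rw [Finset.mem_filter]
  exact ⟨fun h => h.2, fun h => ⟨Finset.mem_univ _, h⟩⟩

lemma CnF_yinj (h : H9 G D B N K Q C Y Ld Qa c) {j : ι} {w w' : V} (hw : w ∈ Y) (hwK : w ∈ K j)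
    (hw' : w' ∈ Y) (hwK' : w' ∈ K j) (hc : c w = c w') : w = w' := by
  by_contra hne
  exact h.yne j w hw hwK w' hwK' (h.yC w' hw').1 (Ne.symm hne) hc.symm

omit [Fintype κ] in
/-- the first component determines the option, and the index is `i` -/
lemma CnF_left (P : V → V → Prop) (i : ι)
    (h1 : ∀ j u' w', IsOp G N K C Y Ld c α j u' w' → P u' w' → i = j)
    (h2 : ∀ u' w' w'', IsOp G N K C Y Ld c α i u' w' → IsOp G N K C Y Ld c α i u' w'' →
      P u' w' → P u' w'' → w' = w'') :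
    (CnF_set G N K C Y Ld c α P).card ≤ (K i \ C).card := by
  refine Finset.card_le_card_of_injOn Prod.fst ?_ ?_
  · intro p hp
    obtain ⟨⟨j, hj⟩, hP⟩ := (CnF_mem _ _).mp (Finset.mem_coe.mp hp)
    obtain rfl := h1 j _ _ hj hP
    exact Finset.mem_sdiff.mpr ⟨hj.uK, hj.uC⟩
  · intro p hp q hq hpq
    obtain ⟨⟨j, hj⟩, hP⟩ := (CnF_mem _ _).mp (Finset.mem_coe.mp hp)
    obtain ⟨⟨j', hj'⟩, hQ⟩ := (CnF_mem _ _).mp (Finset.mem_coe.mp hq)
    obtain rfl := h1 j _ _ hj hP
    obtain rfl := h1 j' _ _ hj' hQ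
    obtain ⟨p1, p2⟩ := p
    obtain ⟨q1, q2⟩ := q
    simp only at hpq
    subst hpq
    rw [h2 p1 p2 q2 hj hj' hP hQ]

theorem CnF_main [Fintype ι] (h : H9 G D B N K Q C Y Ld Qa c) (ha : Prg D N K C Y Qa c α) (i : ι) (u w : V)
    (hu : IsOp G N K C Y Ld c α i u w) :
    ((univ : Finset (V × V)).filter (fun p => (∃ j, IsOp G N K C Y Ld c α j p.1 p.2) ∧
      CF G N K c α u w p.1 p.2)).card ≤ 5 * (K i \ C).card + 2 * B := by
  have c1 : (CnF_set G N K C Y Ld c α fun _ w' => w = w').card ≤ (K i \ C).card := by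
    refine CnF_left _ i (fun j u' w' hj e => ?_) (fun u' w' w'' _ _ e e' => e.symm.trans e')
    subst e
    exact h.kdec.disj i j w hu.wK hj.wK
  have c2 : (CnF_set G N K C Y Ld c α fun u' w' => N (c w) u = N (c w') u').card ≤
      (K i \ C).card := by
    refine CnF_left _ i (fun j u' w' hj e => ?_) (fun u' w' w'' hj hj' e e' => ?_)
    · exact h.kdec.disj i j _ hu.o2.1 (e ▸ hj.o2.1)
    · exact CnF_yinj h hj.wY hj.wK hj'.wY hj'.wK (h.lat.inj u' _ _ (e.symm.trans e'))
  have c3 : (CnF_set G N K C Y Ld c α fun u' w' => N (α u) w = N (α u') w').card ≤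
      (K i \ C).card := by
    refine CnF_left _ i (fun j u' w' hj e => ?_) (fun u' w' w'' hj hj' e e' => ?_)
    · exact h.kdec.disj i j _ hu.o4.1 (e ▸ hj.o4.1)
    · have h1 := congrArg (N (α u')) (e.symm.trans e')
      rwa [h.lat.inv, h.lat.inv] at h1
  have c4 : (CnF_set G N K C Y Ld c α fun u' w' => N (c w) u = N (α u') w').card ≤
      (K i \ C).card := by
    refine CnF_left _ i (fun j u' w' hj e => ?_) (fun u' w' w'' hj hj' e e' => ?_)
    · exact h.kdec.disj i j _ hu.o2.1 (e ▸ hj.o4.1)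
    · have h1 := congrArg (N (α u')) (e.symm.trans e')
      rwa [h.lat.inv, h.lat.inv] at h1
  have c5 : (CnF_set G N K C Y Ld c α fun u' w' => N (α u) w = N (c w') u').card ≤
      (K i \ C).card := by
    refine CnF_left _ i (fun j u' w' hj e => ?_) (fun u' w' w'' hj hj' e e' => ?_)
    · exact h.kdec.disj i j _ hu.o4.1 (e ▸ hj.o2.1)
    · exact CnF_yinj h hj.wY hj.wK hj'.wY hj'.wK (h.lat.inj u' _ _ (e.symm.trans e'))
  have c6 : (CnF_set G N K C Y Ld c α fun u' w' =>
      G.Adj u u' ∧ (∀ i, u ∈ K i → u' ∉ K i) ∧ c w = c w').card ≤ B := by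
    refine le_trans ?_ (h.kdec.out i u hu.uK)
    refine Finset.card_le_card_of_injOn Prod.fst ?_ ?_
    · intro p hp
      obtain ⟨_, hadj, hK, _⟩ := (CnF_mem _ _).mp (Finset.mem_coe.mp hp)
      exact Finset.mem_sdiff.mpr ⟨Finset.mem_filter.mpr ⟨Finset.mem_univ _, hadj⟩, hK i hu.uK⟩
    · intro p hp q hq hpq
      obtain ⟨⟨j, hj⟩, _, _, e⟩ := (CnF_mem _ _).mp (Finset.mem_coe.mp hp)
      obtain ⟨⟨j', hj'⟩, _, _, e'⟩ := (CnF_mem _ _).mp (Finset.mem_coe.mp hq)
      obtain ⟨p1, p2⟩ := p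
      obtain ⟨q1, q2⟩ := q
      simp only at hpq hj hj' e e'
      subst hpq
      obtain rfl := h.kdec.disj j j' p1 hj.uK hj'.uK
      rw [CnF_yinj h hj.wY hj.wK hj'.wY hj'.wK (e.symm.trans e')]
  have c7 : (CnF_set G N K C Y Ld c α fun u' w' =>
      G.Adj w w' ∧ (∀ i, w ∈ K i → w' ∉ K i) ∧ α u = α u').card ≤ B := by
    refine le_trans ?_ (h.kdec.out i w hu.wK)
    refine Finset.card_le_card_of_injOn Prod.snd ?_ ?_
    · intro p hp
      obtain ⟨_, hadj, hK, _⟩ := (CnF_mem _ _).mp (Finset.mem_coe.mp hp)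
      exact Finset.mem_sdiff.mpr ⟨Finset.mem_filter.mpr ⟨Finset.mem_univ _, hadj⟩, hK i hu.wK⟩
    · intro p hp q hq hpq
      obtain ⟨⟨j, hj⟩, _, _, e⟩ := (CnF_mem _ _).mp (Finset.mem_coe.mp hp)
      obtain ⟨⟨j', hj'⟩, _, _, e'⟩ := (CnF_mem _ _).mp (Finset.mem_coe.mp hq)
      obtain ⟨p1, p2⟩ := p
      obtain ⟨q1, q2⟩ := q
      simp only at hpq hj hj' e e'
      subst hpq
      obtain rfl := h.kdec.disj j j' p2 hj.wK hj'.wK
      rw [ha.inj j p1 hj.uK q1 hj'.uK hj.uC hj'.uC (e.symm.trans e')]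
  have hsub : ((univ : Finset (V × V)).filter (fun p => (∃ j, IsOp G N K C Y Ld c α j p.1 p.2) ∧
      CF G N K c α u w p.1 p.2)) ⊆
      (CnF_set G N K C Y Ld c α fun _ w' => w = w') ∪
      ((CnF_set G N K C Y Ld c α fun u' w' => N (c w) u = N (c w') u') ∪
      ((CnF_set G N K C Y Ld c α fun u' w' => N (α u) w = N (α u') w') ∪
      ((CnF_set G N K C Y Ld c α fun u' w' => N (c w) u = N (α u') w') ∪
      ((CnF_set G N K C Y Ld c α fun u' w' => N (α u) w = N (c w') u') ∪
      ((CnF_set G N K C Y Ld c α fun u' w' =>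
        G.Adj u u' ∧ (∀ i, u ∈ K i → u' ∉ K i) ∧ c w = c w') ∪
      (CnF_set G N K C Y Ld c α fun u' w' =>
        G.Adj w w' ∧ (∀ i, w ∈ K i → w' ∉ K i) ∧ α u = α u')))))) := by
    intro p hp
    obtain ⟨hj, _, hc⟩ := (Finset.mem_filter.mp hp).2
    have key : ∀ P : V → V → Prop, P p.1 p.2 → p ∈ CnF_set G N K C Y Ld c α P := fun P hP =>
      (CnF_mem _ _).mpr ⟨hj, hP⟩
    rcases hc with e | e | e | e | e | e | e
    · exact Finset.mem_union_left _ (key _ e)
    · exact Finset.mem_union_right _ (Finset.mem_union_left _ (key _ e))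
    · exact Finset.mem_union_right _ (Finset.mem_union_right _ (Finset.mem_union_left _ (key _ e)))
    · exact Finset.mem_union_right _ (Finset.mem_union_right _ (Finset.mem_union_right _
        (Finset.mem_union_left _ (key _ e))))
    · exact Finset.mem_union_right _ (Finset.mem_union_right _ (Finset.mem_union_right _
        (Finset.mem_union_right _ (Finset.mem_union_left _ (key _ e)))))
    · exact Finset.mem_union_right _ (Finset.mem_union_right _ (Finset.mem_union_right _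
        (Finset.mem_union_right _ (Finset.mem_union_right _ (Finset.mem_union_left _ (key _ e))))))
    · exact Finset.mem_union_right _ (Finset.mem_union_right _ (Finset.mem_union_right _
        (Finset.mem_union_right _ (Finset.mem_union_right _ (Finset.mem_union_right _
          (key _ e))))))
  have hcard := Finset.card_le_card hsub
  refine hcard.trans ?_
  refine (Finset.card_union_le _ _).trans ?_
  have e2 := Finset.card_union_le
    (CnF_set G N K C Y Ld c α fun u' w' => N (c w) u = N (c w') u')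
    ((CnF_set G N K C Y Ld c α fun u' w' => N (α u) w = N (α u') w') ∪
      ((CnF_set G N K C Y Ld c α fun u' w' => N (c w) u = N (α u') w') ∪
      ((CnF_set G N K C Y Ld c α fun u' w' => N (α u) w = N (c w') u') ∪
      ((CnF_set G N K C Y Ld c α fun u' w' =>
        G.Adj u u' ∧ (∀ i, u ∈ K i → u' ∉ K i) ∧ c w = c w') ∪
      (CnF_set G N K C Y Ld c α fun u' w' =>
        G.Adj w w' ∧ (∀ i, w ∈ K i → w' ∉ K i) ∧ α u = α u')))))
  have e3 := Finset.card_union_le
    (CnF_set G N K C Y Ld c α fun u' w' => N (α u) w = N (α u') w')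
      ((CnF_set G N K C Y Ld c α fun u' w' => N (c w) u = N (α u') w') ∪
      ((CnF_set G N K C Y Ld c α fun u' w' => N (α u) w = N (c w') u') ∪
      ((CnF_set G N K C Y Ld c α fun u' w' =>
        G.Adj u u' ∧ (∀ i, u ∈ K i → u' ∉ K i) ∧ c w = c w') ∪
      (CnF_set G N K C Y Ld c α fun u' w' =>
        G.Adj w w' ∧ (∀ i, w ∈ K i → w' ∉ K i) ∧ α u = α u'))))
  have e4 := Finset.card_union_le
      (CnF_set G N K C Y Ld c α fun u' w' => N (c w) u = N (α u') w')
      ((CnF_set G N K C Y Ld c α fun u' w' => N (α u) w = N (c w') u') ∪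
      ((CnF_set G N K C Y Ld c α fun u' w' =>
        G.Adj u u' ∧ (∀ i, u ∈ K i → u' ∉ K i) ∧ c w = c w') ∪
      (CnF_set G N K C Y Ld c α fun u' w' =>
        G.Adj w w' ∧ (∀ i, w ∈ K i → w' ∉ K i) ∧ α u = α u')))
  have e5 := Finset.card_union_le
      (CnF_set G N K C Y Ld c α fun u' w' => N (α u) w = N (c w') u')
      ((CnF_set G N K C Y Ld c α fun u' w' =>
        G.Adj u u' ∧ (∀ i, u ∈ K i → u' ∉ K i) ∧ c w = c w') ∪
      (CnF_set G N K C Y Ld c α fun u' w' =>
        G.Adj w w' ∧ (∀ i, w ∈ K i → w' ∉ K i) ∧ α u = α u'))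
  have e6 := Finset.card_union_le
      (CnF_set G N K C Y Ld c α fun u' w' =>
        G.Adj u u' ∧ (∀ i, u ∈ K i → u' ∉ K i) ∧ c w = c w')
      (CnF_set G N K C Y Ld c α fun u' w' =>
        G.Adj w w' ∧ (∀ i, w ∈ K i → w' ∉ K i) ∧ α u = α u')
  omega

end

theorem thm_CnF : St_CnF := by
  intro V κ ι _ _ _ G D B N K Q C Y Ld Qa c α h ha i u w hu
  have h1 := CnF_main h ha i u w hu
  have h2 := (h.crd i).1
  have h3 := (h.crd i).2.2
  refine (Nat.mul_le_mul_left 25 h1).trans ?_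
  omega

end Pool.TCT
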