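import Pool.Agent.Helper60.TCT.StB

/-!
# T9, module Upp3: the upper bound (t3) (helper55)
-/

set_option autoImplicit false

namespace Pool.TCT

open Pool.TC Pool.TCM Pool.TCS Finset
open scoped Classical

/-- arithmetic of the deviation -/
theorem Upp3_arith {D B Lam M m F : ℝ} (hB : 1 ≤ B) (hL : 1 ≤ Lam)
    (hD : 10 ^ 16 * B * Lam ≤ D) (hF : F ≤ M) (h : M + D / 10 < 10000 * B * m) :
    F / (10000 * B) + 3 * Real.sqrt (2 * D / (10000 * B) * Lam) ≤ m := by
  have hB0 : 0 < B := by linarith
  have hBL : 0 < B * Lam := by positivity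
  have hD0 : 0 < D := by nlinarith
  have hs : Real.sqrt (2 * D / (10000 * B) * Lam) ≤ D / (300000 * B) := by
    refine Real.sqrt_le_iff.2 ⟨by positivity, ?_⟩
    rw [div_mul_eq_mul_div, div_pow, div_le_div_iff₀ (by positivity) (by positivity)]
    have h1 : 18000000 * (B * Lam) ≤ D := by nlinarith
    have h2 : 0 ≤ D * B := by positivity
    have h3 := mul_le_mul_of_nonneg_left h1 h2
    nlinarith
  have hmul : 0 < 10000 * B := by positivity
  have h4 : F / (10000 * B) ≤ M / (10000 * B) := div_le_div_of_nonneg_right hF hmul.le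
  have h5 : M / (10000 * B) + D / 10 / (10000 * B) < m := by
    rw [← add_div, div_lt_iff₀ hmul]
    linarith
  have h6 : 3 * (D / (300000 * B)) = D / 10 / (10000 * B) := by
    field_simp
    norm_num
  linarith

theorem thm_Upp3 (hBernL : St_BernL) (hKSz : St_KSz) : St_Upp3 := by
  intro V κ ι A _ _ _ _ _ G D B N K Q c Pv lam Lam dec hL i a
  have hB1 : (1 : ℝ) ≤ B := by exact_mod_cast hL.B0
  have hB0 : (0 : ℝ) < B := by linarith
  have hL1 := hL.L1
  have hBD := hL.BD
  have hcA : (Fintype.card A : ℝ) = 10000 * B := by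
    rw [hL.cA]
    push_cast
    ring
  have hDB : (1 : ℝ) + B ≤ D := by
    have h1 : (B : ℝ) * 1 ≤ B * Lam := mul_le_mul_of_nonneg_left hL1 hB0.le
    nlinarith
  have hWc : ((Wa G K Pv c i a).card : ℝ) ≤ 2 * D := by
    have h1 : (Wa G K Pv c i a).card ≤ (K i).card := by
      apply Finset.card_le_card
      intro w hw
      unfold Wa at hw
      exact (Finset.mem_sdiff.1 (Finset.mem_filter.1 hw).1).1
    have h2 := (hKSz V κ ι G D B N K hL.lat hL.kdec i).1
    have h3 : ((Wa G K Pv c i a).card : ℝ) ≤ (D + 1 + B : ℕ) := by exact_mod_cast h1.trans h2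
    push_cast at h3
    linarith
  obtain ⟨f, hf⟩ : ∃ f : V → A → ℝ, ∀ w b, f w b =
      if w ∈ Wa G K Pv c i a ∧ dec w b = some a then 1 else 0 := ⟨_, fun _ _ => rfl⟩
  have hf2 : ∀ w b, f w b ^ 2 = f w b := by
    intro w b
    rw [hf]
    split_ifs <;> norm_num
  have hsum : ∀ w, ∑ b, f w b ≤ if w ∈ Wa G K Pv c i a then 1 else 0 := by
    intro w
    by_cases hw : w ∈ Wa G K Pv c i a
    · rw [if_pos hw]
      have h1 : ∑ b, f w b = ((univ.filter (fun b => dec w b = some a)).card : ℝ) := by
        rw [Finset.card_filter]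
        push_cast
        refine Finset.sum_congr rfl fun b _ => ?_
        rw [hf]
        by_cases hb : dec w b = some a
        · rw [if_pos ⟨hw, hb⟩, if_pos hb]
        · rw [if_neg fun h => hb h.2, if_neg hb]
      rw [h1, hL.dcd w a]
      split_ifs <;> norm_num
    · rw [if_neg hw]
      apply le_of_eq
      refine Finset.sum_eq_zero fun b _ => ?_
      rw [hf, if_neg fun h => hw h.1]
  have htot : ∑ w, ∑ b, f w b ≤ ((Wa G K Pv c i a).card : ℝ) := by
    refine (Finset.sum_le_sum fun w _ => hsum w).trans (le_of_eq ?_)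
    rw [← Finset.sum_filter, Finset.sum_const, nsmul_eq_mul, mul_one]
    congr 2
    ext w
    rw [Finset.mem_filter]
    exact ⟨fun h => h.2, fun h => ⟨Finset.mem_univ w, h⟩⟩
  have key := hBernL V A f 1 (2 * D / (10000 * B)) Lam zero_lt_one (by linarith) (by
      rw [one_pow, mul_one, le_div_iff₀ (by positivity)]
      nlinarith [mul_pos hB0 (lt_of_lt_of_le zero_lt_one hL1)]) (by
      intro w b
      rw [hf]
      split_ifs
      · rw [abs_one]
      · rw [abs_zero]
        exact zero_le_one) (by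
      have h1 : ∑ w, ∑ b, f w b ^ 2 = ∑ w, ∑ b, f w b :=
        Finset.sum_congr rfl fun w _ => Finset.sum_congr rfl fun b _ => hf2 w b
      rw [h1, hcA, div_mul_cancel₀ _ (by positivity)]
      linarith)
  refine le_trans ?_ key
  have hsub : (univ.filter (fun ω : V → A => ((Wa G K Pv c i a).card : ℝ) + (D : ℝ) / 10 <
      10000 * (B : ℝ) * ((Wa G K Pv c i a).filter (fun w => dec w (ω w) = some a)).card)) ⊆
      univ.filter (fun ω : V → A => (∑ t, ∑ a, f t a) / Fintype.card A +
        3 * Real.sqrt (2 * D / (10000 * B) * Lam) ≤ ∑ t, f t (ω t)) := by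
    intro ω hω
    rw [Finset.mem_filter] at hω ⊢
    refine ⟨Finset.mem_univ ω, ?_⟩
    have h1 : ∑ t, f t (ω t) =
        (((Wa G K Pv c i a).filter (fun w => dec w (ω w) = some a)).card : ℝ) := by
      have h2 : (Wa G K Pv c i a).filter (fun w => dec w (ω w) = some a) =
          univ.filter (fun w => w ∈ Wa G K Pv c i a ∧ dec w (ω w) = some a) := by
        ext w
        rw [Finset.mem_filter, Finset.mem_filter]
        exact ⟨fun h => ⟨Finset.mem_univ w, h⟩, fun h => h.2⟩
      rw [h2, Finset.card_filter]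
      push_cast
      refine Finset.sum_congr rfl fun w _ => ?_
      rw [hf]
    rw [h1, hcA]
    exact Upp3_arith hB1 hL1 hBD htot hω.2
  exact_mod_cast Finset.card_le_card hsub

end Pool.TCT
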