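import Pool.Agent.Helper3.TCS.LLL0
import Pool.Agent.Helper3.TCT.BernL
import Pool.Agent.Helper3.TCT.Thin
import Pool.Agent.Helper3.TCT.Pai
import Pool.Agent.Helper60.TCT.Lab
import Pool.Agent.Helper60.TCT.LowP
import Pool.Agent.Helper60.TCT.Upp3
import Pool.Agent.Helper60.TCT.Upp4
import Pool.Agent.Helper60.TCT.Upp5
import Pool.Agent.Helper60.TCT.Upp6
import Pool.Agent.Helper60.TCT.LLK
import Pool.Agent.Helper60.TCT.Dcx
import Pool.Agent.Helper60.TCT.PbC
import Pool.Agent.Helper60.TCT.KSz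
import Pool.Agent.Helper60.TCT.Crs
import Pool.Agent.Helper60.TCT.HallB
import Pool.Agent.Helper60.TCT.Dum
import Pool.Agent.Helper60.TCT.Loa
import Pool.Agent.Helper60.TCT.Frc
import Pool.Agent.Helper60.TCT.Prb
import Pool.Agent.Helper60.TCT.PaiF
import Pool.Agent.Helper60.TCT.OpF
import Pool.Agent.Helper60.TCT.CnF
import Pool.Agent.Helper60.TCT.TrF
import Pool.Agent.Helper60.TCT.FPr
import Pool.Agent.Helper60.TCT.FLd
import Pool.Agent.Helper60.TCT.Fin9

/-!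
# T9, blocks LAB, PRB, FIN9: all parts together
-/

set_option autoImplicit false

namespace Pool.TCT

theorem all_PbC : St_PbC := thm_PbC thm_KSz

theorem all_Lab : St_Lab :=
  thm_Lab all_PbC (thm_Dcx all_PbC) (thm_LowP (thm_Thin thm_BernL))
    (thm_Upp3 thm_BernL thm_KSz) (thm_Upp4 thm_BernL) (thm_Upp5 thm_BernL thm_KSz thm_Crs)
    (thm_Upp6 thm_BernL thm_KSz thm_Crs) (thm_LLK Pool.TCS.thm_LLL0 thm_KSz)

theorem all_Prb : St_Prb :=
  thm_Prb (thm_Frc all_PbC thm_HallB thm_Dum (thm_Loa all_PbC))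

theorem all_Fin9 : St_Fin9 :=
  thm_Fin9 (thm_PaiF thm_Pai) (thm_TrF thm_OpF thm_CnF) thm_FPr thm_FLd

end Pool.TCT
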