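import Pool.Agent.Helper3.TCT.Defs

/-!
# T9, blocks LAB and PRB: statements of the parts, with proofs in the comments (helper60)

Paper proof: `TC9_helper3.md`, section 3b. Everything is stated with the definitions of
`Helper3/TCT/Defs.lean`.
-/

set_option autoImplicit false

namespace Pool.TCT

open Pool.TC Pool.TCM Pool.TCS Finset
open scoped Classical

section defs

variable {V κ ι A : Type} [Fintype V] [Fintype κ]

/-- the possible labels of `w` -/
noncomputable def PP (G : SimpleGraph V) (D : ℕ) (N : κ → V → V) (K : ι → Finset V)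
    (Pv : Finset V) (c : V → κ) (w : V) : Finset κ :=
  univ.filter (fun a => ∃ i, w ∈ K i ∧ w ∉ Pv ∧ a ∈ Pb G D N K Pv c i)

/-- `dec w` decodes the letters as labels of `w`: every possible label has exactly one letter, no
letter means another colour (`none`: no label) -/
def Dcd [Fintype A] (G : SimpleGraph V) (D : ℕ) (N : κ → V → V) (K : ι → Finset V)
    (Pv : Finset V) (c : V → κ) (dec : V → A → Option κ) : Prop :=
  ∀ w a, (univ.filter (fun b => dec w b = some a)).card =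
    if a ∈ PP G D N K Pv c w then 1 else 0

/-- the label of `w` (`c w` if there is none) -/
noncomputable def Lb (c : V → κ) (dec : V → A → Option κ) (ω : V → A) (w : V) : κ :=
  (dec w (ω w)).getD (c w)

/-- the vertices with an unblocked label which is not the label of a neighbour outside of the
near-clique of the vertex -/
noncomputable def On (G : SimpleGraph V) (K : ι → Finset V) (Pv : Finset V) (c : V → κ)
    (dec : V → A → Option κ) (ω : V → A) : Finset V :=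
  univ.filter (fun w => ∃ a, dec w (ω w) = some a ∧ ¬ blk G K Pv c a w ∧
    ∀ x, G.Adj w x → (∀ i, w ∈ K i → x ∉ K i) → dec x (ω x) ≠ some a)

/-- the hypotheses of the lottery -/
structure Ltt [Fintype A] (G : SimpleGraph V) (D B : ℕ) (N : κ → V → V) (K : ι → Finset V)
    (Q : Finset κ) (c : V → κ) (Pv : Finset V) (lam : ι → ℕ) (Lam : ℝ)
    (dec : V → A → Option κ) : Prop where
  lat : Lat G D N
  kdec : Dec G B K
  sta : Sta G D B N K Q c Pv lam
  B0 : 0 < B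
  L1 : 1 ≤ Lam
  BD : 10 ^ 16 * (B : ℝ) * Lam ≤ D
  cA : Fintype.card A = 10000 * B
  dcd : Dcd G D N K Pv c dec

end defs

/-! ### Counting -/

/-- KSZ. Sizes of the near-cliques.

Proof. `K i` is not empty, let `w ∈ K i`. `K i ⊆ insert w (nb G w) ∪ (K i \ insert w (nb G w))`, so
`(K i).card ≤ (D + 1) + B` (`Dec.inn`). `insert w (nb G w) ⊆ K i ∪ (nb G w \ K i)` and
`(insert w (nb G w)).card = D + 1` (`w ∉ nb G w`: `nb G w` is the set of neighbours of `w`), so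
`D + 1 ≤ (K i).card + B` (`Dec.out`). -/
def St_KSz : Prop := ∀ (V κ ι : Type) [Fintype V] [Fintype κ] (G : SimpleGraph V) (D B : ℕ)
  (N : κ → V → V) (K : ι → Finset V), Lat G D N → Dec G B K →
  ∀ i, (K i).card ≤ D + 1 + B ∧ D + 1 ≤ (K i).card + B

/-- PBC. Few problem colours.

Proof. Let `w ∈ K i`.
(1) For a colour `a ∈ av i` with `blk G K Pv c a w` choose `x` with `G.Adj w x`, `Cs K Pv x`,
`c x = a`. Then `x ∉ K i`: if `x ∈ K i` then `Cs K Pv x` gives `x ∈ Pv`, and `a ∈ av i` says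
`c x ≠ a`. So `x ∈ nb G w \ K i`, and `a ↦ x` is injective because `c x = a`.
(2) For `a` with `N a w ∉ K i` we have `N a w ≠ w`, so `N a w ∈ nb G w \ K i` (`Lat.sub`);
`a ↦ N a w` is injective (`Lat.inj`); use `Dec.out`.
(3) For `a ∈ Pb i` let `n_a` be the cardinality in the definition of `Pb`, `D < 2000 * n_a`.
`D * (Pb i).card ≤ 2000 * ∑_{a ∈ Pb i} n_a`, and by double counting
`∑_{a ∈ Pb i} n_a ≤ ∑_{w ∈ K i \ Pv} (#{a ∈ av i : blk a w} + #{a : N a w ∉ K i}) ≤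
(K i).card * (2 * B)` by (1), (2) and `Dec.out`. By `KSZ`
`D * (Pb i).card ≤ 4000 * B * (D + 1 + B) ≤ D * (4400 * B)`, because `10 * (1 + B) ≤ D`. Divide by
`D > 0`.
(4) `∑_{a ∈ Pb i} ((K i \ Pv).card - (Wa i a).card) = ∑_{a ∈ Pb i} #{w ∈ K i \ Pv : blk a w} =
∑_{w ∈ K i \ Pv} #{a ∈ Pb i : blk a w} ≤ ∑_{w ∈ K i \ Pv} (nb G w \ K i).card ≤
(K i \ Pv).card * lam i` by (1) and `Sta.spare`.
(5) `(K i \ Pv).card + (K i ∩ Pv).card = (K i).card`, `Sta.few` and `KSZ`: `D + 1 ≤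
(K i \ Pv).card + 9 * B` and `(K i \ Pv).card ≤ D + 1 + B`. -/
def St_PbC : Prop := ∀ (V κ ι : Type) [Fintype V] [Fintype κ] (G : SimpleGraph V) (D B : ℕ)
  (N : κ → V → V) (K : ι → Finset V) (Q : Finset κ) (c : V → κ) (Pv : Finset V) (lam : ι → ℕ),
  Lat G D N → Dec G B K → Sta G D B N K Q c Pv lam → 0 < B → 10 ^ 6 * B ≤ D →
  ∀ i, (∀ w ∈ K i, ((av K Pv c i).filter (fun a => blk G K Pv c a w)).card ≤
      (nb G w \ K i).card) ∧
    (∀ w ∈ K i, (univ.filter (fun a => N a w ∉ K i)).card ≤ B) ∧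
    (Pb G D N K Pv c i).card ≤ 4400 * B ∧
    (K i \ Pv).card * (Pb G D N K Pv c i).card ≤ (K i \ Pv).card * lam i +
      ∑ a ∈ Pb G D N K Pv c i, (Wa G K Pv c i a).card ∧
    D + 1 ≤ (K i \ Pv).card + 9 * B ∧ (K i \ Pv).card ≤ D + 1 + B

/-- CRS. Double counting of the edges which leave `K i`.

Proof. (1) `∑_x #{w ∈ nb G x : w ∈ K i}` over the `x ∉ K i` is the number of pairs `(w, x)` with
`w ∈ K i`, `x ∈ nb G w \ K i`, that is `∑_{w ∈ K i} (nb G w \ K i).card ≤ (K i).card * B`.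
(2) For `x ∉ K i` the colours `a` with `N a x ∈ K i` inject into `{w ∈ nb G x : w ∈ K i}` by
`a ↦ N a x` (`Lat.inj`; `N a x ≠ x` because `x ∉ K i`, so `G.Adj x (N a x)` by `Lat.sub`). Then (1).
(3) If `x ∉ K i` is in some `K j`, its neighbours in `K i` are in `nb G x \ K j` (disjointness). -/
def St_Crs : Prop := ∀ (V κ ι : Type) [Fintype V] [Fintype κ] (G : SimpleGraph V) (D B : ℕ)
  (N : κ → V → V) (K : ι → Finset V), Lat G D N → Dec G B K → ∀ i,
  (∑ x ∈ univ.filter (fun x => x ∉ K i), ((nb G x).filter (fun w => w ∈ K i)).card ≤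
    (K i).card * B) ∧
  (∑ x ∈ univ.filter (fun x => x ∉ K i), (univ.filter (fun a => N a x ∈ K i)).card ≤
    (K i).card * B) ∧
  (∀ j, ∀ x ∈ K j, x ∉ K i → ((nb G x).filter (fun w => w ∈ K i)).card ≤ B)

/-- DCX. The decoder exists.

Proof. For every `w` we have `(PP w).card ≤ 10000 * B`: if `PP w` is not empty there is `i` with
`w ∈ K i`, it is unique by `Dec.disj`, so `PP w ⊆ Pb i` and `PbC` applies. Hence there is an
injective map `e w : PP w → Fin (10000 * B)` (as a function `κ → Fin (10000 * B)` injective on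
`PP w`). Put `dec w b := some a` if there is `a ∈ PP w` with `e w a = b` (it is unique), and
`none` otherwise. -/
def St_Dcx : Prop := ∀ (V κ ι : Type) [Fintype V] [Fintype κ] (G : SimpleGraph V) (D B : ℕ)
  (N : κ → V → V) (K : ι → Finset V) (Q : Finset κ) (c : V → κ) (Pv : Finset V) (lam : ι → ℕ),
  Lat G D N → Dec G B K → Sta G D B N K Q c Pv lam → 0 < B → 10 ^ 6 * B ≤ D →
  ∃ dec : V → Fin (10000 * B) → Option κ, Dcd G D N K Pv c dec

/-! ### The probabilities. Everywhere `Ω = V → A`, `|A| = 10000 * B`. -/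

/-- LOWP. The lower bounds (t1), (t2): for a set `F` of problem colours with many unblocked rows.

Proof. THIN (`St_Thin`) with `T = V`, `J = V × A`, `tj = Prod.fst`, `aj = Prod.snd`,
`W = {(w, b) : ∃ a ∈ F, dec w b = some a ∧ w ∈ Wa i a}`,
`gd (w, b) (x, b') := ∃ a, dec w b = some a ∧ dec x b' = some a ∧ G.Adj w x ∧ (∀ j, w ∈ K j → x ∉ K j)`,
`Bg = B`, `B`, `Lam`.
Facts: `dec w b = some a` implies `a ∈ PP w` (otherwise `Dcd` says that the set of these `b` is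
empty); if `w ∈ K i \ Pv` and `a ∈ Pb i` then `a ∈ PP w`, so there is exactly one letter `b` with
`dec w b = some a`. Hence `W.card = ∑ a ∈ F, (Wa i a).card` (bijection `(w, b) ↦ (w, a)`; recall
`Wa i a ⊆ K i \ Pv`, `F ⊆ Pb i`).
Hypotheses of THIN: `tj j = tj j' → aj j = aj j' → j = j'` trivial. If `(w, b) ∈ W` and
`gd (w, b) (x, b')` then `x ∉ K i` (as `w ∈ K i`), while all `(w', _) ∈ W` have `w' ∈ K i`; so
`w' ≠ x`. The guards of `(w, b) ∈ W`: `x ∈ nb G w \ K i`, at most `B` of them, and for every `x` at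
most one letter `b'` with `dec x b' = some a` (`a` is determined by `(w, b)`). For `j = (x, b')`: if
some `(w, b) ∈ W` has `gd (w, b) j` then `dec x b' = some a` with `a ∈ PP x`, so `x ∈ K j'` for some
`j'`, and `x ∉ K i`; the `(w, b) ∈ W` with this guard have `w ∈ nb G x`, `w ∈ K i`, so
`w ∈ nb G x \ K j'` (disjoint), at most `B` vertices, and `b` is the only letter with
`dec w b = some a`. `2000 * B ≤ 10000 * B`. `10 ^ 8 * B * Lam ≤ W.card` and
`10 ^ 8 * (10000 * B) * Lam ≤ W.card` because `W.card ≥ D / 60 ≥ 10 ^ 16 * B * Lam / 60`.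
Conclusion: `{(w, b) ∈ W : ω w = b, no guard is on}` has at most (in fact exactly)
`∑ a ∈ F, #{w ∈ On ω : w ∈ K i ∧ Lb ω w = a}` elements: `(w, b) ↦ (w, a)`; `ω w = b`,
`dec w (ω w) = some a`, `w ∈ Wa i a` says `¬ blk a w`, and if `x` is a neighbour of `w` with
`∀ j, w ∈ K j → x ∉ K j` and `dec x (ω x) = some a` then `(x, ω x)` is a guard which is on. So the
event is contained in the event of THIN. -/
def St_LowP : Prop := ∀ (V κ ι A : Type) [Fintype V] [Fintype κ] [Fintype ι] [Fintype A]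
  [Nonempty A] (G : SimpleGraph V) (D B : ℕ) (N : κ → V → V) (K : ι → Finset V) (Q : Finset κ)
  (c : V → κ) (Pv : Finset V) (lam : ι → ℕ) (Lam : ℝ) (dec : V → A → Option κ),
  Ltt G D B N K Q c Pv lam Lam dec → ∀ (i : ι) (F : Finset κ), F ⊆ Pb G D N K Pv c i →
  D ≤ 60 * ∑ a ∈ F, (Wa G K Pv c i a).card →
  ((univ.filter (fun ω : V → A => 10000 * (B : ℝ) * ∑ a ∈ F,
    (((On G K Pv c dec ω).filter (fun w => w ∈ K i ∧ Lb c dec ω w = a)).card : ℝ) <
      99 / 100 * ∑ a ∈ F, ((Wa G K Pv c i a).card : ℝ))).card : ℝ) ≤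
    2 * Real.exp (-Lam) * Fintype.card (V → A)

/-- UPP3. The upper bound (t3).

Proof. BERNL with `f w b = if w ∈ Wa i a ∧ dec w b = some a then 1 else 0`, `c = 1`,
`W = 2 * D / (10000 * B)`. For `w ∈ Wa i a` there is exactly one `b` with `dec w b = some a` if
`a ∈ PP w` and none otherwise, so `∑_w ∑_b f w b ≤ (Wa i a).card ≤ (K i).card ≤ 2 * D` (`KSZ`,
`1 + B ≤ D`), the same for the squares. `Lam ≤ W` because `10000 * B * Lam ≤ 2 * D`.
`3 * √(W * Lam) ≤ D / (10 * (10000 * B))`: squares: `9 * (2 D / (10^4 B)) * Lam ≤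
D^2 / (100 * 10^8 * B^2)` iff `1.8 * 10^7 * B * Lam ≤ D`. If the cardinality `m` of the set in the
event satisfies `(Wa i a).card + D / 10 < 10000 * B * m` then `∑_w f w (ω w) = m >
mean + 3 * √(W * Lam)`. So the event is contained in the event of BERNL. -/
def St_Upp3 : Prop := ∀ (V κ ι A : Type) [Fintype V] [Fintype κ] [Fintype ι] [Fintype A]
  [Nonempty A] (G : SimpleGraph V) (D B : ℕ) (N : κ → V → V) (K : ι → Finset V) (Q : Finset κ)
  (c : V → κ) (Pv : Finset V) (lam : ι → ℕ) (Lam : ℝ) (dec : V → A → Option κ),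
  Ltt G D B N K Q c Pv lam Lam dec → ∀ (i : ι) (a : κ),
  ((univ.filter (fun ω : V → A => ((Wa G K Pv c i a).card : ℝ) + (D : ℝ) / 10 <
    10000 * (B : ℝ) * ((Wa G K Pv c i a).filter (fun w => dec w (ω w) = some a)).card)).card : ℝ) ≤
    Real.exp (-Lam) * Fintype.card (V → A)

/-- UPP4. The upper bound (t4).

Proof. BERNL with `f w b = if ∃ a, dec w b = some a ∧ N a w = v then 1 else 0`, `c = 1`,
`W = 2 * D / (10000 * B)`. For every `w` there is at most one colour `a` with `N a w = v`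
(`Lat.inj`), so `∑_b f w b = 1` if this colour exists and is in `PP w`, and `0` otherwise; hence
`∑_w ∑_b f w b = m_v`, the cardinality of the set `{w : ∃ i, w ∈ K i ∧ w ∉ Pv ∧ ∃ a ∈ Pb i,
N a w = v}`. It is at most `D + 1 ≤ 2 * D`: `N a w = v` implies `w = N a v` (`Lat.inv`), so `w = v` or
`w ∈ nb G v` (`Lat.sub`). The rest as in UPP3. -/
def St_Upp4 : Prop := ∀ (V κ ι A : Type) [Fintype V] [Fintype κ] [Fintype ι] [Fintype A]
  [Nonempty A] (G : SimpleGraph V) (D B : ℕ) (N : κ → V → V) (K : ι → Finset V) (Q : Finset κ)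
  (c : V → κ) (Pv : Finset V) (lam : ι → ℕ) (Lam : ℝ) (dec : V → A → Option κ),
  Ltt G D B N K Q c Pv lam Lam dec → ∀ v : V,
  ((univ.filter (fun ω : V → A => ((univ.filter (fun w => ∃ i, w ∈ K i ∧ w ∉ Pv ∧
      ∃ a ∈ Pb G D N K Pv c i, N a w = v)).card : ℝ) + (D : ℝ) / 10 <
    10000 * (B : ℝ) * (univ.filter (fun w => ∃ a, dec w (ω w) = some a ∧ N a w = v)).card)).card :
      ℝ) ≤ Real.exp (-Lam) * Fintype.card (V → A)

/-- UPP5. The upper bound (t5).

Proof. For a vertex `x` put `d x = #{w ∈ nb G x : w ∈ K i}`. BERNL with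
`f x b = if x ∉ K i ∧ dec x b = some a then d x else 0`, `c = B`, `W = 2 * D * B ^ 2 / (10000 * B)
= D * B / 5000`. If `x ∉ K i` and `dec x b = some a` then `a ∈ PP x`, so `x ∈ K j` for some `j`, and
`d x ≤ B` (`Crs` (3)); so `0 ≤ f ≤ B`. For every `x` there is at most one `b` with
`dec x b = some a`, so `∑_x ∑_b f x b ≤ ∑_{x ∉ K i} d x ≤ (K i).card * B ≤ 2 * D * B` (`Crs` (1),
`KSZ`), and `∑_x ∑_b (f x b)^2 ≤ B * ∑_x ∑_b f x b ≤ 2 * D * B ^ 2 = W * |A|`.
`Lam * B ^ 2 ≤ W` iff `5000 * B * Lam ≤ D`. The mean is `≤ 2 * D * B / (10000 * B) = D / 5000`, and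
`3 * √(W * Lam) = 3 * √(D * B * Lam / 5000) ≤ 3 * D / 10 ^ 4` (iff `D B Lam / 5000 ≤ D^2 / 10^8` iff
`20000 * B * Lam ≤ D`); together `≤ D / 2000`. Every `w` of the set in the event has a neighbour
`x ∉ K i` with `dec x (ω x) = some a`, so the cardinality of the set is `≤ ∑_x f x (ω x)`. So the
event is contained in the event of BERNL. -/
def St_Upp5 : Prop := ∀ (V κ ι A : Type) [Fintype V] [Fintype κ] [Fintype ι] [Fintype A]
  [Nonempty A] (G : SimpleGraph V) (D B : ℕ) (N : κ → V → V) (K : ι → Finset V) (Q : Finset κ)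
  (c : V → κ) (Pv : Finset V) (lam : ι → ℕ) (Lam : ℝ) (dec : V → A → Option κ),
  Ltt G D B N K Q c Pv lam Lam dec → ∀ (i : ι) (a : κ),
  ((univ.filter (fun ω : V → A => D < 2000 * ((K i).filter (fun w => ∃ x, x ∉ K i ∧
    G.Adj w x ∧ dec x (ω x) = some a)).card)).card : ℝ) ≤
    Real.exp (-Lam) * Fintype.card (V → A)

/-- UPP6. The upper bound (t6).

Proof. BERNL with `f x b = if x ∉ K i ∧ ∃ a, dec x b = some a ∧ N a x ∈ K i then 1 else 0`, `c = 1`,
`W = 2 * D * B / (10000 * B) = D / 5000`. For `x ∉ K i` the letters `b` with `f x b = 1` inject into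
the colours `a` with `N a x ∈ K i` (`b ↦ a`, at most one `b` for every `a`), so
`∑_x ∑_b f x b ≤ (K i).card * B ≤ 2 * D * B` (`Crs` (2), `KSZ`), the same for the squares.
`Lam ≤ W`; the mean is `≤ D / 5000`; `3 * √(D * Lam / 5000) ≤ 3 * D / 10 ^ 4` (iff
`20000 * Lam ≤ D`); together `≤ D / 2000`. For every `v` of the set in the event choose such an `x`:
`v = N a x` with the label `a` of `x` is determined by `x`, so this is injective, and the cardinality
is `≤ ∑_x f x (ω x)`. -/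
def St_Upp6 : Prop := ∀ (V κ ι A : Type) [Fintype V] [Fintype κ] [Fintype ι] [Fintype A]
  [Nonempty A] (G : SimpleGraph V) (D B : ℕ) (N : κ → V → V) (K : ι → Finset V) (Q : Finset κ)
  (c : V → κ) (Pv : Finset V) (lam : ι → ℕ) (Lam : ℝ) (dec : V → A → Option κ),
  Ltt G D B N K Q c Pv lam Lam dec → ∀ (i : ι),
  ((univ.filter (fun ω : V → A => D < 2000 * ((K i).filter (fun v => ∃ x a, x ∉ K i ∧
    dec x (ω x) = some a ∧ N a x = v)).card)).card : ℝ) ≤
    Real.exp (-Lam) * Fintype.card (V → A)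

/-- LLK. The local lemma for events attached to near-cliques and to vertices.

Proof. LLL0 with `T = V`, `J = (ι × κ × Fin 5) ⊕ V`, `S (inl (i, _, _)) = {x : ∃ w ∈ K i, x = w ∨
G.Adj w x}`, `S (inr v) = {x : x = v ∨ G.Adj v x}`, `p = 2 * exp (-Lam)`. A vertex `x` is in
`S (inl (i, _, _))` for at most `D + 1` indices `i` (such `i` have an element in
`insert x (nb G x)`, and the `K i` are disjoint), and in `S (inr v)` for at most `D + 1` vertices
`v`. So `x` is in `S j'` for at most `(D + 1) * (D + 1) * 5 + (D + 1) ≤ 6 * (D + 1) ^ 2` indices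
`j'`. `(S j).card ≤ (K i).card * (D + 1) ≤ 2 * (D + 1) ^ 2` (by `KSZ` and `B ≤ D`: `(K i).card ≤
D + 1 + B ≤ 2 * (D + 1)`). So `N = 12 * (D + 1) ^ 4 ≤ (D + 2) ^ 20` (as `12 ≤ (D + 2) ^ 16`), and
`4 * p * (N + 1) ≤ 8 * exp (-Lam) * ((D + 2) ^ 20 + 1) ≤ 1`. -/
def St_LLK : Prop := ∀ (V κ ι A : Type) [Fintype V] [Fintype κ] [Fintype ι] [Fintype A]
  [Nonempty A] (G : SimpleGraph V) (D B : ℕ) (N : κ → V → V) (K : ι → Finset V) (Lam : ℝ)
  (Ev : ι → κ → Fin 5 → (V → A) → Prop) (Ev' : V → (V → A) → Prop),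
  Lat G D N → Dec G B K → B ≤ D → 8 * Real.exp (-Lam) * (((D : ℝ) + 2) ^ 20 + 1) ≤ 1 →
  (∀ i a k (ω ω' : V → A), (∀ w ∈ K i, ∀ x, (x = w ∨ G.Adj w x) → ω x = ω' x) →
    Ev i a k ω → Ev i a k ω') →
  (∀ v (ω ω' : V → A), (∀ x, (x = v ∨ G.Adj v x) → ω x = ω' x) → Ev' v ω → Ev' v ω') →
  (∀ i a k, ((univ.filter (fun ω => Ev i a k ω)).card : ℝ) ≤
    2 * Real.exp (-Lam) * Fintype.card (V → A)) →
  (∀ v, ((univ.filter (fun ω => Ev' v ω)).card : ℝ) ≤
    2 * Real.exp (-Lam) * Fintype.card (V → A)) →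
  ∃ ω : V → A, (∀ i a k, ¬ Ev i a k ω) ∧ ∀ v, ¬ Ev' v ω

/-! `St_Lab` follows (theorem `thm_Lab`):

`dec` from DCX (`10 ^ 6 * B ≤ D` since `1 ≤ Lam`), `A = Fin (10000 * B)` (not empty). LLK with
* `Ev i a 0`: `a ∈ Pb i ∧ (K i \ Pv).card ≤ 4 * (Wa i a).card ∧` the event of LOWP for `F = {a}`,
* `Ev i a 1`: `(K i \ Pv).card ≤ 50 * ∑_{a ∈ F} (Wa i a).card ∧` the event of LOWP for
  `F = {a ∈ Pb i : 4 * (Wa i a).card < (K i \ Pv).card}`,
* `Ev i a 2`: the event of UPP3, `Ev i a 3`: the event of UPP5, `Ev i a 4`: the event of UPP6,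
* `Ev' v`: the event of UPP4.
LOWP applies: `D + 1 ≤ (K i \ Pv).card + 9 * B` (PBC), so `D ≤ 60 * (Wa i a).card` if
`(K i \ Pv).card ≤ 4 * (Wa i a).card`, and `D ≤ 60 * ∑` if `(K i \ Pv).card ≤ 50 * ∑`. If the first
part of the event is false the event is empty. Locality: `w ∈ On ω` and `Lb ω w` depend only on the
coordinates `x = w` and `x` adjacent to `w`; for `Ev i a k` only `w ∈ K i` matter (in UPP5, UPP6
the `x` are neighbours of vertices of `K i`: in UPP6 `N a x = v ∈ K i`, `x ∉ K i`, so `x` is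
adjacent to `v`); in UPP4 `w = v` or `w` is adjacent to `v`. The probabilities: `exp (-Lam) ≤
2 * exp (-Lam)`.
With the `ω` of LLK: `On := On G K Pv c dec ω`, `lb := Lb c dec ω`. For `w ∈ On`,
`dec w (ω w) = some a`, `a = lb w`, `a ∈ PP w`, which gives `row`, `lab` (disjointness), `unb`.
`cross`: `x ∈ On` has `dec x (ω x) = some (lb x)`; for `j` with `w ∈ K j` we have `j = i`, so
`x ∉ K j`, and the definition of `On` says `dec x (ω x) ≠ some (lb w)`. `t1`, `t2`: directly (a sum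
over `{a}`). `t3`: `{w ∈ On : w ∈ K i ∧ lb w = a} ⊆ {w ∈ Wa i a : dec w (ω w) = some a}` (`w ∉ Pv`
by `row`). `t4`, `t5`, `t6`: the sets with `On` are contained in the sets of the events. -/

/-! ### PRB -/

/-- HALLB. Hall's theorem with capacities, from a fractional matching.

Proof. Hall's theorem (Mathlib: `Finset.all_card_le_biUnion_card_iff_exists_injective`) for the
left side `{l // l ∈ A}` and the finite sets `O l = {(r, k) : 0 < y l r, k < cap r} ⊆ R × ℕ`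
(`univ.biUnion` of `{r} ×ˢ range (cap r)`). For a finite set `L'` of left vertices
`L'.card = ∑_{l ∈ L'} ∑_r y l r = ∑_{r ∈ R'} ∑_{l ∈ L'} y l r ≤ ∑_{r ∈ R'} cap r =
(L'.biUnion O).card`, `R' = {r : ∃ l ∈ L', 0 < y l r}` (terms with `r ∉ R'` are `0`; extending the
sum from `L'` to `A` increases it). The injective choice `g l = (f l, k l)` gives
`#{l ∈ A : f l = r} ≤ cap r` since `k` is injective on this set with values `< cap r`. -/
def St_HallB : Prop := ∀ (L R : Type) [Fintype L] [Fintype R] [Nonempty R] (A : Finset L)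
  (y : L → R → ℝ) (cap : R → ℕ), (∀ l r, 0 ≤ y l r) → (∀ l ∈ A, ∑ r, y l r = 1) →
  (∀ r, ∑ l ∈ A, y l r ≤ cap r) →
  ∃ f : L → R, (∀ l ∈ A, 0 < y l (f l)) ∧ ∀ r, (A.filter (fun l => f l = r)).card ≤ cap r

/-- DUM. The arithmetic of the dummies. (`w a` = number of unblocked rows, `t a` = number of rows
with the label `a`, `n` = number of rows, `lam` = number of dummies.)

Proof. Put `v a = min 1 (12500 * B * t a / D)`, `s = {a ∈ P : 4 * w a < n}`, `l = P \ s`,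
`z a = w a / n ≤ 1`. (`n > 0`.) We want `P.card - lam ≤ ∑_{a ∈ P} v a`, and we know
`P.card - lam ≤ ∑_{a ∈ P} z a`.
For `a ∈ l`: `99 / 100 * w a ≤ 10000 * B * t a`, so `12500 * B * t a / D ≥ 1.2375 * w a / D ≥
1.2375 * 0.999 * z a ≥ 1.236 * z a` (`D ≤ 1000 n / 999`, so `w a / D ≥ 0.999 * z a`). So
`v a ≥ min 1 (1.236 * z a) ≥ z a`.
For `a ∈ s`: `12500 * B * t a / D ≤ 1.25 * (w a + D / 10) / D ≤ 1.25 * (n / 4) / D + 0.125 ≤
1.25 * 0.25 * 1.001 + 0.125 < 1`, so `v a = 12500 * B * t a / D`.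
Case 1: `n ≤ 50 * ∑_{s} w a`. Then `∑_s v a = 12500 * B * ∑_s t a / D ≥ 1.2375 * ∑_s w a / D ≥
∑_s z a`. With `∑_l v a ≥ ∑_l z a` done.
Case 2: `50 * ∑_s w a < n` (so `∑_s z a < 1 / 50`) and there is `a0 ∈ l` with `v a0 < 1`. Then
`v a0 ≥ 1.236 * z a0 ≥ z a0 + 0.236 / 4 ≥ z a0 + 1 / 50`, so `∑_P v a ≥ ∑_l v a ≥ ∑_l z a + 1 / 50 ≥
∑_P z a`.
Case 3: `50 * ∑_s w a < n` and `v a = 1` for all `a ∈ l`. Then `∑_P v a ≥ l.card`. Also
`n * P.card ≤ n * lam + ∑_P w a < n * lam + n * l.card + n`, so `P.card < lam + l.card + 1`, that is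
`P.card ≤ lam + l.card`. -/
def St_Dum : Prop := ∀ (κ : Type) (P : Finset κ) (w t : κ → ℕ) (n D B lam : ℕ),
  0 < D → 0 < B → 999 * D ≤ 1000 * n → 1000 * n ≤ 1001 * D → (∀ a ∈ P, w a ≤ n) →
  (∀ a ∈ P, n ≤ 4 * w a → 99 / 100 * (w a : ℝ) ≤ 10000 * B * t a) →
  (n ≤ 50 * ∑ a ∈ P.filter (fun a => 4 * w a < n), w a →
    99 / 100 * (∑ a ∈ P.filter (fun a => 4 * w a < n), (w a : ℝ)) ≤
      10000 * B * ∑ a ∈ P.filter (fun a => 4 * w a < n), (t a : ℝ)) →
  (∀ a ∈ P, 10000 * (B : ℝ) * t a ≤ w a + (D : ℝ) / 10) →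
  n * P.card ≤ n * lam + ∑ a ∈ P, w a →
  ∑ a ∈ P, (1 - min 1 (12500 * (B : ℝ) * t a / D)) ≤ lam

/-- LOA. The loads of the right vertices.

Proof. Let `m` be the cardinality on the right side of (t4) for `v`, i.e. of the set `M` of the
`w` such that `∃ i, w ∈ K i ∧ w ∉ Pv ∧ ∃ a ∈ Pb i, N a w = v`. By (t4)
`12500 * B * n_v ≤ 5 / 4 * m + D / 8`. `M ⊆ insert v (nb G v)` (`N a w = v` gives `w = N a v`,
`Lat.inv`, `Lat.sub`), so `m ≤ D + 1` and `12500 * B * n_v ≤ 11 / 8 * D + 5 / 4 ≤ 2 * D`.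
If `v ∈ K j`: the `w ∈ M` with `w ∈ K j` are `N a v` with `a ∈ Pb j`, at most
`(Pb j).card ≤ 4400 * B` (PBC); the others are in `nb G v \ K j`, at most `B`. So `m ≤ 4401 * B` and
`5 / 4 * m + D / 8 ≤ D`, as `10 ^ 6 * B ≤ D`.
If `D < 2 * s`, `s = #{u ∈ nb G v : ∀ i, u ∉ K i}`: the elements of `M` are in some `K i`, so
`m ≤ 1 + (D - s)`, `2 * m ≤ 2 + 2 * D - 2 * s < D + 2`, and `5 / 4 * m + D / 8 ≤ 5 / 8 * D + 5 / 4 +
D / 8 ≤ D`. -/
def St_Loa : Prop := ∀ (V κ ι : Type) [Fintype V] [Fintype κ] [Fintype ι] (G : SimpleGraph V)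
  (D B : ℕ) (N : κ → V → V) (K : ι → Finset V) (Q : Finset κ) (c : V → κ) (Pv : Finset V)
  (lam : ι → ℕ) (On : Finset V) (lb : V → κ), Lat G D N → Dec G B K →
  Sta G D B N K Q c Pv lam → 0 < B → 10 ^ 6 * B ≤ D → Labl G D B N K c Pv On lb →
  ∀ v, 12500 * B * (On.filter (fun w => N (lb w) w = v)).card ≤ 2 * D ∧
    (((∃ i, v ∈ K i) ∨ D < 2 * ((nb G v).filter (fun u => ∀ i, u ∉ K i)).card) →
      12500 * B * (On.filter (fun w => N (lb w) w = v)).card ≤ D)

/-- FRC. The integral matching of the problem colours to right vertices and dummies.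

Proof. If `ι` is empty everything is trivial. Otherwise HALLB with `L = ι × κ`, `R = V ⊕ ι`,
`A = {(i, a) : a ∈ Pb i}`, `cap (inl v) = if (∃ i, v ∈ K i) ∨ D < 2 * #{..} then 1 else 2`,
`cap (inr j) = lam j`. Put `T i a = {w ∈ On : w ∈ K i ∧ lb w = a}`,
`va i a = min 1 (12500 * B * (T i a).card / D)`,
`y (i, a) (inl v) = if N a v ∈ T i a then va i a / (T i a).card else 0`,
`y (i, a) (inr j) = if j = i then 1 - va i a else 0`.
Sum over `R`: `N a` is a bijection (`Lat.inv`), so `∑_v y (i, a) (inl v) = (T i a).card * (va i a /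
(T i a).card) = va i a` (if `T i a` is empty then `va i a = 0`), and `∑_j y (i, a) (inr j) =
1 - va i a`. Load of `inl v`: `va i a / (T i a).card ≤ 12500 * B / D`, so
`∑ ≤ 12500 * B / D * #{(i, a) ∈ A : N a v ∈ T i a}`, and `(i, a) ↦ N a v =: w` is injective on this
set with values in `{w ∈ On : N (lb w) w = v}`: `lb w = a`, `w ∈ K i` (disjoint), `N a w = v` by
`Lat.inv`. By LOA the load is `≤ cap (inl v)`. Load of `inr j`: `∑_{a ∈ Pb j} (1 - va j a) ≤ lam j` by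
DUM with `P = Pb j`, `w a = (Wa j a).card`, `t a = (T j a).card`, `n = (K j \ Pv).card`: the
hypotheses are PBC (5) (`999 * D ≤ 1000 * n` and `1000 * n ≤ 1001 * D` follow from `10 ^ 6 * B ≤ D`,
`0 < B`), `Wa j a ⊆ K j \ Pv`, `Labl.t1`, `t2`, `t3`, and PBC (4).
From HALLB: `f : ι × κ → V ⊕ ι`. `0 < y (i, a) (f (i, a))`: if `f (i, a) = inl v` then
`N a v ∈ T i a`; if `f (i, a) = inr j` then `j = i`. -/
def St_Frc : Prop := ∀ (V κ ι : Type) [Fintype V] [Fintype κ] [Fintype ι] (G : SimpleGraph V)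
  (D B : ℕ) (N : κ → V → V) (K : ι → Finset V) (Q : Finset κ) (c : V → κ) (Pv : Finset V)
  (lam : ι → ℕ) (On : Finset V) (lb : V → κ), Lat G D N → Dec G B K →
  Sta G D B N K Q c Pv lam → 0 < B → 10 ^ 6 * B ≤ D → Labl G D B N K c Pv On lb →
  ∃ f : ι → κ → V ⊕ ι,
    (∀ i, ∀ a ∈ Pb G D N K Pv c i, (∃ v, f i a = Sum.inl v ∧ N a v ∈ On ∧ N a v ∈ K i ∧
      lb (N a v) = a) ∨ f i a = Sum.inr i) ∧
    (∀ v, ((univ : Finset (ι × κ)).filter (fun p => p.2 ∈ Pb G D N K Pv c p.1 ∧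
      f p.1 p.2 = Sum.inl v)).card ≤ 2) ∧
    (∀ v, ((∃ i, v ∈ K i) ∨ D < 2 * ((nb G v).filter (fun u => ∀ i, u ∉ K i)).card) →
      ((univ : Finset (ι × κ)).filter (fun p => p.2 ∈ Pb G D N K Pv c p.1 ∧
        f p.1 p.2 = Sum.inl v)).card ≤ 1) ∧
    ∀ i, ((Pb G D N K Pv c i).filter (fun a => f i a = Sum.inr i)).card ≤ lam i

/-! `St_Prb` follows from FRC (theorem `thm_Prb`):

Let `X = {w ∈ On : ∃ i, w ∈ K i ∧ f i (lb w) = inl (N (lb w) w)}` and `c' w = if w ∈ X then lb w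
else c w`.
* `eq`, `row` (`Labl.row`), `prb` (`Labl.lab`): clear.
* `inj`: `w, x ∈ X`, both in `K i`, `lb w = lb x = a`: the near-clique of `w` is unique, so
  `inl (N a w) = f i a = inl (N a x)`, hence `w = x` (apply `N a`, `Lat.inv`).
* `proper`: let `u, v` be adjacent. Not in `X` both: `Cs` both, `Sta.proper`. (`u ∈ X` is not in `Pv`
  and is in some `K i`, so `¬ Cs K Pv u`.) `u ∈ X`, `Cs v`, `v ∉ X`: `c' v = c v`, and `Labl.unb` says
  `¬ blk (lb u) u`, so `c v ≠ lb u`. Both in `X`: if `u ∈ K i`, `v ∈ K i` then `inj` (and `u ≠ v`);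
  otherwise `Labl.cross`.
* `cnt`: `Pb i` is the union of `{a : f i a = inr i}` (at most `lam i`) and of
  `{a ∈ Pb i : f i a = inl v, ...}`; for such `a` the vertex `w = N a v` is in `K i ∩ X`
  (`lb w = a`, `N a w = v`), and `a ↦ w` is injective (`lb w = a`).
* `ld2`, `ldK`, `ldS`: `u ↦ (i, lb u)` (`u ∈ K i`) maps `{u ∈ X : N (c' u) u = v}` injectively (`inj`)
  into `{p : p.2 ∈ Pb p.1, f p.1 p.2 = inl v}`.
* `x6`, `x7`: `X ⊆ On`, `c' = lb` on `X`, `Labl.t5`, `Labl.t6`. -/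

end Pool.TCT
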