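import Pool.Agent.Helper3.TCT.Defs

/-!
# T9, block FIN9: statements of the parts, with proofs in the comments (helper60)

Paper proof: `TC9_helper3.md`, section 3d. Everything is stated with the definitions of
`Helper3/TCT/Defs.lean`.
-/

set_option autoImplicit false

namespace Pool.TCT

open Pool.TC Pool.TCM Pool.TCS Finset
open scoped Classical

section defs

variable {V κ ι : Type} [Fintype V] [Fintype κ]

/-- The hypotheses of FIN9. `C` = coloured vertices, `Y` = vertices with good colours, `Ld` = used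
right vertices, `Qa i` = reserved colours of `K i`. -/
structure H9 (G : SimpleGraph V) (D B : ℕ) (N : κ → V → V) (K : ι → Finset V) (Q : Finset κ)
    (C Y Ld : Finset V) (Qa : ι → Finset κ) (c : V → κ) : Prop where
  lat : Lat G D N
  kdec : Dec G B K
  B0 : 0 < B
  BD : 10 ^ 6 * B ≤ D
  cov : ∀ u, u ∉ C → ∃ i, u ∈ K i
  prp : ∀ u ∈ C, ∀ v ∈ C, G.Adj u v → c u ≠ c v
  yC : ∀ w ∈ Y, w ∈ C ∧ c w ∉ Q ∧ ∃ i, w ∈ K i
  yne : ∀ i, ∀ w ∈ Y, w ∈ K i → ∀ x ∈ K i, x ∈ C → x ≠ w → c x ≠ c w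
  qne : ∀ i, ∀ a ∈ Qa i, a ∈ Q ∧ ∀ x ∈ K i, x ∈ C → c x ≠ a
  crd : ∀ i, (K i \ C).card ≤ (Qa i).card ∧ 1000 ≤ (Qa i).card ∧ 25 * (Qa i).card ≤ D
  blo : ∀ i, ∀ a ∈ Qa i, 500 * ((K i).filter (fun w => (∃ x ∈ C, G.Adj w x ∧ x ∉ K i ∧ c x = a) ∨
    N a w ∉ K i)).card ≤ D
  ldk : ∀ i, 500 * (K i ∩ Ld).card ≤ D
  y95 : ∀ i, 95 * D ≤ 100 * (K i ∩ Y).card

/-- A pairing: the vertex `u` of `K i` which is not coloured has the reserved colour `α u`. -/
structure Prg (D : ℕ) (N : κ → V → V) (K : ι → Finset V) (C Y : Finset V)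
    (Qa : ι → Finset κ) (c α : V → κ) : Prop where
  mem : ∀ i, ∀ u ∈ K i, u ∉ C → α u ∈ Qa i
  bad : ∀ i, ∀ u ∈ K i, u ∉ C →
    50 * ((K i ∩ Y).filter (fun w => N (α u) w = N (c w) u)).card ≤ D
  inj : ∀ i, ∀ u ∈ K i, ∀ v ∈ K i, u ∉ C → v ∉ C → α u = α v → u = v

/-- `w` is an option for the vertex `u` of `K i`: `u` gets the colour of `w` and `w` gets `α u`. -/
structure IsOp (G : SimpleGraph V) (N : κ → V → V) (K : ι → Finset V) (C Y Ld : Finset V)
    (c α : V → κ) (i : ι) (u w : V) : Prop where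
  uK : u ∈ K i
  uC : u ∉ C
  wK : w ∈ K i
  wY : w ∈ Y
  o1 : ∀ x ∈ C, G.Adj u x → x ∉ K i → c x ≠ c w
  o2 : N (c w) u ∈ K i ∧ N (c w) u ∉ Ld
  o3 : ∀ x ∈ C, G.Adj w x → x ∉ K i → c x ≠ α u
  o4 : N (α u) w ∈ K i ∧ N (α u) w ∉ Ld
  o5 : N (c w) u ≠ N (α u) w

/-- conflict of the option `w` of `u` with the option `w'` of `u'` -/
def CF (G : SimpleGraph V) (N : κ → V → V) (K : ι → Finset V) (c α : V → κ)
    (u w u' w' : V) : Prop :=
  u ≠ u' ∧ (w = w' ∨ N (c w) u = N (c w') u' ∨ N (α u) w = N (α u') w' ∨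
    N (c w) u = N (α u') w' ∨ N (α u) w = N (c w') u' ∨
    (G.Adj u u' ∧ (∀ i, u ∈ K i → u' ∉ K i) ∧ c w = c w') ∨
    (G.Adj w w' ∧ (∀ i, w ∈ K i → w' ∉ K i) ∧ α u = α u'))

end defs

/-- PAIF. The pairing.

Proof. For every `i` use PAI (`St_Pai`) with `R = K i \ C`, `Q = Qa i`, `k = 50`,
`bad u a := D < 50 * #{w ∈ K i ∩ Y : N a w = N (c w) u}`.
`(K i).card ≤ D + 1 + B` (`K i` is not empty; `w ∈ K i`: `K i ⊆ insert w (nb G w) ∪ (K i \ insert w
(nb G w))`). For fixed `u`: given `w` there is at most one `a` with `N a w = N (c w) u` (`Lat.inj`), so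
`∑_a #{w : ..} ≤ (K i ∩ Y).card ≤ D + 1 + B`. If `m` colours are bad, `m * (D + 1) ≤ 50 * (D + 1 + B)`,
so `m ≤ 50` because `50 * B < D + 1`. For fixed `a`: given `w` there is at most one `u` with
`N a w = N (c w) u`, namely `u = N (c w) (N a w)` (`Lat.inv`), so in the same way at most `50` bad `u`.
`100 < 1000 ≤ (Qa i).card`. This gives `f i : V → κ`. Put `α u = f i u` for `u ∈ K i` (choose `i`; it is
unique by `Dec.disj`) and `α u` arbitrary if there is no such `i`. -/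
def St_PaiF : Prop := ∀ (V κ ι : Type) [Fintype V] [Fintype κ] [Fintype ι] (G : SimpleGraph V)
  (D B : ℕ) (N : κ → V → V) (K : ι → Finset V) (Q : Finset κ) (C Y Ld : Finset V)
  (Qa : ι → Finset κ) (c : V → κ), H9 G D B N K Q C Y Ld Qa c → ∃ α : V → κ, Prg D N K C Y Qa c α

/-- OPF. Many options: at least `92 D / 100`.

Proof. Among the `≥ 95 D / 100` vertices `w ∈ K i ∩ Y` we exclude:
(o1): the `w` such that some `x ∈ C`, `x ∈ nb G u \ K i`, has `c x = c w`: at most `B` vertices `x`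
(`Dec.out`), and for every `x` at most one `w ∈ K i ∩ Y` with `c w = c x` (`H9.yne`: two different
vertices `w, w'` of `K i ∩ Y` have different colours, as `Y ⊆ C`): `≤ B`.
(o2): `w` with `N (c w) u ∉ K i`: `N (c w) u ∈ nb G u \ K i`, injective in `c w` (`Lat.inj`), hence in
`w`: `≤ B`. `w` with `N (c w) u ∈ K i ∩ Ld`: `≤ (K i ∩ Ld).card ≤ D / 500` in the same way.
(o3) and `N (α u) w ∉ K i`: `≤ D / 500` (`H9.blo` with `a = α u ∈ Qa i`).
`N (α u) w ∈ K i ∩ Ld`: `w ↦ N (α u) w` is injective (`Lat.inv`), `≤ D / 500`.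
(o5): `≤ D / 50` (`Prg.bad`).
Total: `≤ 2 * B + 3 * D / 500 + D / 50 ≤ 3 * D / 100` (multiply everything by `500`:
`1000 * B + 3 * D + 10 * D ≤ 15 * D`). -/
def St_OpF : Prop := ∀ (V κ ι : Type) [Fintype V] [Fintype κ] [Fintype ι] (G : SimpleGraph V)
  (D B : ℕ) (N : κ → V → V) (K : ι → Finset V) (Q : Finset κ) (C Y Ld : Finset V)
  (Qa : ι → Finset κ) (c α : V → κ), H9 G D B N K Q C Y Ld Qa c → Prg D N K C Y Qa c α →
  ∀ i, ∀ u ∈ K i, u ∉ C →
    92 * D ≤ 100 * (univ.filter (fun w => IsOp G N K C Y Ld c α i u w)).card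

/-- CNF. Few conflicts.

Proof. Let `r = (K i \ C).card ≤ D / 25` (`H9.crd`), `w` an option of `u ∈ K i`. Count the pairs
`(u', w')` such that `w'` is an option of `u'` (for some index `j`; then `u', w' ∈ K j` and the right
vertices `N (c w') u'`, `N (α u') w'` are in `K j`) and `CF u w u' w'`. The union of seven sets:
(1) `w = w'`: `w ∈ K i ∩ K j`, so `j = i`, `u' ∈ K i \ C`, `w'` fixed: `≤ r`.
(2) `N (c w) u = N (c w') u'`: this vertex is in `K i` and in `K j`, so `j = i`, `u' ∈ K i \ C`; given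
`u'`, the colour `c w'` is determined (`Lat.inj`), and so is `w' ∈ K i ∩ Y` (`H9.yne`): `≤ r`.
(3) `N (α u) w = N (α u') w'`: `j = i`; given `u'`, `w' = N (α u') (..)` is determined: `≤ r`.
(4) `N (c w) u = N (α u') w'`: the same, `≤ r`.
(5) `N (α u) w = N (c w') u'`: as (2), `≤ r`.
(6) `G.Adj u u'`, `u' ∉ K i`, `c w = c w'`: `u' ∈ nb G u \ K i`, `≤ B` vertices, and given `u'` (hence
`j`), `w' ∈ K j ∩ Y` is determined by its colour (`H9.yne`): `≤ B`.
(7) `G.Adj w w'`, `w' ∉ K i`, `α u = α u'`: `w' ∈ nb G w \ K i`, `≤ B` vertices, and given `w'`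
(hence `j`), `u' ∈ K j \ C` is determined by `α u'` (`Prg.inj`): `≤ B`.
Total `5 * r + 2 * B`, and `25 * (5 * r + 2 * B) ≤ 5 * D + 50 * B`. -/
def St_CnF : Prop := ∀ (V κ ι : Type) [Fintype V] [Fintype κ] [Fintype ι] (G : SimpleGraph V)
  (D B : ℕ) (N : κ → V → V) (K : ι → Finset V) (Q : Finset κ) (C Y Ld : Finset V)
  (Qa : ι → Finset κ) (c α : V → κ), H9 G D B N K Q C Y Ld Qa c → Prg D N K C Y Qa c α →
  ∀ i u w, IsOp G N K C Y Ld c α i u w →
    25 * ((univ : Finset (V × V)).filter (fun p => (∃ j, IsOp G N K C Y Ld c α j p.1 p.2) ∧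
      CF G N K c α u w p.1 p.2)).card ≤ 5 * D + 50 * B

/-- TRF. The choice of the options.

Proof. If `V` is empty there is nothing to do. `Pool.Agent.Helper45.Vu.exists_transversal`
(`Helper45/Vu/IT.lean`: parts of size `≥ 4 d`, every option has at most `d` conflicts, then there is
an independent transversal) on the graph on `V × V` with `p ~ q` iff
`p ≠ q ∧ (CF p.1 p.2 q.1 q.2 ∨ CF q.1 q.2 p.1 p.2)` (`CF` is symmetric: the 4th and the 5th case are
exchanged), parts `P u = {(u, w) : ∃ i, IsOp i u w}` for `u ∉ C`, `d = D / 5 + 2 * B`. For `u ∈ K i`,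
`u ∉ C` (`H9.cov`): `(P u).card ≥ 92 D / 100 ≥ 4 * (D / 5 + 2 * B)` (OPF; `8 * B ≤ 12 D / 100`). The
conflicts of `(u, w) ∈ P u` with the options in the other parts: `≤ D / 5 + 2 * B` by CNF (the sum over
the parts of the numbers of conflicting options is the cardinality of a subset of the set in CNF).
`g u` = second component of the chosen option of `u`. -/
def St_TrF : Prop := ∀ (V κ ι : Type) [Fintype V] [Fintype κ] [Fintype ι] (G : SimpleGraph V)
  (D B : ℕ) (N : κ → V → V) (K : ι → Finset V) (Q : Finset κ) (C Y Ld : Finset V)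
  (Qa : ι → Finset κ) (c α : V → κ), H9 G D B N K Q C Y Ld Qa c → Prg D N K C Y Qa c α →
  ∃ g : V → V, (∀ u, u ∉ C → ∃ i, IsOp G N K C Y Ld c α i u (g u)) ∧
    ∀ u u', u ∉ C → u' ∉ C → u ≠ u' → ¬ CF G N K c α u (g u) u' (g u')

section defs2

variable {V κ : Type}

/-- the final colouring: `u ∉ C` gets the colour of `g u`, and `g u` gets `α u` -/
noncomputable def cF (C : Finset V) (c α : V → κ) (g : V → V) (v : V) : κ :=
  if v ∉ C then c (g v) else if h : ∃ u, u ∉ C ∧ g u = v then α h.choose else c v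

end defs2

/-- FPR. The final colouring is proper.

Proof. Let `g` be as in TRF. `g` is injective outside of `C` (`¬ CF`, first case), so for `u ∉ C`
`cF (g u) = α u` (`g u ∈ Y ⊆ C`), `cF u = c (g u)`, and `cF v = c v` for the other `v`. Let `x, y` be
adjacent, `x` of type U (`∉ C`), W (`= g u`, `u ∉ C`) or O (other vertices of `C`). Every option of
`u ∈ K i` has `g u ∈ K i ∩ Y`.
O-O: `H9.prp`. U-O (`x ∈ K i`): `cF x = c (g x)`; if `y ∈ K i`, `y ∈ C`, `y ≠ g x`: `H9.yne`; if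
`y ∉ K i`: `o1`. W-O (`x = g u`, `u, x ∈ K i`): `cF x = α u ∈ Qa i`; if `y ∈ K i`: `H9.qne`; if
`y ∉ K i`: `o3`. U-W: `c (g x) ∉ Q` (`H9.yC`), `α u ∈ Q` (`H9.qne`, `Prg.mem`). U-U: `x, y ∉ C`,
`x ≠ y`; if `y ∈ K i`: `g x ≠ g y` are both in `K i ∩ Y`, so `c (g x) ≠ c (g y)` (`H9.yne`); if
`y ∉ K i`: `¬ CF` (6th case; `x` is in no other `K j`). W-W: `x = g u`, `y = g u'`, `u ≠ u'`; if
`y ∈ K i` then `u' ∈ K i` and `α u ≠ α u'` by `Prg.inj`; if `y ∉ K i`: `¬ CF` (7th case). -/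
def St_FPr : Prop := ∀ (V κ ι : Type) [Fintype V] [Fintype κ] [Fintype ι] (G : SimpleGraph V)
  (D B : ℕ) (N : κ → V → V) (K : ι → Finset V) (Q : Finset κ) (C Y Ld : Finset V)
  (Qa : ι → Finset κ) (c α : V → κ) (g : V → V), H9 G D B N K Q C Y Ld Qa c →
  Prg D N K C Y Qa c α → (∀ u, u ∉ C → ∃ i, IsOp G N K C Y Ld c α i u (g u)) →
  (∀ u u', u ∉ C → u' ∉ C → u ≠ u' → ¬ CF G N K c α u (g u) u' (g u')) →
  (∀ v, (∀ i, v ∉ K i) → cF C c α g v = c v) ∧
  (∀ u v, G.Adj u v → cF C c α g u ≠ cF C c α g v)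

/-- FLD. The final loads.

Proof. `cF` as in FPR: `cF u = c (g u)` and `cF (g u) = α u` for `u ∉ C`, `cF v = c v` otherwise. Let
`Z = {x ∈ KU K : N (cF x) x = v}`. The `x ∈ Z` which are in `C` and not of the form `g u`, `u ∉ C`, are
in `{x ∈ KU K ∩ C : N (c x) x = v}`, whose cardinality is `load N (KU K ∩ C) c v`. The others are new:
`x = u ∉ C` with `N (c (g u)) u = v`, or `x = g u` with `N (α u) (g u) = v`. There is at most one new
`x`: two different ones would give `N (c (g u)) u = N (c (g u')) u'` or `N (α u) (g u) = N (α u')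
(g u')` or `N (c (g u)) u = N (α u') (g u')` with `u ≠ u'`, against `¬ CF` (2nd - 5th case), or
`N (c (g u)) u = N (α u) (g u)`, against `o5`. And if there is a new `x` then `v ∈ K i`, `v ∉ Ld` by
`o2`, `o4`, so `v ∈ KU K`. -/
def St_FLd : Prop := ∀ (V κ ι : Type) [Fintype V] [Fintype κ] [Fintype ι] (G : SimpleGraph V)
  (D B : ℕ) (N : κ → V → V) (K : ι → Finset V) (Q : Finset κ) (C Y Ld : Finset V)
  (Qa : ι → Finset κ) (c α : V → κ) (g : V → V), H9 G D B N K Q C Y Ld Qa c →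
  Prg D N K C Y Qa c α → (∀ u, u ∉ C → ∃ i, IsOp G N K C Y Ld c α i u (g u)) →
  (∀ u u', u ∉ C → u' ∉ C → u ≠ u' → ¬ CF G N K c α u (g u) u' (g u')) →
  (∀ v, load N (KU K) (cF C c α g) v ≤ load N (KU K ∩ C) c v + 1) ∧
  (∀ v, (v ∉ KU K ∨ v ∈ Ld) →
    load N (KU K) (cF C c α g) v ≤ load N (KU K ∩ C) c v)

end Pool.TCT
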